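import Pool.Agent.KDV.Tools

/-!
# The second moment argument inside one batch
-/

namespace KDV

open AC Low4 Encodable Denumerable

/-- the strings of length `n` -/
def Sx (n : ℕ) : Finset (List Bool) := (TA.strs n).toFinset

theorem mem_Sx {n : ℕ} {σ : List Bool} : σ ∈ Sx n ↔ σ.length = n := by
  unfold Sx
  rw [List.mem_toFinset, TA.mem_strs]

theorem card_Sx (n : ℕ) : (Sx n).card = 2 ^ n := by
  unfold Sx
  rw [List.toFinset_card_of_nodup (TA.nodup_strs n), TA.length_strs]

theorem sum_Sx_add {M : Type*} [AddCommMonoid M] (m n : ℕ) (g : List Bool → M) :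
    ∑ σ ∈ Sx (m + n), g σ = ∑ α ∈ Sx m, ∑ b ∈ Sx n, g (α ++ b) := by
  rw [← Finset.sum_product']
  symm
  refine Finset.sum_bij (fun p _ => p.1 ++ p.2) ?_ ?_ ?_ ?_
  · rintro ⟨α, b⟩ h
    rw [Finset.mem_product, mem_Sx, mem_Sx] at h
    rw [mem_Sx, List.length_append, h.1, h.2]
  · rintro ⟨α, b⟩ h ⟨α', b'⟩ h' he
    rw [Finset.mem_product, mem_Sx, mem_Sx] at h h'
    simp only at he h h'
    obtain ⟨h1, h2⟩ := List.append_inj he (h.1.trans h'.1.symm)
    rw [h1, h2]
  · intro σ hσ
    rw [mem_Sx] at hσ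
    refine ⟨(σ.take m, σ.drop m), ?_, List.take_append_drop m σ⟩
    rw [Finset.mem_product, mem_Sx, mem_Sx]
    constructor
    · simp only [List.length_take]
      omega
    · simp only [List.length_drop]
      omega
  · rintro ⟨α, b⟩ _
    rfl

/-- all the bits that count are ones -/
def goodb (l : ℕ) (y : ℕ → ℕ) (n : ℕ) (b : List Bool) : Prop :=
  ∀ i < n, ∀ s < 2 * y i, b.getD (i * l + s) false = true

open Classical in
theorem count_ones (m l : ℕ) (h : m ≤ l) :
    ∑ b ∈ Sx l, (if (∀ s < m, b.getD s false = true) then (1 : ℝ) else 0) = 2 ^ l / 2 ^ m := by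
  obtain ⟨r, rfl⟩ := Nat.exists_eq_add_of_le h
  rw [sum_Sx_add]
  have h1 : ∀ α ∈ Sx m, ∑ b ∈ Sx r, (if (∀ s < m, (α ++ b).getD s false = true) then (1 : ℝ)
      else 0) = if α = List.replicate m true then (2 : ℝ) ^ r else 0 := by
    intro α hα
    rw [mem_Sx] at hα
    have h2 : ∀ b : List Bool, (∀ s < m, (α ++ b).getD s false = true) ↔
        α = List.replicate m true := by
      intro b
      constructor
      · intro h3
        rw [List.eq_replicate_iff]
        refine ⟨hα, fun x hx => ?_⟩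
        obtain ⟨s, hs, rfl⟩ := List.mem_iff_getElem.1 hx
        have h4 := h3 s (by omega)
        rw [List.getD_append _ _ _ _ hs, List.getD_eq_getElem _ _ hs] at h4
        exact h4
      · intro h3 s hs
        rw [List.getD_append _ _ _ _ (by omega), h3, List.getD_eq_getElem _ _ (by simpa using hs)]
        simp
    simp only [h2]
    by_cases h3 : α = List.replicate m true
    · simp only [if_pos h3]
      rw [Finset.sum_const, card_Sx]
      simp
    · simp only [if_neg h3]
      simp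
  rw [Finset.sum_congr rfl h1, Finset.sum_ite_eq' (Sx m) (List.replicate m true)]
  rw [if_pos (mem_Sx.2 (by simp)), pow_add]
  field_simp

open Classical in
theorem count_goodb (l : ℕ) (y : ℕ → ℕ) (hy : ∀ i, 2 * y i ≤ l) (n : ℕ) :
    ∑ b ∈ Sx (n * l), (if goodb l y n b then (1 : ℝ) else 0) =
      2 ^ (n * l) / 4 ^ (∑ i ∈ Finset.range n, y i) := by
  induction n with
  | zero =>
    have : ∀ b, goodb l y 0 b := fun b i hi => absurd hi (by omega)
    simp only [if_pos (this _)]
    rw [Finset.sum_const, card_Sx]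
    simp
  | succ n ih =>
    rw [Nat.succ_mul, sum_Sx_add]
    have h1 : ∀ b1 ∈ Sx (n * l), ∀ b2 : List Bool, goodb l y (n + 1) (b1 ++ b2) ↔
        goodb l y n b1 ∧ ∀ s < 2 * y n, b2.getD s false = true := by
      intro b1 hb1 b2
      rw [mem_Sx] at hb1
      constructor
      · intro h
        constructor
        · intro i hi s hs
          have h2 := h i (by omega) s hs
          rwa [List.getD_append] at h2
          have h3 := hy i
          have h4 : (i + 1) * l ≤ n * l := Nat.mul_le_mul_right _ (by omega)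
          rw [Nat.succ_mul] at h4
          omega
        · intro s hs
          have h2 := h n (by omega) s hs
          rw [List.getD_append_right _ _ _ _ (by omega)] at h2
          rwa [hb1, Nat.add_sub_cancel_left] at h2
      · rintro ⟨h2, h3⟩ i hi s hs
        rcases Nat.lt_succ_iff_lt_or_eq.1 hi with h4 | rfl
        · rw [List.getD_append]
          · exact h2 i h4 s hs
          · have h5 := hy i
            have h6 : (i + 1) * l ≤ n * l := Nat.mul_le_mul_right _ (by omega)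
            rw [Nat.succ_mul] at h6
            omega
        · rw [List.getD_append_right _ _ _ _ (by omega), hb1, Nat.add_sub_cancel_left]
          exact h3 s hs
    have h2 : ∀ b1 ∈ Sx (n * l), ∑ b2 ∈ Sx l, (if goodb l y (n + 1) (b1 ++ b2) then (1 : ℝ)
        else 0) = (if goodb l y n b1 then (1 : ℝ) else 0) * (2 ^ l / 2 ^ (2 * y n)) := by
      intro b1 hb1
      rw [← count_ones (2 * y n) l (hy n), Finset.mul_sum]
      refine Finset.sum_congr rfl fun b2 _ => ?_
      simp only [h1 b1 hb1 b2]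
      by_cases h3 : goodb l y n b1 <;> by_cases h4 : ∀ s < 2 * y n, b2.getD s false = true <;>
        simp [h3, h4]
    rw [Finset.sum_congr rfl h2, ← Finset.sum_mul, ih, Finset.sum_range_succ, pow_add, pow_add,
      pow_mul (2 : ℝ) 2 (y n)]
    norm_num
    field_simp

theorem goodb_max (l : ℕ) (y z : ℕ → ℕ) (n : ℕ) (b : List Bool) :
    goodb l (fun i => max (y i) (z i)) n b ↔ goodb l y n b ∧ goodb l z n b := by
  constructor
  · intro h
    constructor
    · intro i hi s hs
      refine h i hi s ?_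
      show s < 2 * max (y i) (z i)
      have := le_max_left (y i) (z i)
      omega
    · intro i hi s hs
      refine h i hi s ?_
      show s < 2 * max (y i) (z i)
      have := le_max_right (y i) (z i)
      omega
  · rintro ⟨h1, h2⟩ i hi s hs
    simp only at hs
    rcases le_total (y i) (z i) with h3 | h3
    · rw [max_eq_right h3] at hs
      exact h2 i hi s hs
    · rw [max_eq_left h3] at hs
      exact h1 i hi s hs

section cheb

variable {ι : Type*} [DecidableEq ι]

open Classical in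
/-- the weighted number of the hosts that survive -/
noncomputable def Tw (H : Finset ι) (x : ι → ℕ → ℕ) (n a : ℕ) (b : List Bool) : ℝ :=
  ∑ β ∈ H, 4 ^ (∑ i ∈ Finset.range n, x β i) * (if goodb (2 * a) (x β) n b then (1 : ℝ) else 0)

theorem le_of_sum {n a : ℕ} {x : ℕ → ℕ} (hx : ∑ i ∈ Finset.range n, x i ≤ a) {i : ℕ}
    (hi : i < n) : x i ≤ a :=
  (Finset.single_le_sum (f := x) (fun _ _ => Nat.zero_le _) (Finset.mem_range.2 hi)).trans hx

open Classical in
theorem count_goodb' (a : ℕ) (y : ℕ → ℕ) (n : ℕ) (hy : ∀ i < n, y i ≤ a) :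
    ∑ b ∈ Sx (n * (2 * a)), (if goodb (2 * a) y n b then (1 : ℝ) else 0) =
      2 ^ (n * (2 * a)) / 4 ^ (∑ i ∈ Finset.range n, y i) := by
  set z : ℕ → ℕ := fun i => if i < n then y i else 0 with hz
  have h1 : ∀ i, 2 * z i ≤ 2 * a := by
    intro i
    by_cases hi : i < n
    · simp only [hz, if_pos hi]
      have := hy i hi
      omega
    · simp only [hz, if_neg hi]
      omega
  have h2 : ∀ b, goodb (2 * a) y n b ↔ goodb (2 * a) z n b := by
    intro b
    unfold goodb
    refine forall_congr' fun i => forall_congr' fun hi => ?_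
    simp only [hz, if_pos hi]
  have h3 : ∑ i ∈ Finset.range n, y i = ∑ i ∈ Finset.range n, z i :=
    Finset.sum_congr rfl fun i hi => by simp only [hz, if_pos (Finset.mem_range.1 hi)]
  simp only [h2, h3]
  exact count_goodb (2 * a) z h1 n

theorem sum_Tw (H : Finset ι) (x : ι → ℕ → ℕ) (n a : ℕ)
    (hx : ∀ β ∈ H, ∑ i ∈ Finset.range n, x β i ≤ a) :
    ∑ b ∈ Sx (n * (2 * a)), Tw H x n a b = 2 ^ (n * (2 * a)) * H.card := by
  classical
  unfold Tw
  rw [Finset.sum_comm]
  rw [Finset.sum_congr rfl (g := fun _ => (2 : ℝ) ^ (n * (2 * a)))]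
  · rw [Finset.sum_const, nsmul_eq_mul, mul_comm]
  · intro β hβ
    rw [← Finset.mul_sum, count_goodb' a (x β) n fun i hi => le_of_sum (hx β hβ) hi]
    field_simp

theorem sum_Tw_sq (H : Finset ι) (x : ι → ℕ → ℕ) (n a : ℕ)
    (hx : ∀ β ∈ H, ∑ i ∈ Finset.range n, x β i ≤ a) :
    ∑ b ∈ Sx (n * (2 * a)), Tw H x n a b ^ 2 ≤ 2 ^ (n * (2 * a)) * ((H.card : ℝ) ^ 2 +
      4 ^ a * ∑ i ∈ Finset.range n, ((H.filter fun β => 1 ≤ x β i).card : ℝ) ^ 2) := by
  classical
  have h1 : ∀ b, Tw H x n a b ^ 2 = ∑ β ∈ H, ∑ γ ∈ H,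
      (4 ^ (∑ i ∈ Finset.range n, x β i) * 4 ^ (∑ i ∈ Finset.range n, x γ i)) *
      (if goodb (2 * a) (fun i => max (x β i) (x γ i)) n b then (1 : ℝ) else 0) := by
    intro b
    unfold Tw
    rw [pow_two, Finset.sum_mul_sum]
    refine Finset.sum_congr rfl fun β _ => Finset.sum_congr rfl fun γ _ => ?_
    simp only [goodb_max]
    by_cases h3 : goodb (2 * a) (x β) n b <;> by_cases h4 : goodb (2 * a) (x γ) n b <;>
      simp [h3, h4]
  have h2 : ∑ b ∈ Sx (n * (2 * a)), Tw H x n a b ^ 2 = ∑ β ∈ H, ∑ γ ∈ H,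
      (2 : ℝ) ^ (n * (2 * a)) * 4 ^ (∑ i ∈ Finset.range n, min (x β i) (x γ i)) := by
    rw [Finset.sum_congr rfl fun b _ => h1 b, Finset.sum_comm]
    refine Finset.sum_congr rfl fun β hβ => ?_
    rw [Finset.sum_comm]
    refine Finset.sum_congr rfl fun γ hγ => ?_
    rw [← Finset.mul_sum, count_goodb' a (fun i => max (x β i) (x γ i)) n fun i hi =>
      max_le (le_of_sum (hx β hβ) hi) (le_of_sum (hx γ hγ) hi)]
    have h3 : (∑ i ∈ Finset.range n, x β i) + (∑ i ∈ Finset.range n, x γ i) =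
        (∑ i ∈ Finset.range n, max (x β i) (x γ i)) +
          ∑ i ∈ Finset.range n, min (x β i) (x γ i) := by
      rw [← Finset.sum_add_distrib, ← Finset.sum_add_distrib]
      exact Finset.sum_congr rfl fun i _ => by omega
    rw [← pow_add, h3, pow_add]
    field_simp
  rw [h2]
  have h4 : ∀ β ∈ H, ∀ γ ∈ H, (4 : ℝ) ^ (∑ i ∈ Finset.range n, min (x β i) (x γ i)) ≤
      1 + 4 ^ a * ∑ i ∈ Finset.range n,
        ((if 1 ≤ x β i then (1 : ℝ) else 0) * (if 1 ≤ x γ i then (1 : ℝ) else 0)) := by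
    intro β hβ γ hγ
    by_cases h5 : ∃ i < n, 1 ≤ x β i ∧ 1 ≤ x γ i
    · obtain ⟨i, hi, h6, h7⟩ := h5
      have h8 : (1 : ℝ) ≤ ∑ i ∈ Finset.range n,
          ((if 1 ≤ x β i then (1 : ℝ) else 0) * (if 1 ≤ x γ i then (1 : ℝ) else 0)) := by
        refine le_trans ?_ (Finset.single_le_sum (f := fun i =>
          ((if 1 ≤ x β i then (1 : ℝ) else 0) * (if 1 ≤ x γ i then (1 : ℝ) else 0)))
          (fun i _ => by positivity) (Finset.mem_range.2 hi))
        simp [h6, h7]
      have h9 : (4 : ℝ) ^ (∑ i ∈ Finset.range n, min (x β i) (x γ i)) ≤ 4 ^ a := by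
        refine pow_le_pow_right₀ (by norm_num) ?_
        refine le_trans (Finset.sum_le_sum fun i _ => min_le_left _ _) (hx β hβ)
      have h10 : (4 : ℝ) ^ a * 1 ≤ 4 ^ a * ∑ i ∈ Finset.range n,
          ((if 1 ≤ x β i then (1 : ℝ) else 0) * (if 1 ≤ x γ i then (1 : ℝ) else 0)) :=
        mul_le_mul_of_nonneg_left h8 (by positivity)
      linarith
    · push Not at h5
      have h6 : ∑ i ∈ Finset.range n, min (x β i) (x γ i) = 0 := by
        refine Finset.sum_eq_zero fun i hi => ?_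
        have h7 := h5 i (Finset.mem_range.1 hi)
        by_cases h8 : 1 ≤ x β i
        · have := h7 h8
          omega
        · omega
      rw [h6, pow_zero]
      have : (0 : ℝ) ≤ 4 ^ a * ∑ i ∈ Finset.range n,
          ((if 1 ≤ x β i then (1 : ℝ) else 0) * (if 1 ≤ x γ i then (1 : ℝ) else 0)) := by
        positivity
      linarith
  have h5 : ∑ β ∈ H, ∑ γ ∈ H, (2 : ℝ) ^ (n * (2 * a)) *
      4 ^ (∑ i ∈ Finset.range n, min (x β i) (x γ i)) ≤ ∑ β ∈ H, ∑ γ ∈ H,
      (2 : ℝ) ^ (n * (2 * a)) * (1 + 4 ^ a * ∑ i ∈ Finset.range n,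
        ((if 1 ≤ x β i then (1 : ℝ) else 0) * (if 1 ≤ x γ i then (1 : ℝ) else 0))) :=
    Finset.sum_le_sum fun β hβ => Finset.sum_le_sum fun γ hγ =>
      mul_le_mul_of_nonneg_left (h4 β hβ γ hγ) (by positivity)
  refine h5.trans (le_of_eq ?_)
  simp only [← Finset.mul_sum]
  congr 1
  simp only [Finset.sum_add_distrib, Finset.sum_const, nsmul_eq_mul, mul_one, ← Finset.mul_sum]
  rw [pow_two]
  congr 1
  congr 1
  have h6 : ∀ i, ((H.filter fun β => 1 ≤ x β i).card : ℝ) =
      ∑ β ∈ H, (if 1 ≤ x β i then (1 : ℝ) else 0) := by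
    intro i
    rw [Finset.card_filter]
    push_cast
    rfl
  simp only [h6]
  rw [Finset.sum_congr rfl fun β _ => Finset.sum_comm, Finset.sum_comm]
  refine Finset.sum_congr rfl fun i _ => ?_
  rw [pow_two, Finset.sum_mul_sum]

open Classical in
/-- few blocks `b` leave less than the expected number of hosts -/
theorem cheb (H : Finset ι) (x : ι → ℕ → ℕ) (n a : ℕ)
    (hx : ∀ β ∈ H, ∑ i ∈ Finset.range n, x β i ≤ a) :
    (((Sx (n * (2 * a))).filter fun b => 2 ^ (2 * a + 1) *
      (H.filter fun β => goodb (2 * a) (x β) n b).card < H.card).card : ℝ) * (H.card : ℝ) ^ 2 ≤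
      2 ^ (n * (2 * a)) * 4 ^ (a + 1) *
        ∑ i ∈ Finset.range n, ((H.filter fun β => 1 ≤ x β i).card : ℝ) ^ 2 := by
  set Bad := (Sx (n * (2 * a))).filter fun b => 2 ^ (2 * a + 1) *
      (H.filter fun β => goodb (2 * a) (x β) n b).card < H.card with hBad
  set Qs := ∑ i ∈ Finset.range n, ((H.filter fun β => 1 ≤ x β i).card : ℝ) ^ 2 with hQs
  have h1 : ∀ b ∈ Bad, (H.card : ℝ) ^ 2 / 4 ≤ (Tw H x n a b - H.card) ^ 2 := by
    intro b hb
    rw [hBad, Finset.mem_filter] at hb
    have h2 : Tw H x n a b ≤ 4 ^ a * (H.filter fun β => goodb (2 * a) (x β) n b).card := by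
      unfold Tw
      rw [Finset.card_filter]
      push_cast
      rw [Finset.mul_sum]
      refine Finset.sum_le_sum fun β hβ => ?_
      exact mul_le_mul_of_nonneg_right (pow_le_pow_right₀ (by norm_num) (hx β hβ))
        (by positivity)
    have h3 : (2 : ℝ) ^ (2 * a + 1) * (H.filter fun β => goodb (2 * a) (x β) n b).card <
        H.card := by exact_mod_cast hb.2
    have h4 : (2 : ℝ) ^ (2 * a + 1) = 2 * 4 ^ a := by
      rw [pow_succ, pow_mul]
      norm_num
      ring
    rw [h4] at h3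
    have h5 : Tw H x n a b ≤ H.card / 2 := by linarith
    have h6 : (0 : ℝ) ≤ Tw H x n a b := by
      unfold Tw
      positivity
    have h7 : (0 : ℝ) ≤ (H.card : ℝ) / 2 := by positivity
    have h8 : (H.card : ℝ) / 2 ≤ H.card - Tw H x n a b := by linarith
    calc (H.card : ℝ) ^ 2 / 4 = ((H.card : ℝ) / 2) ^ 2 := by ring
      _ ≤ (H.card - Tw H x n a b) ^ 2 := pow_le_pow_left₀ h7 h8 2
      _ = _ := by ring
  have h2 : ∑ b ∈ Sx (n * (2 * a)), (Tw H x n a b - H.card) ^ 2 ≤
      2 ^ (n * (2 * a)) * (4 ^ a * Qs) := by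
    have h3 := sum_Tw_sq H x n a hx
    have h4 := sum_Tw H x n a hx
    have h5 : ∑ b ∈ Sx (n * (2 * a)), (Tw H x n a b - H.card) ^ 2 =
        ∑ b ∈ Sx (n * (2 * a)), Tw H x n a b ^ 2 -
          2 * H.card * ∑ b ∈ Sx (n * (2 * a)), Tw H x n a b +
          2 ^ (n * (2 * a)) * (H.card : ℝ) ^ 2 := by
      rw [Finset.mul_sum, ← Finset.sum_sub_distrib]
      have h6 : (2 : ℝ) ^ (n * (2 * a)) * (H.card : ℝ) ^ 2 =
          ∑ b ∈ Sx (n * (2 * a)), (H.card : ℝ) ^ 2 := by
        rw [Finset.sum_const, card_Sx, nsmul_eq_mul]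
        push_cast
        ring
      rw [h6, ← Finset.sum_add_distrib]
      exact Finset.sum_congr rfl fun b _ => by ring
    rw [h5, h4]
    nlinarith [h3]
  have h3 : (Bad.card : ℝ) * ((H.card : ℝ) ^ 2 / 4) ≤ 2 ^ (n * (2 * a)) * (4 ^ a * Qs) := by
    refine le_trans ?_ h2
    rw [← nsmul_eq_mul, ← Finset.sum_const]
    refine (Finset.sum_le_sum h1).trans ?_
    refine Finset.sum_le_sum_of_subset_of_nonneg (Finset.filter_subset _ _) fun b _ _ => ?_
    positivity
  have h4 : (4 : ℝ) ^ (a + 1) = 4 * 4 ^ a := by rw [pow_succ]; ring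
  rw [h4]
  nlinarith [h3]

end cheb

end KDV
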