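import Pool.Agent.KDV.Mass

/-!
# Few strings are flagged
-/

namespace KDV

open AC Low4 Encodable Denumerable

theorem cntN_anti {N : ℕ} {P : ℕ → Prop} (h : ∀ k k', P k → k' ≤ k → P k') {k : ℕ}
    (hk : k < N) : P k ↔ k < cntN N P := by
  classical
  rw [cntN_eq]
  constructor
  · intro h1
    have h2 : Finset.range (k + 1) ⊆ (Finset.range N).filter P := by
      intro u hu
      rw [Finset.mem_range] at hu
      rw [Finset.mem_filter, Finset.mem_range]
      exact ⟨by omega, h k u h1 (by omega)⟩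
    have h3 := Finset.card_le_card h2
    rw [Finset.card_range] at h3
    omega
  · intro h1
    by_contra h2
    have h3 : (Finset.range N).filter P ⊆ Finset.range k := by
      intro u hu
      rw [Finset.mem_filter] at hu
      rw [Finset.mem_range]
      by_contra h4
      exact h2 (h u k hu.2 (by omega))
    have h4 := Finset.card_le_card h3
    rw [Finset.card_range] at h4
    omega

theorem cntN_card (N : ℕ) (P : ℕ → Prop) :
    cntN N P = ∑ u ∈ Finset.range N, cntN 1 (fun _ => P u) := by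
  classical
  rw [cntN_eq, Finset.card_filter]
  refine Finset.sum_congr rfl fun u _ => ?_
  rw [cntN_eq]
  by_cases h : P u <;> simp [h]

theorem sum_range_mul_nat (g : ℕ → ℕ → ℕ) (M a : ℕ) :
    ∑ u ∈ Finset.range (M * (a + 1)), g (u / (a + 1)) (u % (a + 1)) =
      ∑ i ∈ Finset.range M, ∑ k ∈ Finset.range (a + 1), g i k := by
  have h := sum_range_mul (fun i k => (g i k : ℝ)) M a
  exact_mod_cast h

/-- the height of a host at a level -/
noncomputable def ht (Q : List Bool × ℕ → ℕ → Bool) (t j : ℕ) (β : List Bool) (i : ℕ) : ℕ :=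
  cntN (pa j + 1) fun k => Mk Q t j i (k + 1) β

theorem lt_ht {Q : List Bool × ℕ → ℕ → Bool} {t j i k : ℕ} {β : List Bool}
    (hk : k < pa j + 1) : Mk Q t j i (k + 1) β ↔ k < ht Q t j β i :=
  cntN_anti (P := fun k => Mk Q t j i (k + 1) β) (fun _ _ h h' => h.anti (by omega)) hk

theorem sum_ht {Q : List Bool × ℕ → ℕ → Bool} {t j n : ℕ} {β : List Bool}
    (hn : n ≤ 2 ^ nw j) : ∑ i ∈ Finset.range n, ht Q t j β i ≤ Xm Q t j β := by
  have h1 : Xm Q t j β = ∑ i ∈ Finset.range (2 ^ nw j), ht Q t j β i := by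
    unfold Xm ht
    rw [cntN_card, sum_range_mul_nat (fun i k => cntN 1 fun _ => Mk Q t j i (k + 1) β)]
    refine Finset.sum_congr rfl fun i _ => ?_
    rw [cntN_card (pa j + 1)]
  rw [h1]
  exact Finset.sum_le_sum_of_subset_of_nonneg (Finset.range_mono hn) fun _ _ _ => Nat.zero_le _

theorem cntP_append (m r : ℕ) (P : List Bool → Prop) :
    cntP (m + r) P = ∑ α ∈ Sx m, cntP r (fun b => P (α ++ b)) := by
  classical
  rw [cntP_eq, Finset.card_filter, sum_Sx_add]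
  refine Finset.sum_congr rfl fun α _ => ?_
  rw [cntP_eq, Finset.card_filter]

theorem ev_append {α b : List Bool} (n : ℕ) : ev (α ++ b) (α.length + n) = b.getD n false := by
  unfold ev
  rw [List.getD_append_right _ _ _ _ (by omega), Nat.add_sub_cancel_left]

theorem ev_append_left {α b : List Bool} {n : ℕ} (h : n < α.length) : ev (α ++ b) n = ev α n := by
  unfold ev
  rw [List.getD_append _ _ _ _ h]

theorem Cn_of_goodb {Q : List Bool × ℕ → ℕ → Bool} {t j n : ℕ} {α β b : List Bool}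
    (hα : α.length = pS j) (h : goodb (2 * pa j) (ht Q t j β) n b) {i : ℕ} (hi : i < n) :
    Cn Q t j i (ev (α ++ b)) β := by
  intro k hk h1 s hs
  cases k with
  | zero => omega
  | succ k =>
    have h2 := (lt_ht (by omega)).1 h1
    rw [← hα, add_assoc, ev_append]
    exact h i hi s (by omega)

section flag

variable {U : List Bool →. ℕ} {Q : List Bool × ℕ → ℕ → Bool}

theorem sum_sq (hU : IsOptimal ∅ U) (hQ : ∀ β l, KRD.kc U β ≤ l ↔ ∃ k, Q (β, l) k = true)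
    (j : ℕ) : ∑ i ∈ Finset.range (2 ^ nw j), ((rs Q j i : ℝ) + 1) ^ 2 ≤
      ((eh j : ℝ) + 1) * (((j : ℝ) + 4) * 2 ^ nw j) := by
  calc ∑ i ∈ Finset.range (2 ^ nw j), ((rs Q j i : ℝ) + 1) ^ 2
      ≤ ∑ i ∈ Finset.range (2 ^ nw j), ((eh j : ℝ) + 1) * ((rs Q j i : ℝ) + 1) := by
        refine Finset.sum_le_sum fun i _ => ?_
        have h1 : (rs Q j i : ℝ) ≤ eh j := by exact_mod_cast rs_le (Q := Q) j i
        rw [pow_two]
        exact mul_le_mul_of_nonneg_right (by linarith) (by positivity)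
    _ = ((eh j : ℝ) + 1) * ∑ i ∈ Finset.range (2 ^ nw j), ((rs Q j i : ℝ) + 1) := by
        rw [Finset.mul_sum]
    _ ≤ _ := mul_le_mul_of_nonneg_left (sum_rs hU hQ j) (by positivity)

theorem bad_bound (hU : IsOptimal ∅ U) (hQ : ∀ β l, KRD.kc U β ≤ l ↔ ∃ k, Q (β, l) k = true)
    {j i m t : ℕ} {α : List Bool} (hα : α.length = pS j) (hi : i < 2 ^ nw j) (ht' : j < t)
    (hG : Gu Q t j m (ev α)) :
    cntP ((i + 1) * (2 * pa j)) (fun b => Sm Q t j m i (ev (α ++ b))) *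
      (2 ^ (pa j + 1) * 2 ^ pe j) ≤ 2 ^ ((i + 1) * (2 * pa j)) := by
  classical
  set H : Finset (List Bool) := (Sx (pS t)).filter (Hc Q t j m (ev α)) with hH
  have hHc : H.card = cntP (pS t) (Hc Q t j m (ev α)) := by rw [cntP_eq]
  have hX : ∀ β ∈ H, ∑ i' ∈ Finset.range (i + 1), ht Q t j β i' ≤ pa j := by
    intro β hβ
    rw [hH, Finset.mem_filter] at hβ
    exact (sum_ht hi).trans (hβ.2.1.2 j ht')
  have h1 := cheb H (ht Q t j) (i + 1) (pa j) hX
  set N : ℝ := (cntP ((i + 1) * (2 * pa j)) (fun b => Sm Q t j m i (ev (α ++ b))) : ℝ) with hN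
  have h2 : N ≤ (((Sx ((i + 1) * (2 * pa j))).filter fun b => 2 ^ (2 * pa j + 1) *
      (H.filter fun β => goodb (2 * pa j) (ht Q t j β) (i + 1) b).card < H.card).card : ℝ) := by
    rw [hN]
    refine Nat.cast_le.2 (cntP_le_card _ fun b hb h => ?_)
    rw [Finset.mem_filter, mem_Sx]
    refine ⟨hb, ?_⟩
    have h3 : (H.filter fun β => goodb (2 * pa j) (ht Q t j β) (i + 1) b).card ≤
        cntP (pS t) (Hn Q t j m i (ev (α ++ b))) := by
      rw [cntP_eq]
      refine Finset.card_le_card fun β hβ => ?_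
      rw [Finset.mem_filter, hH, Finset.mem_filter] at hβ
      rw [Finset.mem_filter]
      refine ⟨hβ.1.1, ?_, fun i' hi' => Cn_of_goodb hα hβ.2 hi'⟩
      refine (Hc_congr (N := pS j) (fun n hn => ?_) le_rfl).1 hβ.1.2
      rw [ev_append_left (by rw [hα]; exact hn)]
    unfold Sm at h
    rw [pm_succ] at h
    have h4 : (2 ^ (2 * pa j + 1) *
        (H.filter fun β => goodb (2 * pa j) (ht Q t j β) (i + 1) b).card) * 2 ^ pm j <
        H.card * 2 ^ pm j := by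
      calc (2 ^ (2 * pa j + 1) *
          (H.filter fun β => goodb (2 * pa j) (ht Q t j β) (i + 1) b).card) * 2 ^ pm j
          ≤ (2 ^ (2 * pa j + 1) * cntP (pS t) (Hn Q t j m i (ev (α ++ b)))) * 2 ^ pm j :=
            Nat.mul_le_mul_right _ (Nat.mul_le_mul_left _ h3)
        _ = cntP (pS t) (Hn Q t j m i (ev (α ++ b))) * 2 ^ (pm j + 2 * pa j + 1) := by
            rw [add_assoc, pow_add]
            ring
        _ < 2 ^ pS t := h
        _ ≤ H.card * 2 ^ pm j := by rw [hHc]; exact hG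
    exact Nat.lt_of_mul_lt_mul_right h4
  set D : ℝ := 2 ^ pS t / 2 ^ (4 + nu j) with hD
  have hD0 : 0 < D := by positivity
  have h3 : ∑ i' ∈ Finset.range (i + 1), ((H.filter fun β => 1 ≤ ht Q t j β i').card : ℝ) ^ 2 ≤
      D ^ 2 * ((eh j + 1) * ((j + 4) * 2 ^ nw j)) := by
    have h4 : ∀ i' ∈ Finset.range (i + 1),
        ((H.filter fun β => 1 ≤ ht Q t j β i').card : ℝ) ^ 2 ≤ D ^ 2 * ((rs Q j i' : ℝ) + 1) ^ 2 := by
      intro i' hi'
      rw [Finset.mem_range] at hi'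
      rw [← mul_pow]
      refine pow_le_pow_left₀ (by positivity) ?_ 2
      have h5 : (H.filter fun β => 1 ≤ ht Q t j β i').card ≤ cntP (pS t) (Mk Q t j i' 1) := by
        rw [cntP_eq]
        refine Finset.card_le_card fun β hβ => ?_
        rw [Finset.mem_filter, hH, Finset.mem_filter] at hβ
        rw [Finset.mem_filter]
        exact ⟨hβ.1.1, (lt_ht (k := 0) (by omega)).2 hβ.2⟩
      have h6 := Mk_bound' hU hQ (s := t) (i := i') 1 (by omega) ht'
      have h7 : (2 : ℝ) ^ pS t / 2 ^ (3 + nu j) * (1 / 2) ^ 1 = D := by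
        rw [hD, show 4 + nu j = (3 + nu j) + 1 by omega, pow_succ (2 : ℝ) (3 + nu j), pow_one]
        field_simp
      rw [h7] at h6
      calc ((H.filter fun β => 1 ≤ ht Q t j β i').card : ℝ) ≤ cntP (pS t) (Mk Q t j i' 1) := by
            exact_mod_cast h5
        _ ≤ (rs Q j i' + 1) * D := h6
        _ = _ := mul_comm _ _
    refine (Finset.sum_le_sum h4).trans ?_
    rw [← Finset.mul_sum]
    refine mul_le_mul_of_nonneg_left ?_ (by positivity)
    refine le_trans ?_ (sum_sq hU hQ j)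
    exact Finset.sum_le_sum_of_subset_of_nonneg (Finset.range_mono hi) fun _ _ _ => by positivity
  have h4 : (2 : ℝ) ^ pS t ≤ H.card * 2 ^ pm j := by
    rw [hHc]
    exact_mod_cast hG
  have hN0 : 0 ≤ N := Nat.cast_nonneg _
  set E : ℝ := 2 ^ ((i + 1) * (2 * pa j)) with hE
  have h5 : N * (H.card : ℝ) ^ 2 ≤ E * 4 ^ (pa j + 1) *
      (D ^ 2 * ((eh j + 1) * ((j + 4) * 2 ^ nw j))) := by
    refine (mul_le_mul_of_nonneg_right h2 (by positivity)).trans (h1.trans ?_)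
    exact mul_le_mul_of_nonneg_left h3 (by positivity)
  have h6 : ((2 : ℝ) ^ pS t) ^ 2 ≤ (H.card : ℝ) ^ 2 * (2 ^ pm j) ^ 2 := by
    rw [← mul_pow]
    exact pow_le_pow_left₀ (by positivity) h4 2
  have h7 : N * ((2 : ℝ) ^ pS t) ^ 2 ≤ (E * 4 ^ (pa j + 1) *
      (D ^ 2 * ((eh j + 1) * ((j + 4) * 2 ^ nw j)))) * (2 ^ pm j) ^ 2 := by
    calc N * ((2 : ℝ) ^ pS t) ^ 2 ≤ N * ((H.card : ℝ) ^ 2 * (2 ^ pm j) ^ 2) :=
          mul_le_mul_of_nonneg_left h6 hN0
      _ = (N * (H.card : ℝ) ^ 2) * (2 ^ pm j) ^ 2 := by ring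
      _ ≤ _ := mul_le_mul_of_nonneg_right h5 (by positivity)
  have h8 : N * 2 ^ (nu j + 8) ≤ E * (4 ^ (pa j + 1) * (2 ^ (2 * pm j) *
      ((eh j + 1) * (j + 4) * 2 ^ gm j))) := by
    have h9 : (0 : ℝ) < ((2 : ℝ) ^ pS t) ^ 2 := by positivity
    have h10 : (E * 4 ^ (pa j + 1) * (D ^ 2 * ((eh j + 1) * ((j + 4) * 2 ^ nw j)))) *
        (2 ^ pm j) ^ 2 * 2 ^ (nu j + 8) =
        (E * (4 ^ (pa j + 1) * (2 ^ (2 * pm j) * ((eh j + 1) * (j + 4) * 2 ^ gm j)))) *
          ((2 : ℝ) ^ pS t) ^ 2 := by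
      rw [hD, pow_mul' (2 : ℝ) 2 (pm j), div_pow, ← pow_mul (2 : ℝ) (4 + nu j) 2]
      have e1 : (2 : ℝ) ^ ((4 + nu j) * 2) = 2 ^ (nu j + 8) * 2 ^ nu j := by
        rw [← pow_add]
        congr 1
        omega
      rw [e1, nw_eq, pow_add (2 : ℝ) (nu j) (gm j)]
      field_simp
    have h11 : (N * 2 ^ (nu j + 8)) * ((2 : ℝ) ^ pS t) ^ 2 ≤
        (E * (4 ^ (pa j + 1) * (2 ^ (2 * pm j) * ((eh j + 1) * (j + 4) * 2 ^ gm j)))) *
          ((2 : ℝ) ^ pS t) ^ 2 := by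
      rw [← h10]
      calc (N * 2 ^ (nu j + 8)) * ((2 : ℝ) ^ pS t) ^ 2 =
          (N * ((2 : ℝ) ^ pS t) ^ 2) * 2 ^ (nu j + 8) := by ring
        _ ≤ _ := mul_le_mul_of_nonneg_right h7 (by positivity)
    exact le_of_mul_le_mul_right h11 h9
  have h9 : (2 : ℝ) ^ (pa j + 1) * (2 ^ pe j * (4 ^ (pa j + 1) * (2 ^ (2 * pm j) *
      ((eh j + 1) * (j + 4) * 2 ^ gm j)))) ≤ 2 ^ (nu j + 8) := by exact_mod_cast flag_arith j
  have h10 : N * (2 ^ (pa j + 1) * 2 ^ pe j) ≤ E := by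
    have h11 : (0 : ℝ) < 2 ^ (nu j + 8) := by positivity
    have h12 : (N * (2 ^ (pa j + 1) * 2 ^ pe j)) * 2 ^ (nu j + 8) ≤ E * 2 ^ (nu j + 8) := by
      calc (N * (2 ^ (pa j + 1) * 2 ^ pe j)) * 2 ^ (nu j + 8) =
          (N * 2 ^ (nu j + 8)) * (2 ^ (pa j + 1) * 2 ^ pe j) := by ring
        _ ≤ (E * (4 ^ (pa j + 1) * (2 ^ (2 * pm j) * ((eh j + 1) * (j + 4) * 2 ^ gm j)))) *
            (2 ^ (pa j + 1) * 2 ^ pe j) := mul_le_mul_of_nonneg_right h8 (by positivity)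
        _ = E * (2 ^ (pa j + 1) * (2 ^ pe j * (4 ^ (pa j + 1) * (2 ^ (2 * pm j) *
            ((eh j + 1) * (j + 4) * 2 ^ gm j))))) := by ring
        _ ≤ _ := mul_le_mul_of_nonneg_left h9 (by positivity)
    exact le_of_mul_le_mul_right h12 h11
  rw [hN, hE] at h10
  exact_mod_cast h10

theorem flag_bound1 (hU : IsOptimal ∅ U) (hQ : ∀ β l, KRD.kc U β ≤ l ↔ ∃ k, Q (β, l) k = true)
    {j i m : ℕ} {α : List Bool} (hα : α.length = pS j) (hi : i < 2 ^ nw j) :
    cntP ((i + 1) * (2 * pa j)) (fun b => ∃ t, j < t ∧ Gu Q t j m (ev (α ++ b)) ∧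
      Sm Q t j m i (ev (α ++ b))) * (2 ^ (pa j + 1) * 2 ^ pe j) ≤
      2 ^ ((i + 1) * (2 * pa j)) := by
  classical
  have hcg : ∀ t b, Gu Q t j m (ev (α ++ b)) ↔ Gu Q t j m (ev α) := fun t b =>
    Gu_congr (N := pS j) (fun n hn => ev_append_left (by rw [hα]; exact hn)) le_rfl
  set B : Finset (List Bool) := (Sx ((i + 1) * (2 * pa j))).filter fun b =>
    ∃ t, j < t ∧ Gu Q t j m (ev (α ++ b)) ∧ Sm Q t j m i (ev (α ++ b)) with hB
  have hBc : cntP ((i + 1) * (2 * pa j)) (fun b => ∃ t, j < t ∧ Gu Q t j m (ev (α ++ b)) ∧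
      Sm Q t j m i (ev (α ++ b))) ≤ B.card := by
    refine cntP_le_card _ fun b hb h => ?_
    rw [hB, Finset.mem_filter, mem_Sx]
    exact ⟨hb, h⟩
  rcases B.eq_empty_or_nonempty with h1 | h1
  · rw [h1] at hBc
    have h2 : cntP ((i + 1) * (2 * pa j)) (fun b => ∃ t, j < t ∧ Gu Q t j m (ev (α ++ b)) ∧
      Sm Q t j m i (ev (α ++ b))) = 0 := by simpa using hBc
    rw [h2, zero_mul]
    exact Nat.zero_le _
  · have h2 : ∀ b, ∃ t, b ∈ B → j < t ∧ Gu Q t j m (ev (α ++ b)) ∧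
        Sm Q t j m i (ev (α ++ b)) := by
      intro b
      by_cases hb : b ∈ B
      · have h3 := hb
        rw [hB, Finset.mem_filter] at h3
        obtain ⟨t, ht⟩ := h3.2
        exact ⟨t, fun _ => ht⟩
      · exact ⟨0, fun h => absurd h hb⟩
    choose T hT using h2
    obtain ⟨b0, hb0, hmax⟩ := Finset.exists_max_image B T h1
    obtain ⟨h3, h4, h5⟩ := hT b0 hb0
    refine le_trans (Nat.mul_le_mul_right _ ?_)
      (bad_bound hU hQ (t := T b0) (m := m) hα hi h3 ((hcg _ _).1 h4))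
    refine cntP_mono fun b hb h => ?_
    have hbB : b ∈ B := by
      rw [hB, Finset.mem_filter, mem_Sx]
      exact ⟨hb, h⟩
    obtain ⟨h6, h7, h8⟩ := hT b hbB
    exact h8.mono (hmax b hbB) h6 hi

/-- few strings are flagged -/
theorem flag_bound (hU : IsOptimal ∅ U) (hQ : ∀ β l, KRD.kc U β ≤ l ↔ ∃ k, Q (β, l) k = true)
    {j i : ℕ} (hi : i < 2 ^ nw j) :
    cntP (lv j i) (fun α => Fl Q j i (ev α)) * 2 ^ (pa j + 1) ≤ 2 ^ lv j i := by
  unfold lv
  rw [cntP_append, Finset.sum_mul]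
  have h1 : ∀ α ∈ Sx (pS j), cntP ((i + 1) * (2 * pa j)) (fun b => Fl Q j i (ev (α ++ b))) *
      2 ^ (pa j + 1) ≤ 2 ^ ((i + 1) * (2 * pa j)) := by
    intro α hα
    rw [mem_Sx] at hα
    have h2 : cntP ((i + 1) * (2 * pa j)) (fun b => Fl Q j i (ev (α ++ b))) ≤
        ∑ m ∈ Finset.range (2 ^ pe j), cntP ((i + 1) * (2 * pa j)) (fun b => ∃ t, j < t ∧
          Gu Q t j m (ev (α ++ b)) ∧ Sm Q t j m i (ev (α ++ b))) := by
      refine le_trans (cntP_mono fun b _ h => ?_) (cntP_exists _ (2 ^ pe j) fun m b => ∃ t,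
        j < t ∧ Gu Q t j m (ev (α ++ b)) ∧ Sm Q t j m i (ev (α ++ b)))
      obtain ⟨t, ht, m, hm, h3⟩ := h
      exact ⟨m, hm, t, ht, h3⟩
    have h3 : (cntP ((i + 1) * (2 * pa j)) (fun b => Fl Q j i (ev (α ++ b))) *
        2 ^ (pa j + 1)) * 2 ^ pe j ≤ 2 ^ ((i + 1) * (2 * pa j)) * 2 ^ pe j := by
      calc (cntP ((i + 1) * (2 * pa j)) (fun b => Fl Q j i (ev (α ++ b))) *
          2 ^ (pa j + 1)) * 2 ^ pe j
          ≤ (∑ m ∈ Finset.range (2 ^ pe j), cntP ((i + 1) * (2 * pa j)) (fun b => ∃ t, j < t ∧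
            Gu Q t j m (ev (α ++ b)) ∧ Sm Q t j m i (ev (α ++ b)))) *
            (2 ^ (pa j + 1) * 2 ^ pe j) := by
            rw [mul_assoc]
            exact Nat.mul_le_mul_right _ h2
        _ = ∑ m ∈ Finset.range (2 ^ pe j), cntP ((i + 1) * (2 * pa j)) (fun b => ∃ t, j < t ∧
            Gu Q t j m (ev (α ++ b)) ∧ Sm Q t j m i (ev (α ++ b))) *
            (2 ^ (pa j + 1) * 2 ^ pe j) := Finset.sum_mul _ _ _
        _ ≤ ∑ m ∈ Finset.range (2 ^ pe j), 2 ^ ((i + 1) * (2 * pa j)) :=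
            Finset.sum_le_sum fun m _ => flag_bound1 hU hQ hα hi
        _ = _ := by rw [Finset.sum_const, Finset.card_range, smul_eq_mul, mul_comm]
    exact Nat.le_of_mul_le_mul_right h3 (by positivity)
  refine (Finset.sum_le_sum h1).trans (le_of_eq ?_)
  rw [Finset.sum_const, card_Sx, smul_eq_mul, ← pow_add]

end flag

end KDV
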