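import Pool.Agent.KDV.Wt

/-!
# The construction of the host
-/

namespace KDV

open AC Low4 Encodable Denumerable

section main

variable {Q : List Bool × ℕ → ℕ → Bool}

open Classical in
/-- the first level of the batch at which there are few hosts -/
noncomputable def xj (Q : List Bool × ℕ → ℕ → Bool) (a : ℕ → Bool) (j m : ℕ) : ℕ :=
  Nat.findGreatest (fun x => ∀ i < x, ∀ t, j < t → ¬ Sm Q t j m i a) (2 ^ nw j)

theorem xj_le (a : ℕ → Bool) (j m : ℕ) : xj Q a j m ≤ 2 ^ nw j := by
  classical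
  exact Nat.findGreatest_le _

theorem xj_lt {a : ℕ → Bool} {j m i t : ℕ} (hi : i < xj Q a j m) (ht : j < t) :
    ¬ Sm Q t j m i a := by
  classical
  have h : ∀ i < xj Q a j m, ∀ t, j < t → ¬ Sm Q t j m i a :=
    Nat.findGreatest_spec (P := fun x => ∀ i < x, ∀ t, j < t → ¬ Sm Q t j m i a)
      (Nat.zero_le (2 ^ nw j)) (fun i hi => absurd hi (by omega))
  exact h i hi t ht

theorem xj_sm {a : ℕ → Bool} {j m i : ℕ} (hi : xj Q a j m ≤ i) (hi2 : i < 2 ^ nw j) :
    ∃ t, j < t ∧ Sm Q t j m i a := by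
  classical
  by_contra hcon
  push Not at hcon
  have h : ¬ ∀ i' < i + 1, ∀ t, j < t → ¬ Sm Q t j m i' a :=
    Nat.findGreatest_is_greatest (P := fun x => ∀ i < x, ∀ t, j < t → ¬ Sm Q t j m i a)
      (n := 2 ^ nw j) (k := i + 1) (Nat.lt_succ_of_le hi) hi2
  apply h
  intro i' hi' t ht h1
  exact hcon t ht (h1.up (by omega))

/-- the codes of the batches -/
noncomputable def mj (Q : List Bool × ℕ → ℕ → Bool) (a : ℕ → Bool) : ℕ → ℕ
  | 0 => 0
  | j + 1 => mj Q a j + 2 ^ pe j * xj Q a j (mj Q a j)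

theorem mj_succ (a : ℕ → Bool) (j : ℕ) :
    mj Q a (j + 1) = mj Q a j + 2 ^ pe j * xj Q a j (mj Q a j) := rfl

theorem xj_lt' (a : ℕ → Bool) (j m : ℕ) : xj Q a j m < 2 ^ (nw j + 1) := by
  have h1 := xj_le (Q := Q) a j m
  have h2 : (2 : ℕ) ^ nw j < 2 ^ (nw j + 1) := Nat.pow_lt_pow_right (by norm_num) (by omega)
  omega

theorem mj_lt (a : ℕ → Bool) (j : ℕ) : mj Q a j < 2 ^ pe j := by
  induction j with
  | zero => exact Nat.pos_of_ne_zero (by positivity)
  | succ j ih =>
    rw [mj_succ, pe_succ, add_assoc (pe j), pow_add (2 : ℕ) (pe j)]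
    have h1 := xj_lt' (Q := Q) a j (mj Q a j)
    calc mj Q a j + 2 ^ pe j * xj Q a j (mj Q a j)
        < 2 ^ pe j + 2 ^ pe j * xj Q a j (mj Q a j) := by omega
      _ = 2 ^ pe j * (xj Q a j (mj Q a j) + 1) := by ring
      _ ≤ 2 ^ pe j * 2 ^ (nw j + 1) := Nat.mul_le_mul_left _ h1

theorem dg_mj {a : ℕ → Bool} {j : ℕ} : ∀ j' < j, dg (mj Q a j) j' = xj Q a j' (mj Q a j') := by
  induction j with
  | zero => exact fun j' h => absurd h (by omega)
  | succ j ih =>
    intro j' hj'
    rcases Nat.lt_succ_iff_lt_or_eq.1 hj' with h | rfl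
    · rw [← ih j' h, mj_succ]
      unfold dg
      have h1 : pe j' + (nw j' + 1) ≤ pe j := by
        have := pe_mono (show j' + 1 ≤ j from h)
        rw [pe_succ] at this
        omega
      obtain ⟨r, hr⟩ := Nat.exists_eq_add_of_le h1
      have h2 : 2 ^ pe j * xj Q a j (mj Q a j) =
          2 ^ pe j' * (2 ^ (nw j' + 1) * (2 ^ r * xj Q a j (mj Q a j))) := by
        rw [hr, pow_add, pow_add]
        ring
      rw [h2, Nat.add_mul_div_left _ _ (by positivity), Nat.add_mul_mod_self_left]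
    · rw [mj_succ]
      unfold dg
      rw [Nat.add_mul_div_left _ _ (by positivity), Nat.div_eq_of_lt (mj_lt a j'), zero_add,
        Nat.mod_eq_of_lt (xj_lt' a j' _)]

theorem Hc_succ_of {a : ℕ → Bool} {t j : ℕ} {β : List Bool} (h : Hc Q t j (mj Q a j) a β)
    (h2 : ∀ i < xj Q a j (mj Q a j), Cn Q t j i a β) : Hc Q t (j + 1) (mj Q a (j + 1)) a β := by
  refine ⟨h.1, fun j' hj' i hi => ?_⟩
  rw [dg_mj j' hj'] at hi
  rcases Nat.lt_succ_iff_lt_or_eq.1 hj' with h3 | rfl
  · refine h.2 j' h3 i ?_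
    rw [dg_mj j' h3]
    exact hi
  · exact h2 i (lt_of_lt_of_le hi (min_le_left _ _))

variable {U : List Bool →. ℕ}

theorem guard (hU : IsOptimal ∅ U) (hQ : ∀ β l, KRD.kc U β ≤ l ↔ ∃ k, Q (β, l) k = true)
    (a : ℕ → Bool) (j : ℕ) : ∀ t, j ≤ t → Gu Q t j (mj Q a j) a := by
  induction j with
  | zero =>
    intro t _
    unfold Gu
    rw [pm_zero, pow_one]
    refine (Gd_bound hU hQ t).trans (Nat.mul_le_mul_right _ (cntP_mono fun β _ h => ?_))
    exact ⟨h, fun j' hj' => absurd hj' (by omega)⟩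
  | succ j ih =>
    intro t ht
    rcases Nat.eq_zero_or_pos (xj Q a j (mj Q a j)) with h0 | h0
    · have h1 := ih t (by omega)
      unfold Gu at h1 ⊢
      refine h1.trans (Nat.mul_le_mul (cntP_mono fun β _ h => ?_)
        (Nat.pow_le_pow_right (by norm_num) (by rw [pm_succ]; omega)))
      exact Hc_succ_of h fun i hi => absurd hi (by omega)
    · have h1 := xj_lt (Q := Q) (a := a) (j := j) (m := mj Q a j)
        (i := xj Q a j (mj Q a j) - 1) (t := t) (by omega) (by omega)
      unfold Sm at h1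
      unfold Gu
      rw [not_lt] at h1
      refine h1.trans (Nat.mul_le_mul_right _ (cntP_mono fun β _ h => ?_))
      exact Hc_succ_of h.1 fun i hi => h.2 i (by omega)

/-- compactness -/
theorem exists_B (hU : IsOptimal ∅ U) (hQ : ∀ β l, KRD.kc U β ≤ l ↔ ∃ k, Q (β, l) k = true)
    (a : ℕ → Bool) : ∃ B : Set ℕ, ∀ t, Hc Q t t (mj Q a t) a (pre B (pS t)) := by
  by_contra hcon
  push Not at hcon
  obtain ⟨N, hN⟩ := compact_tree (fun τ => ∃ t, pS t ≤ τ.length ∧
      ¬ Hc Q t t (mj Q a t) a (τ.take (pS t))) (by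
    rintro σ τ ⟨ρ, rfl⟩ ⟨t, ht, hD⟩
    refine ⟨t, by rw [List.length_append]; omega, ?_⟩
    rwa [List.take_append_of_le_length ht]) (by
    intro X
    obtain ⟨t, ht⟩ := hcon X
    refine ⟨pS t, t, by simp, ?_⟩
    rwa [pre_take X _ _ le_rfl])
  have h1 := guard hU hQ a N N le_rfl
  unfold Gu at h1
  have h2 : 0 < cntP (pS N) (Hc Q N N (mj Q a N) a) := by
    by_contra h3
    have h4 : cntP (pS N) (Hc Q N N (mj Q a N) a) = 0 := by omega
    rw [h4, zero_mul] at h1
    have : 0 < 2 ^ pS N := by positivity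
    omega
  have h3 : ∃ β : List Bool, β.length = pS N ∧ Hc Q N N (mj Q a N) a β := by
    by_contra h4
    push Not at h4
    have h5 : cntP (pS N) (Hc Q N N (mj Q a N) a) ≤ (∅ : Finset (List Bool)).card :=
      cntP_le_card ∅ fun β hβ h => absurd h (h4 β hβ)
    simp only [Finset.card_empty] at h5
    omega
  obtain ⟨β, hβ1, hβ2⟩ := h3
  have hlN := le_pS N
  obtain ⟨t, ht, hD⟩ := hN (β.take N) (by rw [List.length_take]; omega)
  rw [List.length_take] at ht
  have ht2 : pS t ≤ N := by omega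
  have htN : t ≤ N := (le_pS t).trans ht2
  apply hD
  rw [List.take_take, min_eq_left ht2]
  have h4 : Hc Q N t (mj Q a t) a β := by
    refine ⟨hβ2.1, fun j' hj' i hi => hβ2.2 j' (by omega) i ?_⟩
    rw [dg_mj j' (by omega)]
    rwa [dg_mj j' hj'] at hi
  exact h4.mono htN le_rfl

/-- the charateristic function as a sequence of booleans -/
noncomputable def ch (A : Set ℕ) (n : ℕ) : Bool := open Classical in decide (n ∈ A)

theorem ev_pre {A : Set ℕ} {n i : ℕ} (h : i < n) : ev (pre A n) i = ch A i := by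
  unfold ev ch
  rw [List.getD_eq_getElem?_getD, pre_getElem? A n i h]
  rfl

theorem Fl_congr {j i N : ℕ} {a a' : ℕ → Bool} (h : ∀ n < N, a n = a' n) (hN : lv j i ≤ N) :
    Fl Q j i a ↔ Fl Q j i a' := by
  unfold Fl
  have h1 : ∀ t m, Gu Q t j m a ↔ Gu Q t j m a' := fun t m =>
    Gu_congr h ((pS_lt_lv j i).le.trans hN)
  have h2 : ∀ t m, Sm Q t j m i a ↔ Sm Q t j m i a' := fun t m => Sm_congr h hN
  simp only [h1, h2]

theorem host (hU : IsOptimal ∅ U) (hQ : ∀ β l, KRD.kc U β ≤ l ↔ ∃ k, Q (β, l) k = true)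
    {c : ℕ} (hc : ∀ x, Wr Q x → KRD.kc U x.2 ≤ x.1 + c) (A : Set ℕ) :
    ∃ B : Set ℕ, (∀ n, n ≤ KRD.kc U (pre B n) + 4) ∧ ∀ j i, i < 2 ^ nw j →
      KRD.kc U (pre A (lv j i)) ≤ KRD.kc U (pre B (lv j i)) + nu j + (10 + c) := by
  classical
  obtain ⟨B, hB⟩ := exists_B hU hQ (ch A)
  refine ⟨B, fun n => ?_, fun j i hi => ?_⟩
  · by_contra hcon
    obtain ⟨s, hs⟩ := KL_complete hQ (le_refl (KRD.kc U (pre B n)))
    set t := max s n with ht
    have hn : n ≤ pS t := (le_max_right s n).trans (le_pS t)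
    refine (hB t).1.1 ⟨n, by rw [pre_length]; omega, KRD.kc U (pre B n), by omega, ?_, by omega⟩
    rw [pre_take B _ _ hn]
    exact hs.mono (le_max_left s n) le_rfl
  · set β := pre B (lv j i) with hβ
    have hmk : ∀ s k, Mk Q s j i k β → ∀ t, j < t → s ≤ t → Mk Q t j i k (pre B (pS t)) := by
      intro s k h t ht hs
      rw [← Mk_take (n := lv j i) le_rfl, pre_take B _ _ (lv_le' hi ht)]
      exact h.mono hs
    have htop : ∀ s, ¬ Mk Q s j i (pa j + 1) β := by
      intro s h
      have h1 := hmk s _ h (max s (j + 1)) (by omega) (by omega)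
      have h2 := (lt_ht (k := pa j) (by omega)).1 h1
      have h3 := sum_ht (Q := Q) (t := max s (j + 1)) (j := j) (n := i + 1)
        (β := pre B (pS (max s (j + 1)))) hi
      have h4 := (hB (max s (j + 1))).1.2 j (by omega)
      have h5 : ht Q (max s (j + 1)) j (pre B (pS (max s (j + 1)))) i ≤
          ∑ i' ∈ Finset.range (i + 1),
            ht Q (max s (j + 1)) j (pre B (pS (max s (j + 1)))) i' :=
        Finset.single_le_sum (f := fun i' =>
          ht Q (max s (j + 1)) j (pre B (pS (max s (j + 1)))) i')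
          (fun _ _ => Nat.zero_le _) (Finset.mem_range.2 (by omega))
      omega
    set k0 := Nat.findGreatest (fun k => ∃ s, Mk Q s j i k β) (pa j) with hk0
    have hk0le : k0 ≤ pa j := Nat.findGreatest_le _
    have hnext : ∀ s, ¬ Mk Q s j i (k0 + 1) β := by
      intro s h
      by_cases h1 : k0 + 1 ≤ pa j
      · exact Nat.findGreatest_is_greatest (P := fun k => ∃ s, Mk Q s j i k β) (n := pa j)
          (k := k0 + 1) (Nat.lt_succ_self k0) h1 ⟨s, h⟩
      · have h2 : k0 = pa j := by omega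
        rw [h2] at h
        exact htop s h
    have hgood : Lk j i k0 (ch A) ∨ Fl Q j i (ch A) := by
      by_cases hx : i < xj Q (ch A) j (mj Q (ch A) j)
      · left
        by_cases h0 : k0 = 0
        · rw [h0]
          exact fun s hs => absurd hs (by omega)
        · obtain ⟨s, hs⟩ : ∃ s, Mk Q s j i k0 β :=
            Nat.findGreatest_of_ne_zero (P := fun k => ∃ s, Mk Q s j i k β) (n := pa j)
              hk0.symm h0
          have h1 := hmk s _ hs (max s (j + 1)) (by omega) (by omega)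
          refine (hB (max s (j + 1))).2 j (by omega) i ?_ k0 (by omega) h1
          rw [dg_mj j (by omega)]
          exact lt_min hx hi
      · right
        obtain ⟨t, ht, h1⟩ := xj_sm (not_lt.1 hx) hi
        exact ⟨t, ht, mj Q (ch A) j, mj_lt _ _, guard hU hQ _ j t ht.le, h1⟩
    have hrs := rs_le (Q := Q) j i
    have hpl := pa_le_lv j i
    have hW : Wr Q (lv j i + eh j + 6 - rs Q j i - k0, pre A (lv j i)) := by
      refine ⟨j, i, rs Q j i, k0, hi, by omega, rs_spec j i, pre_length _ _, ?_, ?_⟩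
      · show lv j i + eh j + 6 - rs Q j i - k0 + rs Q j i + k0 = lv j i + eh j + 6
        omega
      · rcases hgood with h | h
        · exact Or.inl ((Lk_congr (N := lv j i) (fun n hn => ev_pre hn) le_rfl
            (by omega)).2 h)
        · exact Or.inr ((Fl_congr (N := lv j i) (fun n hn => ev_pre hn) le_rfl).2 h)
    have h1 := hc _ hW
    simp only at h1
    have h2 : lv j i + gm j + j + 1 ≤ KRD.kc U β + rs Q j i + 4 + k0 := by
      by_contra hcon
      obtain ⟨s, hs⟩ := KL_complete hQ (le_refl (KRD.kc U β))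
      have h3 : gm j + j + 1 ≤ eh j := by unfold eh; rw [nw_eq]; omega
      refine hnext s ⟨s, by omega, rs Q j i, by omega, KRD.kc U β, by omega,
        not_MR hU hQ (Nat.lt_succ_self _), ?_, by omega⟩
      rw [hβ, pre_take B _ _ le_rfl]
      exact hs
    have h3 : eh j = nu j + gm j + j + 1 := by unfold eh; rw [nw_eq]
    omega

end main

/-! ### the trivial requests -/

theorem kraft_num {U : List Bool →. ℕ} (hU : IsOptimal ∅ U) (F : Finset ℕ) :
    ∑ n ∈ F, (1 / 2 : ℝ) ^ KC U n ≤ 1 := by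
  classical
  have hex : ∀ n : ℕ, ∃ ρ : List Bool, n ∈ U ρ ∧ ρ.length = KC U n := fun n => exists_KC hU n
  choose P hP1 hP2 using hex
  have hinj : Function.Injective P := by
    intro m n h
    have h1 := hP1 m
    rw [h] at h1
    exact Part.mem_unique h1 (hP1 n)
  have h1 : ∑ n ∈ F, (1 / 2 : ℝ) ^ KC U n = ∑ ρ ∈ F.image P, (1 / 2 : ℝ) ^ ρ.length := by
    rw [Finset.sum_image (fun a _ b _ h => hinj h)]
    exact Finset.sum_congr rfl fun β _ => by rw [hP2]
  rw [h1]
  have h2 := Kr.kraft (F.image P) (by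
    intro ρ hρ ρ' hρ' hpre
    obtain ⟨σ, -, rfl⟩ := Finset.mem_image.1 hρ
    obtain ⟨τ, -, rfl⟩ := Finset.mem_image.1 hρ'
    exact hU.machine.prefixFree _ _ (Part.dom_iff_mem.2 ⟨_, hP1 σ⟩)
      (Part.dom_iff_mem.2 ⟨_, hP1 τ⟩) hpre)
  have h3 : ((∑ σ ∈ F.image P, (1 / 2 : ℚ) ^ σ.length : ℚ) : ℝ) ≤ 1 := by exact_mod_cast h2
  push_cast at h3
  exact h3

theorem sum_tail (K M : ℕ) : ∑ l ∈ Finset.range M, (if K ≤ l then (1 / 2 : ℝ) ^ (l + 1) else 0) ≤
    (1 / 2) ^ K := by
  have h : ∑ l ∈ Finset.range M, (if K ≤ l then (1 / 2 : ℝ) ^ (l + 1) else 0) =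
      (1 / 2) ^ K - (1 / 2) ^ max K M := by
    induction M with
    | zero => simp
    | succ M ih =>
      rw [Finset.sum_range_succ, ih]
      by_cases hK : K ≤ M
      · rw [if_pos hK, max_eq_right hK, max_eq_right (by omega), pow_succ]
        ring
      · rw [if_neg hK, max_eq_left (by omega), max_eq_left (by omega)]
        ring
  rw [h]
  have : (0 : ℝ) ≤ (1 / 2) ^ max K M := by positivity
  linarith

/-- the trivial upper bound of the complexity -/
theorem kc_triv {U : List Bool →. ℕ} (hU : IsOptimal ∅ U) :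
    ∃ c : ℕ, ∀ α : List Bool, KRD.kc U α ≤ α.length + KC U α.length + c := by
  classical
  obtain ⟨c, hc⟩ := kc_of_sig hU (W := fun x => ∃ l, (∃ ρ : List Bool, x.2.length ∈ U ρ ∧
      ρ.length ≤ l) ∧ x.1 = x.2.length + l + 1) (by
    refine Sig1.ex_nat (p := fun (x : ℕ × List Bool) l => (∃ ρ : List Bool, x.2.length ∈ U ρ ∧
      ρ.length ≤ l) ∧ x.1 = x.2.length + l + 1) ?_
    refine Sig1.and ?_ ?_
    · refine Sig1.ex (p := fun (z : (ℕ × List Bool) × ℕ) (ρ : List Bool) =>
        z.1.2.length ∈ U ρ ∧ ρ.length ≤ z.2) ?_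
      refine Sig1.and ?_ ?_
      · exact (KRD.sig_prog hU.machine).comp (f := fun x : ((ℕ × List Bool) × ℕ) × List Bool =>
          (x.2, x.1.1.2.length)) (Computable.pair Computable.snd (Computable.list_length.comp
            (Computable.snd.comp (Computable.fst.comp Computable.fst))))
      · exact sig_of_pred (pp_le (Primrec.list_length.comp Primrec.snd)
          (Primrec.snd.comp Primrec.fst))
    · exact sig_of_pred (Primrec.eq.comp (Primrec.fst.comp Primrec.fst) (Primrec.succ.comp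
        (Primrec.nat_add.comp (Primrec.list_length.comp (Primrec.snd.comp Primrec.fst))
          Primrec.snd)))) (by
    intro F hF
    have hKC : ∀ n l, (∃ ρ : List Bool, n ∈ U ρ ∧ ρ.length ≤ l) → KC U n ≤ l := by
      rintro n l ⟨ρ, h1, h2⟩
      exact (KC_le h1).trans h2
    set N := F.sup (fun x => x.1) with hN
    have h0 : ∀ x ∈ F, x.1 ≤ N := fun x hx => Finset.le_sup (f := fun x : ℕ × List Bool => x.1) hx
    have h1 := cover F (Finset.range (N + 1)) (fun x => (1 / 2 : ℝ) ^ x.1)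
      (fun x => by positivity)
      (fun n x => x.2.length = n ∧ ∃ l < N + 1, KC U n ≤ l ∧ x.1 = n + l + 1)
      (fun x hx => by
        obtain ⟨l, h2, h3⟩ := hF x hx
        have h4 := h0 x hx
        exact ⟨x.2.length, Finset.mem_range.2 (by omega), rfl, l, by omega, hKC _ _ h2, h3⟩)
      (fun n => (1 / 2 : ℝ) ^ KC U n) (by
      intro n _ G hG
      have h2 := cover G (Finset.range (N + 1)) (fun x => (1 / 2 : ℝ) ^ x.1)
        (fun x => by positivity)
        (fun l x => x.2.length = n ∧ KC U n ≤ l ∧ x.1 = n + l + 1)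
        (fun x hx => by
          obtain ⟨h3, l, h4, h5, h6⟩ := hG x hx
          exact ⟨l, Finset.mem_range.2 h4, h3, h5, h6⟩)
        (fun l => if KC U n ≤ l then (1 / 2 : ℝ) ^ (l + 1) else 0) (by
        intro l _ G' hG'
        by_cases hl : KC U n ≤ l
        · rw [if_pos hl]
          have h3 : ∀ x ∈ G', (1 / 2 : ℝ) ^ x.1 = (1 / 2 : ℝ) ^ (n + (l + 1)) := by
            intro x hx
            rw [(hG' x hx).2.2, add_assoc]
          rw [Finset.sum_congr rfl h3, Finset.sum_const, nsmul_eq_mul]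
          have h4 : G'.card ≤ 2 ^ n := by
            rw [← card_Sx n, ← Finset.card_image_of_injOn (s := G') (f := Prod.snd)]
            · refine Finset.card_le_card fun α hα => ?_
              obtain ⟨x, hx, rfl⟩ := Finset.mem_image.1 hα
              exact mem_Sx.2 (hG' x hx).1
            · intro x hx y hy hxy
              exact Prod.ext ((hG' x hx).2.2.trans (hG' y hy).2.2.symm) hxy
          have h5 : (G'.card : ℝ) ≤ 2 ^ n := by exact_mod_cast h4
          refine (mul_le_mul_of_nonneg_right h5 (by positivity)).trans (le_of_eq ?_)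
          rw [pow_add, one_div, inv_pow, inv_pow]
          field_simp
        · rw [if_neg hl]
          refine le_of_eq (Finset.sum_eq_zero fun x hx => absurd (hG' x hx).2.1 hl))
      exact h2.trans (sum_tail _ _))
    have h3 : ∑ x ∈ F, (1 / 2 : ℝ) ^ x.1 ≤ 1 := h1.trans (kraft_num hU _)
    have h4 : ((∑ x ∈ F, (1 / 2 : ℚ) ^ x.1 : ℚ) : ℝ) ≤ 1 := by
      push_cast
      exact h3
    exact_mod_cast h4)
  refine ⟨c + 1, fun α => ?_⟩
  obtain ⟨ρ, h1, h2⟩ := exists_KC hU α.length
  have := hc (α.length + KC U α.length + 1, α) ⟨_, ⟨ρ, h1, h2.le⟩, rfl⟩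
  simp only at this
  omega

theorem KC_le_num {U : List Bool →. ℕ} (hU : IsOptimal ∅ U) : ∃ c : ℕ, ∀ n, KC U n ≤ n + c := by
  classical
  obtain ⟨c, hc⟩ := kc_of_sig hU (W := fun x => x.1 = x.2.length + 1 ∧
      x.2 = List.replicate x.2.length false) (by
    refine Sig1.and (sig_of_pred (Primrec.eq.comp Primrec.fst
      (Primrec.succ.comp (Primrec.list_length.comp Primrec.snd)))) (sig_of_pred
      (Primrec.eq.comp Primrec.snd (primrec_replicate.comp
        (Primrec.list_length.comp Primrec.snd))))) (by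
    intro F hF
    set N := F.sup (fun x => x.1) with hN
    have h0 : ∀ x ∈ F, x.1 ≤ N := fun x hx => Finset.le_sup (f := fun x : ℕ × List Bool => x.1) hx
    have h1 := cover F (Finset.range (N + 1)) (fun x => (1 / 2 : ℝ) ^ x.1)
      (fun x => by positivity)
      (fun n x => x.1 = n + 1 ∧ x.2 = List.replicate n false)
      (fun x hx => by
        have h2 := (hF x hx).1
        have h4 := h0 x hx
        exact ⟨x.2.length, Finset.mem_range.2 (by omega), h2, (hF x hx).2⟩)
      (fun n => (1 / 2 : ℝ) ^ (n + 1)) (by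
      intro n _ G hG
      have h2 : G ⊆ {(n + 1, List.replicate n false)} := by
        intro x hx
        rw [Finset.mem_singleton]
        exact Prod.ext (hG x hx).1 (hG x hx).2
      refine (Finset.sum_le_sum_of_subset_of_nonneg h2 fun _ _ _ => by positivity).trans ?_
      rw [Finset.sum_singleton])
    have h3 : ∑ x ∈ F, (1 / 2 : ℝ) ^ x.1 ≤ 1 := h1.trans (half_sum _)
    have h4 : ((∑ x ∈ F, (1 / 2 : ℚ) ^ x.1 : ℚ) : ℝ) ≤ 1 := by
      push_cast
      exact h3
    exact_mod_cast h4)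
  obtain ⟨c', hc'⟩ := KRD.KC_map hU (f := fun x => ((decode (α := List Bool) x).getD []).length)
    (Computable.list_length.comp (Computable.option_getD Computable.decode
      (Computable.const [])))
  refine ⟨c + c' + 1, fun n => ?_⟩
  have h1 := hc (n + 1, List.replicate n false) ⟨by simp, by simp⟩
  have h2 := hc' (encode (List.replicate n false))
  simp only [encodek, Option.getD_some, List.length_replicate] at h2
  unfold KRD.kc at h1
  simp only at h1
  omega

/-! ### the error function -/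

/-- the batch of `n` -/
def jb (n : ℕ) : ℕ := Nat.findGreatest (fun j => pS j < n) n

/-- `n` is a level -/
def IsLv (n : ℕ) : Prop := ∃ i < n + 1, i < 2 ^ nw (jb n) ∧ lv (jb n) i = n

open Classical in
/-- the error function -/
noncomputable def fe (n : ℕ) : ℕ := if IsLv n then nu (jb n) else n

theorem jb_lv {j i : ℕ} (hi : i < 2 ^ nw j) : jb (lv j i) = j := by
  unfold jb
  rw [Nat.findGreatest_eq_iff]
  refine ⟨(lt_lv' j i).le, fun _ => pS_lt_lv j i, fun n hn _ h => ?_⟩
  have h1 := lv_le' hi hn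
  omega

theorem isLv_lv {j i : ℕ} (hi : i < 2 ^ nw j) : IsLv (lv j i) := by
  refine ⟨i, ?_, ?_⟩
  · have := lt_lv j i
    omega
  · rw [jb_lv hi]
    exact ⟨hi, rfl⟩

theorem fe_lv {j i : ℕ} (hi : i < 2 ^ nw j) : fe (lv j i) = nu j := by
  unfold fe
  rw [if_pos (isLv_lv hi), jb_lv hi]

theorem pr_jb : Primrec jb := by
  refine Primrec.nat_findGreatest (f := fun n => n) (p := fun n j => pS j < n) Primrec.id ?_
  exact pp_lt (pr_pS.comp Primrec.snd) Primrec.fst

theorem pp_IsLv : PrimrecPred IsLv := by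
  unfold IsLv
  refine pp_exists (f := fun n => n + 1) (P := fun n i => i < 2 ^ nw (jb n) ∧ lv (jb n) i = n)
    ?_ Primrec.succ
  have a1 : Primrec fun z : ℕ × ℕ => jb z.1 := pr_jb.comp Primrec.fst
  exact (pp_lt Primrec.snd (pr_two_pow (pr_nw.comp a1))).and
    (Primrec.eq.comp (pr_lv a1 Primrec.snd) Primrec.fst)

theorem computable_fe : Computable fe := by
  classical
  have h1 : Computable fun n => decide (IsLv n) := pp_IsLv.decide.to_comp
  refine (Computable.cond h1 (pr_nu.comp pr_jb).to_comp Computable.id).of_eq fun n => ?_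
  unfold fe
  by_cases h : IsLv n <;> simp [h]

theorem le_nu (j : ℕ) : j ≤ nu j := by
  rw [nu_eq]
  omega

/-- the errors are small at many numbers -/
theorem many_fe (j : ℕ) : ∃ S : Finset ℕ, (∀ n ∈ S, fe n ≤ nu j) ∧
    nu j * 2 ^ nu j ≤ (nu j).size * S.card := by
  classical
  refine ⟨(Finset.range (2 ^ nw j)).image (lv j), ?_, ?_⟩
  · intro n hn
    obtain ⟨i, hi, rfl⟩ := Finset.mem_image.1 hn
    exact (fe_lv (Finset.mem_range.1 hi)).le
  · rw [Finset.card_image_of_injective _ (lv_strict j).injective, Finset.card_range]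
    exact many_levels j

theorem not_summable_fe : ¬ Summable fun n => (1 / 2 : ℝ) ^ fe n := by
  intro hs
  obtain ⟨J, hJ⟩ := exists_nat_gt (∑' n, (1 / 2 : ℝ) ^ fe n)
  -- a number much larger than its size
  obtain ⟨j, hj⟩ : ∃ j, J * (nu j).size < nu j := by
    obtain ⟨m, hm⟩ : ∃ m : ℕ, ∀ k ≥ m, J * k.size < k := by
      refine ⟨2 ^ (4 * J + 8), fun k hk => ?_⟩
      have h1 : 4 * J + 8 < k.size := Nat.lt_size.2 hk
      have h2 : 2 ^ (k.size - 1) ≤ k := Nat.lt_size.1 (by omega)
      obtain ⟨r, hr⟩ : ∃ r, k.size = r + 1 := ⟨k.size - 1, by omega⟩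
      rw [hr, Nat.add_sub_cancel] at h2
      have h3 : ∀ r, 4 * J + 8 ≤ r → J * (r + 1) < 2 ^ r := by
        intro r hr
        have h4 : J < 2 ^ J := Nat.lt_two_pow_self
        obtain ⟨q, rfl⟩ := Nat.exists_eq_add_of_le (show J ≤ r by omega)
        have h5 : J + q + 1 ≤ 2 ^ q := by
          have h6 : 3 * J + 8 ≤ q := by omega
          have h7 : ∀ q, 8 ≤ q → 2 * q + 1 ≤ 2 ^ q := by
            intro q hq
            induction q, hq using Nat.le_induction with
            | base => norm_num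
            | succ q hq ih => rw [pow_succ]; omega
          have := h7 q (by omega)
          omega
        rw [pow_add]
        calc J * (J + q + 1) ≤ J * 2 ^ q := Nat.mul_le_mul_left _ h5
          _ < 2 ^ J * 2 ^ q := Nat.mul_lt_mul_of_pos_right h4 (by positivity)
      rw [hr]
      exact lt_of_lt_of_le (h3 r (by omega)) h2
    exact ⟨m, hm _ (le_nu m)⟩
  obtain ⟨S, hS1, hS2⟩ := many_fe j
  have h1 : (S.card : ℝ) * (1 / 2) ^ nu j ≤ ∑' n, (1 / 2 : ℝ) ^ fe n := by
    rw [← nsmul_eq_mul, ← Finset.sum_const]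
    refine (Finset.sum_le_sum (g := fun n => (1 / 2 : ℝ) ^ fe n) fun n hn => ?_).trans
      (hs.sum_le_tsum S fun _ _ => by positivity)
    exact pow_le_pow_of_le_one (by norm_num) (by norm_num) (hS1 n hn)
  have h2 : ((nu j : ℝ)) ≤ ((nu j).size : ℝ) * (S.card * (1 / 2) ^ nu j) := by
    have h3 : ((nu j : ℝ)) * 2 ^ nu j ≤ ((nu j).size : ℝ) * S.card := by exact_mod_cast hS2
    have h4 : (0 : ℝ) < 2 ^ nu j := by positivity
    have h5 : ((nu j).size : ℝ) * (S.card * (1 / 2) ^ nu j) =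
        ((nu j).size : ℝ) * S.card / 2 ^ nu j := by
      rw [one_div, inv_pow]
      field_simp
    rw [h5, le_div_iff₀ h4]
    exact h3
  have h3 : (J : ℝ) * (nu j).size < nu j := by exact_mod_cast hj
  have h4 : ((nu j).size : ℝ) * (S.card * (1 / 2) ^ nu j) ≤ (nu j).size * J :=
    mul_le_mul_of_nonneg_left (h1.trans hJ.le) (by positivity)
  linarith

/-- the main theorem -/
theorem main {U : List Bool →. ℕ} (hU : IsOptimal ∅ U) :
    ∃ c : ℕ, ∀ A : Set ℕ, ∃ B : Set ℕ, ∀ n, n ≤ KRD.kc U (pre B n) + c ∧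
      KRD.kc U (pre A n) ≤ KRD.kc U (pre B n) + min (fe n) (KC U n) + c := by
  obtain ⟨Q, hQ1, hQ2⟩ := primrec_nf (KRD.sig_short hU.machine)
  have hQ : ∀ β l, KRD.kc U β ≤ l ↔ ∃ k, Q (β, l) k = true := fun β l =>
    (KRD.short_iff hU β l).symm.trans (hQ2 (β, l))
  obtain ⟨c1, hc1⟩ := kc_Wr hU hQ1 hQ
  obtain ⟨c2, hc2⟩ := kc_triv hU
  obtain ⟨c3, hc3⟩ := KC_le_num hU
  refine ⟨10 + c1 + c2 + c3 + 4, fun A => ?_⟩
  obtain ⟨B, hB1, hB2⟩ := host hU hQ hc1 A
  refine ⟨B, fun n => ?_⟩
  have h1 := hB1 n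
  have h2 := hc2 (pre A n)
  have h5 := hc3 n
  rw [pre_length] at h2
  refine ⟨by omega, ?_⟩
  rcases le_total (fe n) (KC U n) with h6 | h6
  · rw [min_eq_left h6]
    unfold fe
    split_ifs with h
    · obtain ⟨i, -, hi, h3⟩ := h
      have h4 := hB2 (jb n) i hi
      rw [h3] at h4
      omega
    · omega
  · rw [min_eq_right h6]
    omega

end KDV
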