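import Pool.Agent.KDV.Stage

/-!
# The mass of the levels; most strings are good hosts
-/

namespace KDV

open AC Low4 Encodable Denumerable

section mass

variable {U : List Bool →. ℕ}

theorem kraft_all (hU : IsOptimal ∅ U) (F : Finset (List Bool)) :
    ∑ β ∈ F, (1 / 2 : ℝ) ^ KRD.kc U β ≤ 1 := by
  classical
  have hex : ∀ β : List Bool, ∃ ρ : List Bool, encode β ∈ U ρ ∧ ρ.length = KRD.kc U β :=
    fun β => exists_KC hU (encode β)
  choose P hP1 hP2 using hex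
  have hinj : Function.Injective P := by
    intro σ τ h
    have h1 := hP1 σ
    rw [h] at h1
    exact encode_injective (Part.mem_unique h1 (hP1 τ))
  have h1 : ∑ β ∈ F, (1 / 2 : ℝ) ^ KRD.kc U β = ∑ ρ ∈ F.image P, (1 / 2 : ℝ) ^ ρ.length := by
    rw [Finset.sum_image (fun a _ b _ h => hinj h)]
    exact Finset.sum_congr rfl fun β _ => by rw [hP2]
  rw [h1]
  have h2 := Kr.kraft (F.image P) (by
    intro ρ hρ ρ' hρ' hpre
    obtain ⟨σ, -, rfl⟩ := Finset.mem_image.1 hρ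
    obtain ⟨τ, -, rfl⟩ := Finset.mem_image.1 hρ'
    exact hU.machine.prefixFree _ _ (Part.dom_iff_mem.2 ⟨_, hP1 σ⟩)
      (Part.dom_iff_mem.2 ⟨_, hP1 τ⟩) hpre)
  have h3 : ((∑ σ ∈ F.image P, (1 / 2 : ℚ) ^ σ.length : ℚ) : ℝ) ≤ 1 := by exact_mod_cast h2
  push_cast at h3
  exact h3

/-- the mass of the strings of length `n` -/
noncomputable def mass (U : List Bool →. ℕ) (n : ℕ) : ℝ :=
  ∑ β ∈ Sx n, (1 / 2 : ℝ) ^ KRD.kc U β

theorem mass_nonneg (n : ℕ) : 0 ≤ mass U n := by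
  unfold mass
  positivity

theorem mass_sum (hU : IsOptimal ∅ U) (N : Finset ℕ) : ∑ n ∈ N, mass U n ≤ 1 := by
  classical
  unfold mass
  rw [← Finset.sum_biUnion]
  · exact kraft_all hU _
  · intro m _ n _ hmn
    rw [Function.onFun, Finset.disjoint_left]
    intro β h1 h2
    rw [mem_Sx] at h1 h2
    exact hmn (h1.symm.trans h2)

theorem mass_le (hU : IsOptimal ∅ U) (n : ℕ) : mass U n ≤ 1 := by
  have := mass_sum hU {n}
  simpa using this

theorem cnt_mass {n y : ℕ} {P : List Bool → Prop}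
    (h : ∀ β, β.length = n → P β → KRD.kc U β ≤ y) :
    (cntP n P : ℝ) * (1 / 2) ^ y ≤ mass U n := by
  classical
  rw [cntP_eq, ← nsmul_eq_mul, ← Finset.sum_const]
  unfold mass
  refine (Finset.sum_le_sum (g := fun β => (1 / 2 : ℝ) ^ KRD.kc U β) fun β hβ => ?_).trans
    (Finset.sum_le_sum_of_subset_of_nonneg (Finset.filter_subset _ _) fun _ _ _ => by positivity)
  rw [Finset.mem_filter, mem_Sx] at hβ
  exact pow_le_pow_of_le_one (by norm_num) (by norm_num) (h β hβ.1 hβ.2)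

variable {Q : List Bool × ℕ → ℕ → Bool}

theorem KL_sound (hQ : ∀ β l, KRD.kc U β ≤ l ↔ ∃ k, Q (β, l) k = true) {t l : ℕ} {β : List Bool}
    (h : KL Q t β l) : KRD.kc U β ≤ l := by
  obtain ⟨l', h1, k, -, h2⟩ := h
  have := (hQ β l').2 ⟨k, h2⟩
  omega

theorem KL_complete (hQ : ∀ β l, KRD.kc U β ≤ l ↔ ∃ k, Q (β, l) k = true) {l : ℕ}
    {β : List Bool} (h : KRD.kc U β ≤ l) : ∃ t, KL Q t β l := by
  obtain ⟨k, hk⟩ := (hQ β l).1 h
  exact ⟨k, l, by omega, k, by omega, hk⟩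

theorem MR_mass (hQ : ∀ β l, KRD.kc U β ≤ l ↔ ∃ k, Q (β, l) k = true) {t j i r : ℕ}
    (h : MR Q t j i r) : (2 : ℝ) ^ r ≤ 2 ^ eh j * mass U (lv j i) := by
  obtain ⟨y, -, h1⟩ := h
  have h2 : (2 : ℝ) ^ (y + r) ≤ cntP (lv j i) (fun β => KL Q t β y) * 2 ^ eh j := by
    exact_mod_cast h1
  have h3 := cnt_mass (U := U) (n := lv j i) (y := y) (P := fun β => KL Q t β y)
    fun β _ h => KL_sound hQ h
  have h4 : (1 / 2 : ℝ) ^ y * 2 ^ y = 1 := by rw [← mul_pow]; norm_num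
  calc (2 : ℝ) ^ r = (1 / 2) ^ y * 2 ^ (y + r) := by
        rw [pow_add, ← mul_assoc, h4, one_mul]
    _ ≤ (1 / 2) ^ y * (cntP (lv j i) (fun β => KL Q t β y) * 2 ^ eh j) :=
        mul_le_mul_of_nonneg_left h2 (by positivity)
    _ = 2 ^ eh j * (cntP (lv j i) (fun β => KL Q t β y) * (1 / 2) ^ y) := by ring
    _ ≤ _ := mul_le_mul_of_nonneg_left h3 (by positivity)

open Classical in
/-- the rank of a level -/
noncomputable def rs (Q : List Bool × ℕ → ℕ → Bool) (j i : ℕ) : ℕ :=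
  Nat.findGreatest (fun r => ∃ t, MR Q t j i r) (eh j)

theorem rs_le (j i : ℕ) : rs Q j i ≤ eh j := by
  classical
  exact Nat.findGreatest_le _

theorem rs_spec (j i : ℕ) : rs Q j i = 0 ∨ ∃ t, MR Q t j i (rs Q j i) := by
  classical
  by_cases h : rs Q j i = 0
  · exact Or.inl h
  · exact Or.inr (Nat.findGreatest_of_ne_zero (P := fun r => ∃ t, MR Q t j i r) (n := eh j) rfl h)

theorem not_MR (hU : IsOptimal ∅ U) (hQ : ∀ β l, KRD.kc U β ≤ l ↔ ∃ k, Q (β, l) k = true)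
    {t j i r : ℕ} (h : rs Q j i < r) : ¬ MR Q t j i r := by
  classical
  intro h1
  by_cases h2 : r ≤ eh j
  · exact Nat.findGreatest_is_greatest (P := fun r => ∃ t, MR Q t j i r) (n := eh j) h h2 ⟨t, h1⟩
  · have h3 := MR_mass (U := U) hQ h1
    have h4 := mass_le hU (lv j i)
    have h5 : (2 : ℝ) ^ r ≤ 2 ^ eh j :=
      h3.trans (mul_le_of_le_one_right (by positivity) h4)
    have h6 : (2 : ℝ) ^ eh j < 2 ^ r := pow_lt_pow_right₀ (by norm_num) (not_le.1 h2)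
    linarith

theorem rs_pow (hQ : ∀ β l, KRD.kc U β ≤ l ↔ ∃ k, Q (β, l) k = true) (j i : ℕ) :
    (2 : ℝ) ^ rs Q j i ≤ 1 + 2 ^ eh j * mass U (lv j i) := by
  have h0 : (0 : ℝ) ≤ 2 ^ eh j * mass U (lv j i) :=
    mul_nonneg (by positivity) (mass_nonneg _)
  rcases rs_spec (Q := Q) j i with h | ⟨t, h⟩
  · rw [h, pow_zero]
    linarith
  · have := MR_mass (U := U) hQ h
    linarith

attribute [irreducible] rs

/-- the marks of one rank -/
def Mr (Q : List Bool × ℕ → ℕ → Bool) (t j i k r : ℕ) (β : List Bool) : Prop :=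
  ∃ t' < t + 1, ∃ l, ¬ MR Q t' j i (r + 1) ∧ KL Q t' (β.take (lv j i)) l ∧
    l + r + 4 + k ≤ lv j i + gm j + j + 1

theorem Mr_bound (t j i k r : ℕ) :
    cntP (lv j i) (Mr Q t j i k r) * 2 ^ (4 + k + nu j) ≤ 2 ^ (lv j i + 1) := by
  classical
  by_cases h : (∃ t' ≤ t, ¬ MR Q t' j i (r + 1)) ∧ r + 4 + k ≤ lv j i + gm j + j + 1
  · obtain ⟨⟨t', h1, h2⟩, h3⟩ := h
    set T := Nat.findGreatest (fun t' => ¬ MR Q t' j i (r + 1)) t with hT
    have h4 : ¬ MR Q T j i (r + 1) :=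
      Nat.findGreatest_spec (P := fun t' => ¬ MR Q t' j i (r + 1)) h1 h2
    obtain ⟨L, hL⟩ := Nat.exists_eq_add_of_le h3
    have h5 : cntP (lv j i) (Mr Q t j i k r) ≤ cntP (lv j i) (fun β => KL Q T β L) := by
      refine cntP_mono fun β hβ h => ?_
      obtain ⟨s, hs, l, h6, h7, h8⟩ := h
      rw [List.take_of_length_le hβ.le] at h7
      exact h7.mono (Nat.le_findGreatest (P := fun t' => ¬ MR Q t' j i (r + 1)) (by omega) h6)
        (by omega)
    unfold MR at h4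
    push Not at h4
    have h6 := h4 L (by unfold eh; rw [nw_eq]; omega)
    have h7 : cntP (lv j i) (fun β => KL Q T β L) * 2 ^ eh j * 2 ^ (4 + k) <
        2 ^ (L + (r + 1)) * 2 ^ (4 + k) := Nat.mul_lt_mul_of_pos_right h6 (by positivity)
    have h8 : (2 : ℕ) ^ (L + (r + 1)) * 2 ^ (4 + k) = 2 ^ (lv j i + 1) * 2 ^ (gm j + j + 1) := by
      rw [← pow_add, ← pow_add]
      congr 1
      omega
    have h9 : cntP (lv j i) (fun β => KL Q T β L) * 2 ^ eh j * 2 ^ (4 + k) =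
        cntP (lv j i) (fun β => KL Q T β L) * 2 ^ (4 + k + nu j) * 2 ^ (gm j + j + 1) := by
      unfold eh
      rw [nw_eq, mul_assoc, mul_assoc, ← pow_add, ← pow_add]
      congr 2
      omega
    rw [h8, h9] at h7
    have h10 := Nat.lt_of_mul_lt_mul_right h7
    exact (Nat.mul_le_mul_right _ h5).trans h10.le
  · have h1 : cntP (lv j i) (Mr Q t j i k r) = 0 := by
      have h2 : cntP (lv j i) (Mr Q t j i k r) ≤ (∅ : Finset (List Bool)).card := by
        refine cntP_le_card ∅ fun β _ hβ => ?_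
        exfalso
        apply h
        obtain ⟨s, hs, l, h6, h7, h8⟩ := hβ
        exact ⟨⟨s, by omega, h6⟩, by omega⟩
      simpa using h2
    rw [h1]
    simp

theorem Mk_bound (hU : IsOptimal ∅ U) (hQ : ∀ β l, KRD.kc U β ≤ l ↔ ∃ k, Q (β, l) k = true)
    (t j i k : ℕ) : cntP (lv j i) (Mk Q t j i k) * 2 ^ (4 + k + nu j) ≤
      (rs Q j i + 1) * 2 ^ (lv j i + 1) := by
  have h1 : cntP (lv j i) (Mk Q t j i k) ≤
      cntP (lv j i) (fun β => ∃ r < rs Q j i + 1, Mr Q t j i k r β) := by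
    refine cntP_mono fun β hβ h => ?_
    obtain ⟨s, hs, r, hr, l, hl, h2, h3, h4⟩ := h
    by_cases h5 : r < rs Q j i + 1
    · exact ⟨r, h5, s, hs, l, h2, h3, h4⟩
    · exact ⟨rs Q j i, by omega, s, hs, l, not_MR hU hQ (by omega), h3, by omega⟩
  have h2 := h1.trans (cntP_exists (lv j i) (rs Q j i + 1) fun r β => Mr Q t j i k r β)
  calc cntP (lv j i) (Mk Q t j i k) * 2 ^ (4 + k + nu j)
      ≤ (∑ r ∈ Finset.range (rs Q j i + 1), cntP (lv j i) (Mr Q t j i k r)) *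
        2 ^ (4 + k + nu j) := Nat.mul_le_mul_right _ h2
    _ = ∑ r ∈ Finset.range (rs Q j i + 1), cntP (lv j i) (Mr Q t j i k r) *
        2 ^ (4 + k + nu j) := Finset.sum_mul _ _ _
    _ ≤ ∑ r ∈ Finset.range (rs Q j i + 1), 2 ^ (lv j i + 1) :=
        Finset.sum_le_sum fun r _ => Mr_bound t j i k r
    _ = _ := by rw [Finset.sum_const, Finset.card_range, smul_eq_mul]

theorem Mk_bound' (hU : IsOptimal ∅ U) (hQ : ∀ β l, KRD.kc U β ≤ l ↔ ∃ k, Q (β, l) k = true)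
    {s t j i : ℕ} (k : ℕ) (hi : i < 2 ^ nw j) (hj : j < t) :
    (cntP (pS t) (Mk Q s j i k) : ℝ) ≤
      (rs Q j i + 1) * (2 ^ pS t / 2 ^ (3 + nu j) * (1 / 2) ^ k) := by
  obtain ⟨r, hr⟩ := Nat.exists_eq_add_of_le (lv_le' hi hj)
  have h1 : cntP (pS t) (Mk Q s j i k) = 2 ^ r * cntP (lv j i) (Mk Q s j i k) := by
    rw [← cntP_take, hr]
    exact cntP_congr fun β _ => (Mk_take le_rfl).symm
  have h2 : (cntP (lv j i) (Mk Q s j i k) : ℝ) * 2 ^ (4 + k + nu j) ≤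
      (rs Q j i + 1) * 2 ^ (lv j i + 1) := by exact_mod_cast Mk_bound hU hQ s j i k
  have h3 : (cntP (lv j i) (Mk Q s j i k) : ℝ) ≤
      (rs Q j i + 1) * 2 ^ (lv j i + 1) / 2 ^ (4 + k + nu j) := by
    rw [le_div_iff₀ (by positivity)]
    exact h2
  rw [h1]
  push_cast
  calc (2 : ℝ) ^ r * cntP (lv j i) (Mk Q s j i k)
      ≤ 2 ^ r * ((rs Q j i + 1) * 2 ^ (lv j i + 1) / 2 ^ (4 + k + nu j)) :=
        mul_le_mul_of_nonneg_left h3 (by positivity)
    _ = _ := by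
        rw [hr]
        have e1 : (2 : ℝ) ^ (4 + k + nu j) = 2 ^ (3 + nu j) * 2 ^ k * 2 := by
          rw [← pow_add, ← pow_succ]
          congr 1
          omega
        rw [e1, pow_add (2 : ℝ) (lv j i) r, pow_succ, one_div, inv_pow]
        field_simp

theorem le_pow_div (x c : ℕ) : (x : ℝ) ≤ c + 2 ^ x / 2 ^ c := by
  rcases le_total x c with h | h
  · have h1 : (x : ℝ) ≤ c := by exact_mod_cast h
    have h2 : (0 : ℝ) ≤ 2 ^ x / 2 ^ c := by positivity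
    linarith
  · obtain ⟨y, rfl⟩ := Nat.exists_eq_add_of_le h
    have h1 : (y : ℝ) ≤ 2 ^ y := by exact_mod_cast Nat.lt_two_pow_self.le
    rw [pow_add, mul_div_cancel_left₀ _ (by positivity)]
    push_cast
    linarith

/-- the sum of the ranks in a batch -/
theorem sum_rs (hU : IsOptimal ∅ U) (hQ : ∀ β l, KRD.kc U β ≤ l ↔ ∃ k, Q (β, l) k = true)
    (j : ℕ) : ∑ i ∈ Finset.range (2 ^ nw j), ((rs Q j i : ℝ) + 1) ≤ (j + 4) * 2 ^ nw j := by
  have h1 : ∑ i ∈ Finset.range (2 ^ nw j), mass U (lv j i) ≤ 1 := by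
    classical
    have h2 : ∑ i ∈ Finset.range (2 ^ nw j), mass U (lv j i) =
        ∑ n ∈ (Finset.range (2 ^ nw j)).image (lv j), mass U n := by
      rw [Finset.sum_image fun a _ b _ h => (lv_strict j).injective h]
    rw [h2]
    exact mass_sum hU _
  have h2 : ∀ i, (rs Q j i : ℝ) + 1 ≤ (j + 2) + 1 / 2 ^ (j + 1) + 2 ^ nw j * mass U (lv j i) := by
    intro i
    have h3 := le_pow_div (rs Q j i) (j + 1)
    have h4 := rs_pow (U := U) hQ j i
    have h5 : (2 : ℝ) ^ rs Q j i / 2 ^ (j + 1) ≤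
        (1 + 2 ^ eh j * mass U (lv j i)) / 2 ^ (j + 1) :=
      div_le_div_of_nonneg_right h4 (by positivity)
    have h6 : (1 + 2 ^ eh j * mass U (lv j i)) / 2 ^ (j + 1) =
        1 / 2 ^ (j + 1) + 2 ^ nw j * mass U (lv j i) := by
      have : (2 : ℝ) ^ eh j = 2 ^ nw j * 2 ^ (j + 1) := by
        rw [← pow_add]
        rfl
      rw [this]
      field_simp
    rw [h6] at h5
    push_cast at h3
    linarith
  have h3 : (1 : ℝ) / 2 ^ (j + 1) ≤ 1 := by
    rw [div_le_one (by positivity)]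
    exact one_le_pow₀ (by norm_num)
  calc ∑ i ∈ Finset.range (2 ^ nw j), ((rs Q j i : ℝ) + 1)
      ≤ ∑ i ∈ Finset.range (2 ^ nw j), (((j : ℝ) + 2) + 1 / 2 ^ (j + 1) +
        2 ^ nw j * mass U (lv j i)) := Finset.sum_le_sum fun i _ => h2 i
    _ = 2 ^ nw j * (((j : ℝ) + 2) + 1 / 2 ^ (j + 1)) +
        2 ^ nw j * ∑ i ∈ Finset.range (2 ^ nw j), mass U (lv j i) := by
        rw [Finset.sum_add_distrib, Finset.sum_const, Finset.card_range, nsmul_eq_mul,
          Finset.mul_sum]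
        push_cast
        ring
    _ ≤ 2 ^ nw j * (((j : ℝ) + 2) + 1) + 2 ^ nw j * 1 := by
        gcongr
    _ = _ := by ring

theorem sum_range_mul (g : ℕ → ℕ → ℝ) (M a : ℕ) :
    ∑ u ∈ Finset.range (M * (a + 1)), g (u / (a + 1)) (u % (a + 1)) =
      ∑ i ∈ Finset.range M, ∑ k ∈ Finset.range (a + 1), g i k := by
  induction M with
  | zero => simp
  | succ M ih =>
    rw [Nat.succ_mul, Finset.sum_range_add, ih,
      Finset.sum_range_succ (fun i => ∑ k ∈ Finset.range (a + 1), g i k) M, add_right_inj]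
    refine Finset.sum_congr rfl fun k hk => ?_
    rw [Finset.mem_range] at hk
    have h1 : (M * (a + 1) + k) / (a + 1) = M := by
      rw [mul_comm, Nat.mul_add_div (by omega), Nat.div_eq_of_lt hk, add_zero]
    have h2 : (M * (a + 1) + k) % (a + 1) = k := by
      rw [mul_comm, Nat.mul_add_mod, Nat.mod_eq_of_lt hk]
    rw [h1, h2]

theorem half_sum (n : ℕ) : ∑ k ∈ Finset.range n, (1 / 2 : ℝ) ^ (k + 1) ≤ 1 := by
  have h : ∑ k ∈ Finset.range n, (1 / 2 : ℝ) ^ (k + 1) = 1 - (1 / 2) ^ n := by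
    induction n with
    | zero => simp
    | succ n ih =>
      rw [Finset.sum_range_succ, ih, pow_succ]
      ring
  rw [h]
  have : (0 : ℝ) ≤ (1 / 2) ^ n := by positivity
  linarith

/-- the mean number of marks -/
theorem sum_Xm (hU : IsOptimal ∅ U) (hQ : ∀ β l, KRD.kc U β ≤ l ↔ ∃ k, Q (β, l) k = true)
    {s t j : ℕ} (hj : j < t) :
    ∑ β ∈ Sx (pS t), (Xm Q s j β : ℝ) ≤ 2 ^ pS t * (2 ^ gm j * ((j + 4) / 8)) := by
  classical
  have h1 : ∑ β ∈ Sx (pS t), (Xm Q s j β : ℝ) =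
      ∑ u ∈ Finset.range (2 ^ nw j * (pa j + 1)),
        (cntP (pS t) (Mk Q s j (u / (pa j + 1)) (u % (pa j + 1) + 1)) : ℝ) := by
    have h2 : ∀ β, (Xm Q s j β : ℝ) = ∑ u ∈ Finset.range (2 ^ nw j * (pa j + 1)),
        if Mk Q s j (u / (pa j + 1)) (u % (pa j + 1) + 1) β then (1 : ℝ) else 0 := by
      intro β
      unfold Xm
      rw [cntN_eq, Finset.card_filter]
      push_cast
      rfl
    have h3 : ∀ u, (cntP (pS t) (Mk Q s j (u / (pa j + 1)) (u % (pa j + 1) + 1)) : ℝ) =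
        ∑ β ∈ Sx (pS t), if Mk Q s j (u / (pa j + 1)) (u % (pa j + 1) + 1) β
          then (1 : ℝ) else 0 := by
      intro u
      rw [cntP_eq, Finset.card_filter]
      push_cast
      rfl
    rw [Finset.sum_congr rfl fun β _ => h2 β, Finset.sum_comm]
    exact Finset.sum_congr rfl fun u _ => (h3 u).symm
  rw [h1, sum_range_mul (fun i k => (cntP (pS t) (Mk Q s j i (k + 1)) : ℝ))]
  have h4 : ∀ i ∈ Finset.range (2 ^ nw j), ∑ k ∈ Finset.range (pa j + 1),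
      (cntP (pS t) (Mk Q s j i (k + 1)) : ℝ) ≤
      ((rs Q j i : ℝ) + 1) * (2 ^ pS t / 2 ^ (3 + nu j)) := by
    intro i hi
    calc ∑ k ∈ Finset.range (pa j + 1), (cntP (pS t) (Mk Q s j i (k + 1)) : ℝ)
        ≤ ∑ k ∈ Finset.range (pa j + 1),
          ((rs Q j i : ℝ) + 1) * (2 ^ pS t / 2 ^ (3 + nu j) * (1 / 2) ^ (k + 1)) :=
          Finset.sum_le_sum fun k _ => Mk_bound' hU hQ (k + 1) (Finset.mem_range.1 hi) hj
      _ = ((rs Q j i : ℝ) + 1) * (2 ^ pS t / 2 ^ (3 + nu j)) *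
          ∑ k ∈ Finset.range (pa j + 1), (1 / 2 : ℝ) ^ (k + 1) := by
          rw [Finset.mul_sum]
          exact Finset.sum_congr rfl fun k _ => by ring
      _ ≤ ((rs Q j i : ℝ) + 1) * (2 ^ pS t / 2 ^ (3 + nu j)) * 1 :=
          mul_le_mul_of_nonneg_left (half_sum _) (by positivity)
      _ = _ := mul_one _
  refine (Finset.sum_le_sum h4).trans ?_
  rw [← Finset.sum_mul]
  calc (∑ i ∈ Finset.range (2 ^ nw j), ((rs Q j i : ℝ) + 1)) * (2 ^ pS t / 2 ^ (3 + nu j))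
      ≤ ((j + 4) * 2 ^ nw j) * (2 ^ pS t / 2 ^ (3 + nu j)) :=
        mul_le_mul_of_nonneg_right (sum_rs hU hQ j) (by positivity)
    _ = _ := by
        rw [nw_eq, pow_add, pow_add]
        field_simp
        norm_num

theorem markov {n a : ℕ} {P : List Bool → Prop} (f : List Bool → ℕ)
    (h : ∀ β, P β → a + 1 ≤ f β) :
    (cntP n P : ℝ) * ((a : ℝ) + 1) ≤ ∑ β ∈ Sx n, (f β : ℝ) := by
  classical
  rw [cntP_eq, ← nsmul_eq_mul, ← Finset.sum_const]
  refine (Finset.sum_le_sum (g := fun β => (f β : ℝ)) fun β hβ => ?_).trans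
    (Finset.sum_le_sum_of_subset_of_nonneg (Finset.filter_subset _ _)
      fun _ _ _ => Nat.cast_nonneg _)
  have h2 := h β (Finset.mem_filter.1 hβ).2
  exact_mod_cast h2

theorem X_bound (hU : IsOptimal ∅ U) (hQ : ∀ β l, KRD.kc U β ≤ l ↔ ∃ k, Q (β, l) k = true)
    {s t j : ℕ} (hj : j < t) :
    (cntP (pS t) (fun β => ¬ Xm Q s j β ≤ pa j) : ℝ) ≤ 2 ^ pS t * (1 / 4 * (1 / 2) ^ (j + 1)) := by
  classical
  set N : ℝ := (cntP (pS t) (fun β => ¬ Xm Q s j β ≤ pa j) : ℝ) with hN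
  have h1 : N * ((pa j : ℝ) + 1) ≤ ∑ β ∈ Sx (pS t), (Xm Q s j β : ℝ) := by
    exact markov (fun β => Xm Q s j β) fun β h => by omega
  have h2 := h1.trans (sum_Xm hU hQ (s := s) hj)
  have h3 : ((j : ℝ) + 4) * 2 ^ j * 2 ^ gm j ≤ (pa j : ℝ) + 1 := by
    have : (((j + 4) * 2 ^ j * 2 ^ gm j : ℕ) : ℝ) = pa j := by
      rw [pa_eq, pow_add, mul_assoc]
    push_cast at this
    linarith
  have hN0 : 0 ≤ N := by positivity
  have h4 : N * (((j : ℝ) + 4) * 2 ^ j * 2 ^ gm j) ≤ 2 ^ pS t * (2 ^ gm j * ((j + 4) / 8)) :=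
    (mul_le_mul_of_nonneg_left h3 hN0).trans h2
  have h5 : (0 : ℝ) < ((j : ℝ) + 4) * 2 ^ gm j := by positivity
  have h6 : N * 2 ^ j ≤ 2 ^ pS t / 8 := by
    have h7 : (((j : ℝ) + 4) * 2 ^ gm j) * (N * 2 ^ j) ≤
        (((j : ℝ) + 4) * 2 ^ gm j) * (2 ^ pS t / 8) := by
      calc (((j : ℝ) + 4) * 2 ^ gm j) * (N * 2 ^ j) =
          N * (((j : ℝ) + 4) * 2 ^ j * 2 ^ gm j) := by ring
        _ ≤ 2 ^ pS t * (2 ^ gm j * ((j + 4) / 8)) := h4
        _ = _ := by ring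
    exact le_of_mul_le_mul_left h7 h5
  have h7 : N ≤ 2 ^ pS t / 8 / 2 ^ j := by
    rw [le_div_iff₀ (by positivity)]
    exact h6
  refine h7.trans (le_of_eq ?_)
  rw [pow_succ, one_div, one_div, inv_pow]
  field_simp
  norm_num

theorem NR_bound (hU : IsOptimal ∅ U) (hQ : ∀ β l, KRD.kc U β ≤ l ↔ ∃ k, Q (β, l) k = true)
    (t n : ℕ) : (cntP n (NR Q t) : ℝ) ≤ 2 ^ n / 32 := by
  have h1 : cntP n (NR Q t) ≤
      cntP n (fun β => ∃ x < n + 1, KRD.kc U (β.take x) + 5 ≤ x) := by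
    refine cntP_mono fun β hβ h => ?_
    obtain ⟨x, hx, l, hl, h2, h3⟩ := h
    have := KL_sound hQ h2
    exact ⟨x, by omega, by omega⟩
  have h2 := h1.trans (cntP_exists n (n + 1) fun x β => KRD.kc U (β.take x) + 5 ≤ x)
  have h3 : ∀ x ∈ Finset.range (n + 1),
      (cntP n (fun β => KRD.kc U (β.take x) + 5 ≤ x) : ℝ) ≤ 2 ^ n / 32 * mass U x := by
    intro x hx
    rw [Finset.mem_range] at hx
    obtain ⟨r, rfl⟩ := Nat.exists_eq_add_of_le (Nat.lt_succ_iff.1 hx)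
    rw [cntP_take x r fun τ => KRD.kc U τ + 5 ≤ x]
    push_cast
    by_cases h5 : 5 ≤ x
    · have h4 := cnt_mass (U := U) (n := x) (y := x - 5) (P := fun τ => KRD.kc U τ + 5 ≤ x)
        fun β _ h => by omega
      have h6 : (1 / 2 : ℝ) ^ (x - 5) * 2 ^ x = 32 := by
        obtain ⟨y, rfl⟩ := Nat.exists_eq_add_of_le h5
        rw [Nat.add_sub_cancel_left, pow_add, one_div, inv_pow]
        field_simp
        norm_num
      have h7 : (0 : ℝ) < 2 ^ x := by positivity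
      calc (2 : ℝ) ^ r * cntP x (fun τ => KRD.kc U τ + 5 ≤ x)
          = 2 ^ r * 2 ^ x / 32 * (cntP x (fun τ => KRD.kc U τ + 5 ≤ x) * (1 / 2) ^ (x - 5)) := by
            have : (1 / 2 : ℝ) ^ (x - 5) = 32 / 2 ^ x := by
              rw [eq_div_iff h7.ne']
              exact h6
            rw [this]
            field_simp
        _ ≤ 2 ^ r * 2 ^ x / 32 * mass U x := mul_le_mul_of_nonneg_left h4 (by positivity)
        _ = _ := by rw [pow_add]; ring
    · have h4 : cntP x (fun τ => KRD.kc U τ + 5 ≤ x) = 0 := by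
        have h2 : cntP x (fun τ => KRD.kc U τ + 5 ≤ x) ≤ (∅ : Finset (List Bool)).card :=
          cntP_le_card ∅ fun β _ hβ => absurd hβ (by omega)
        simpa using h2
      rw [h4]
      have := mass_nonneg (U := U) x
      simp only [Nat.cast_zero, mul_zero]
      positivity
  have h4 : (cntP n (NR Q t) : ℝ) ≤
      ∑ x ∈ Finset.range (n + 1), (cntP n (fun β => KRD.kc U (β.take x) + 5 ≤ x) : ℝ) := by
    exact_mod_cast h2
  refine h4.trans ((Finset.sum_le_sum h3).trans ?_)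
  rw [← Finset.mul_sum]
  have h5 := mass_sum hU (Finset.range (n + 1))
  have h6 : (0 : ℝ) ≤ 2 ^ n / 32 := by positivity
  nlinarith

/-- half of the strings are good hosts -/
theorem Gd_bound (hU : IsOptimal ∅ U) (hQ : ∀ β l, KRD.kc U β ≤ l ↔ ∃ k, Q (β, l) k = true)
    (t : ℕ) : 2 ^ pS t ≤ cntP (pS t) (Gd Q t) * 2 := by
  have h1 : cntP (pS t) (fun β => ¬ Gd Q t β) ≤ cntP (pS t) (NR Q t) +
      ∑ j ∈ Finset.range t, cntP (pS t) (fun β => ¬ Xm Q t j β ≤ pa j) := by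
    refine le_trans (cntP_mono (P' := fun β => NR Q t β ∨ ∃ j < t, ¬ Xm Q t j β ≤ pa j)
      fun β _ h => ?_) ((cntP_or _ _ _).trans (Nat.add_le_add_left
        (cntP_exists (pS t) t fun j β => ¬ Xm Q t j β ≤ pa j) _))
    unfold Gd at h
    by_contra h2
    push Not at h2
    exact h ⟨h2.1, fun j hj => (h2.2 j hj)⟩
  have h2 : (cntP (pS t) (fun β => ¬ Gd Q t β) : ℝ) ≤ cntP (pS t) (NR Q t) +
      ∑ j ∈ Finset.range t, (cntP (pS t) (fun β => ¬ Xm Q t j β ≤ pa j) : ℝ) := by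
    exact_mod_cast h1
  have h3 := NR_bound hU hQ t (pS t)
  have h4 : ∑ j ∈ Finset.range t, (cntP (pS t) (fun β => ¬ Xm Q t j β ≤ pa j) : ℝ) ≤
      2 ^ pS t * (1 / 4) := by
    calc ∑ j ∈ Finset.range t, (cntP (pS t) (fun β => ¬ Xm Q t j β ≤ pa j) : ℝ)
        ≤ ∑ j ∈ Finset.range t, (2 : ℝ) ^ pS t * (1 / 4 * (1 / 2) ^ (j + 1)) :=
          Finset.sum_le_sum fun j hj => X_bound hU hQ (Finset.mem_range.1 hj)
      _ = 2 ^ pS t * (1 / 4) * ∑ j ∈ Finset.range t, (1 / 2 : ℝ) ^ (j + 1) := by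
          rw [Finset.mul_sum]
          exact Finset.sum_congr rfl fun j _ => by ring
      _ ≤ 2 ^ pS t * (1 / 4) * 1 := mul_le_mul_of_nonneg_left (half_sum t) (by positivity)
      _ = _ := mul_one _
  have h5 : (cntP (pS t) (Gd Q t) : ℝ) + cntP (pS t) (fun β => ¬ Gd Q t β) = 2 ^ pS t := by
    exact_mod_cast cntP_not (pS t) (Gd Q t)
  have h6 : (2 : ℝ) ^ pS t ≤ cntP (pS t) (Gd Q t) * 2 := by
    have h7 : (0 : ℝ) < 2 ^ pS t := by positivity
    linarith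
  exact_mod_cast h6

end mass

end KDV
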