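import Pool.Agent.KDV.Cheb

/-!
# The parameters
-/

namespace KDV

/-- the excess of the number of the levels of a batch, as a function of the parameters -/
def gmp (j : ℕ) (p : ℕ × ℕ × ℕ) : ℕ := 16 * (p.1 + p.2.1 + (j + 4) * 2 ^ j + j + 8)

/-- the budget of a batch, as a function of the parameters -/
def pap (j : ℕ) (p : ℕ × ℕ × ℕ) : ℕ := (j + 4) * 2 ^ (j + gmp j p)

/-- the error of a batch, as a function of the parameters -/
def nup (j : ℕ) (p : ℕ × ℕ × ℕ) : ℕ := 8 * (p.1 + p.2.1 + pap j p + j + 8 + gmp j p)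

/-- one step of the recursion of the parameters -/
def pstep (j : ℕ) (p : ℕ × ℕ × ℕ) : ℕ × ℕ × ℕ :=
  (p.1 + (nup j p + gmp j p) + 1, p.2.1 + 2 * pap j p + 1,
    p.2.2 + 2 ^ (nup j p + gmp j p) * (2 * pap j p))

/-- the parameters -/
def par (j : ℕ) : ℕ × ℕ × ℕ := Nat.rec (0, 1, 0) (fun j p => pstep j p) j

/-- length of the codes -/
def pe (j : ℕ) : ℕ := (par j).1
/-- logarithm of the density -/
def pm (j : ℕ) : ℕ := (par j).2.1
/-- beginning of the batch -/
def pS (j : ℕ) : ℕ := (par j).2.2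
/-- the excess of the number of the levels of a batch -/
def gm (j : ℕ) : ℕ := gmp j (par j)
/-- the budget of a batch -/
def pa (j : ℕ) : ℕ := pap j (par j)
/-- the error of a batch -/
def nu (j : ℕ) : ℕ := nup j (par j)
/-- logarithm of the number of the levels of the batch -/
def nw (j : ℕ) : ℕ := nu j + gm j
/-- the levels -/
def lv (j i : ℕ) : ℕ := pS j + (i + 1) * (2 * pa j)
/-- the weight exponent of the levels -/
def eh (j : ℕ) : ℕ := nw j + j + 1

theorem pe_zero : pe 0 = 0 := rfl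
theorem pm_zero : pm 0 = 1 := rfl
theorem pS_zero : pS 0 = 0 := rfl
theorem pe_succ (j : ℕ) : pe (j + 1) = pe j + nw j + 1 := rfl
theorem pm_succ (j : ℕ) : pm (j + 1) = pm j + 2 * pa j + 1 := rfl
theorem pS_succ (j : ℕ) : pS (j + 1) = pS j + 2 ^ nw j * (2 * pa j) := rfl
theorem gm_eq (j : ℕ) : gm j = 16 * (pe j + pm j + (j + 4) * 2 ^ j + j + 8) := rfl
theorem nu_eq (j : ℕ) : nu j = 8 * (pe j + pm j + pa j + j + 8 + gm j) := rfl
theorem pa_eq (j : ℕ) : pa j = (j + 4) * 2 ^ (j + gm j) := rfl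
theorem nw_eq (j : ℕ) : nw j = nu j + gm j := rfl

attribute [irreducible] gmp pap nup pstep par pe pm pS gm pa nu nw

theorem pr_two_pow {α : Type} [Primcodable α] {f : α → ℕ} (hf : Primrec f) :
    Primrec fun a => 2 ^ f a := pr_pow.comp (Primrec.const 2) hf

theorem pr_gmp : Primrec fun x : ℕ × ℕ × ℕ × ℕ => gmp x.1 x.2 := by
  unfold gmp
  exact Primrec.nat_mul.comp (Primrec.const 16) (Primrec.nat_add.comp (Primrec.nat_add.comp
    (Primrec.nat_add.comp (Primrec.nat_add.comp (Primrec.fst.comp Primrec.snd)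
      (Primrec.fst.comp (Primrec.snd.comp Primrec.snd)))
      (Primrec.nat_mul.comp (Primrec.nat_add.comp Primrec.fst (Primrec.const 4))
        (pr_two_pow Primrec.fst))) Primrec.fst) (Primrec.const 8))

theorem pr_pap : Primrec fun x : ℕ × ℕ × ℕ × ℕ => pap x.1 x.2 := by
  unfold pap
  exact Primrec.nat_mul.comp (Primrec.nat_add.comp Primrec.fst (Primrec.const 4))
    (pr_two_pow (Primrec.nat_add.comp Primrec.fst pr_gmp))

theorem pr_nup : Primrec fun x : ℕ × ℕ × ℕ × ℕ => nup x.1 x.2 := by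
  unfold nup
  exact Primrec.nat_mul.comp (Primrec.const 8) (Primrec.nat_add.comp (Primrec.nat_add.comp
    (Primrec.nat_add.comp (Primrec.nat_add.comp (Primrec.nat_add.comp
      (Primrec.fst.comp Primrec.snd) (Primrec.fst.comp (Primrec.snd.comp Primrec.snd))) pr_pap)
      Primrec.fst) (Primrec.const 8)) pr_gmp)

theorem pr_par : Primrec par := by
  unfold par
  refine Primrec.nat_rec' (f := fun x : ℕ => x) (g := fun _ => ((0, 1, 0) : ℕ × ℕ × ℕ))
    (h := fun (_ : ℕ) (q : ℕ × ℕ × ℕ × ℕ) => pstep q.1 q.2) Primrec.id (Primrec.const _) ?_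
  have h3 : Primrec fun q : ℕ × ℕ × ℕ × ℕ => pstep q.1 q.2 := by
    unfold pstep
    have h4 := Primrec.nat_add.comp pr_nup pr_gmp
    have h5 : Primrec fun x : ℕ × ℕ × ℕ × ℕ => 2 * pap x.1 x.2 :=
      Primrec.nat_mul.comp (Primrec.const 2) pr_pap
    exact Primrec.pair (Primrec.succ.comp (Primrec.nat_add.comp
      (Primrec.fst.comp Primrec.snd) h4))
      (Primrec.pair (Primrec.succ.comp (Primrec.nat_add.comp
        (Primrec.fst.comp (Primrec.snd.comp Primrec.snd)) h5))
        (Primrec.nat_add.comp (Primrec.snd.comp (Primrec.snd.comp Primrec.snd))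
          (Primrec.nat_mul.comp (pr_two_pow h4) h5)))
  exact (h3.comp Primrec.snd).to₂

theorem pr_pe : Primrec pe := by
  unfold pe
  exact Primrec.fst.comp pr_par
theorem pr_pm : Primrec pm := by
  unfold pm
  exact Primrec.fst.comp (Primrec.snd.comp pr_par)
theorem pr_pS : Primrec pS := by
  unfold pS
  exact Primrec.snd.comp (Primrec.snd.comp pr_par)
theorem pr_gm : Primrec gm := by
  unfold gm
  exact pr_gmp.comp (Primrec.pair Primrec.id pr_par)
theorem pr_pa : Primrec pa := by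
  unfold pa
  exact pr_pap.comp (Primrec.pair Primrec.id pr_par)
theorem pr_nu : Primrec nu := by
  unfold nu
  exact pr_nup.comp (Primrec.pair Primrec.id pr_par)
theorem pr_nw : Primrec nw := by
  unfold nw
  exact Primrec.nat_add.comp pr_nu pr_gm
theorem pr_lv {α : Type} [Primcodable α] {f g : α → ℕ} (hf : Primrec f) (hg : Primrec g) :
    Primrec fun a => lv (f a) (g a) :=
  Primrec.nat_add.comp (pr_pS.comp hf) (Primrec.nat_mul.comp (Primrec.succ.comp hg)
    (Primrec.nat_mul.comp (Primrec.const 2) (pr_pa.comp hf)))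
theorem pr_eh : Primrec eh :=
  Primrec.succ.comp (Primrec.nat_add.comp pr_nw Primrec.id)

theorem pa_pos (j : ℕ) : 0 < pa j := by rw [pa_eq]; positivity

theorem le_pa (j : ℕ) : j + 4 ≤ pa j := by
  rw [pa_eq]
  exact Nat.le_mul_of_pos_right _ (by positivity)

theorem pS_mono : Monotone pS := monotone_nat_of_le_succ fun j => by rw [pS_succ]; omega

theorem pe_mono : Monotone pe := monotone_nat_of_le_succ fun j => by rw [pe_succ]; omega

theorem lv_le {j i : ℕ} (hi : i < 2 ^ nw j) : lv j i ≤ pS (j + 1) := by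
  rw [pS_succ, lv]
  exact Nat.add_le_add_left (Nat.mul_le_mul_right _ hi) _

theorem lv_le' {j i t : ℕ} (hi : i < 2 ^ nw j) (ht : j < t) : lv j i ≤ pS t :=
  (lv_le hi).trans (pS_mono ht)

theorem pS_lt_lv (j i : ℕ) : pS j < lv j i := by
  unfold lv
  have := pa_pos j
  have : 0 < (i + 1) * (2 * pa j) := by positivity
  omega

theorem lv_strict (j : ℕ) : StrictMono (lv j) := by
  intro i i' h
  unfold lv
  have := pa_pos j
  exact Nat.add_lt_add_left (Nat.mul_lt_mul_of_pos_right (by omega) (by omega)) _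

theorem lv_inj {j i j' i' : ℕ} (hi : i < 2 ^ nw j) (hi' : i' < 2 ^ nw j')
    (h : lv j i = lv j' i') : j = j' ∧ i = i' := by
  have h1 : j = j' := by
    rcases lt_trichotomy j j' with h2 | h2 | h2
    · have h3 := lv_le' hi h2
      have h4 := pS_lt_lv j' i'
      omega
    · exact h2
    · have h3 := lv_le' hi' h2
      have h4 := pS_lt_lv j i
      omega
  subst h1
  exact ⟨rfl, (lv_strict j).injective h⟩

theorem lt_lv (j i : ℕ) : i < lv j i := by
  unfold lv
  have h1 := pa_pos j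
  have h2 : (i + 1) * 1 ≤ (i + 1) * (2 * pa j) := Nat.mul_le_mul_left _ (by omega)
  omega

theorem lt_lv' (j i : ℕ) : j < lv j i := by
  unfold lv
  have h1 := le_pa j
  have h2 : 1 * (2 * pa j) ≤ (i + 1) * (2 * pa j) := Nat.mul_le_mul_right _ (by omega)
  omega

theorem pa_le_lv (j i : ℕ) : pa j ≤ lv j i := by
  unfold lv
  have h2 : 1 * (2 * pa j) ≤ (i + 1) * (2 * pa j) := Nat.mul_le_mul_right _ (by omega)
  omega

theorem le_pS (t : ℕ) : t ≤ pS t := by
  induction t with
  | zero => exact Nat.zero_le _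
  | succ t ih =>
    have h1 := lv_le (j := t) (i := 0) (by positivity)
    have h2 := lt_lv' t 0
    omega

/-- the arithmetic of the flags -/
theorem flag_arith (j : ℕ) : 2 ^ (pa j + 1) * (2 ^ pe j * (4 ^ (pa j + 1) * (2 ^ (2 * pm j) *
    ((eh j + 1) * (j + 4) * 2 ^ gm j)))) ≤ 2 ^ (nu j + 8) := by
  set w := pe j + pm j + pa j + j + 8 + gm j with hw
  have h1 : nu j = 8 * w := nu_eq j
  have h2 : w ≤ 2 ^ w := Nat.lt_two_pow_self.le
  have h3 : eh j + 1 ≤ 2 ^ (4 + w) := by
    unfold eh nw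
    rw [h1, pow_add]
    have : 8 * w + gm j + j + 1 + 1 ≤ 16 * w := by omega
    calc 8 * w + gm j + j + 1 + 1 ≤ 16 * w := this
      _ ≤ 2 ^ 4 * 2 ^ w := by
          have : (2 : ℕ) ^ 4 = 16 := by norm_num
          rw [this]
          exact Nat.mul_le_mul_left _ h2
  have h4 : j + 4 ≤ 2 ^ w := by omega
  have h5 : (4 : ℕ) ^ (pa j + 1) = 2 ^ (2 * (pa j + 1)) := by
    rw [pow_mul]
    norm_num
  rw [h5]
  calc 2 ^ (pa j + 1) * (2 ^ pe j * (2 ^ (2 * (pa j + 1)) * (2 ^ (2 * pm j) *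
        ((eh j + 1) * (j + 4) * 2 ^ gm j))))
      ≤ 2 ^ (pa j + 1) * (2 ^ pe j * (2 ^ (2 * (pa j + 1)) * (2 ^ (2 * pm j) *
        (2 ^ (4 + w) * 2 ^ w * 2 ^ gm j)))) := by gcongr
    _ = 2 ^ ((pa j + 1) + (pe j + (2 * (pa j + 1) + (2 * pm j + ((4 + w) + w + gm j))))) := by
        simp only [pow_add]
    _ ≤ 2 ^ (nu j + 8) := by
        refine Nat.pow_le_pow_right (by norm_num) ?_
        rw [h1]
        omega

/-- there are many levels -/
theorem many_levels (j : ℕ) : nu j * 2 ^ nu j ≤ (nu j).size * 2 ^ nw j := by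
  have h1 : gm j < 2 ^ gm j := Nat.lt_two_pow_self
  have h2 : pa j = ((j + 4) * 2 ^ j) * 2 ^ gm j := by rw [pa_eq, pow_add]; ring
  have h3 : nu j ≤ gm j * 2 ^ gm j := by
    have h4 := gm_eq j
    set y := (j + 4) * 2 ^ j with hy
    calc nu j = 8 * y * 2 ^ gm j + 8 * (pe j + pm j + j + 8 + gm j) := by
          rw [nu_eq, h2]; ring
      _ ≤ 8 * y * 2 ^ gm j + 16 * 2 ^ gm j := by omega
      _ = (8 * y + 16) * 2 ^ gm j := by ring
      _ ≤ gm j * 2 ^ gm j := Nat.mul_le_mul_right _ (by omega)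
  have h5 : gm j ≤ (nu j).size := by
    rw [Nat.le_iff_lt_or_eq]
    left
    rw [Nat.lt_size, nu_eq]
    have h6 : 2 ^ gm j ≤ pa j := by
      rw [h2]
      exact Nat.le_mul_of_pos_left _ (by positivity)
    omega
  calc nu j * 2 ^ nu j ≤ (gm j * 2 ^ gm j) * 2 ^ nu j := Nat.mul_le_mul_right _ h3
    _ = gm j * 2 ^ nw j := by
        unfold nw
        rw [pow_add]
        ring
    _ ≤ _ := Nat.mul_le_mul_right _ h5

end KDV
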