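import Pool.Agent.KDV.Par

/-!
# The stages: definitions, monotonicity, computability
-/

namespace KDV

open AC Low4 Encodable Denumerable

/-! ### counting -/

open Classical in
/-- the number of the strings of length `n` with the property -/
noncomputable def cntP (n : ℕ) (P : List Bool → Prop) : ℕ :=
  ((TA.strs n).filter fun β => decide (P β)).length

open Classical in
/-- the number of the numbers below `n` with the property -/
noncomputable def cntN (n : ℕ) (P : ℕ → Prop) : ℕ :=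
  ((List.range n).filter fun u => decide (P u)).length

open Classical in
theorem cntP_eq (n : ℕ) (P : List Bool → Prop) : cntP n P = ((Sx n).filter P).card := by
  unfold cntP
  rw [← List.toFinset_card_of_nodup ((TA.nodup_strs n).filter _)]
  congr 1
  ext β
  rw [List.mem_toFinset, List.mem_filter, Finset.mem_filter, mem_Sx, TA.mem_strs,
    decide_eq_true_iff]

open Classical in
theorem cntN_eq (n : ℕ) (P : ℕ → Prop) : cntN n P = ((Finset.range n).filter P).card := by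
  unfold cntN
  rw [← List.toFinset_card_of_nodup (List.nodup_range.filter _)]
  congr 1
  ext u
  rw [List.mem_toFinset, List.mem_filter, Finset.mem_filter, List.mem_range, Finset.mem_range,
    decide_eq_true_iff]

theorem cntP_mono {n : ℕ} {P P' : List Bool → Prop} (h : ∀ β, β.length = n → P β → P' β) :
    cntP n P ≤ cntP n P' := by
  classical
  rw [cntP_eq, cntP_eq]
  refine Finset.card_le_card fun β hβ => ?_
  rw [Finset.mem_filter, mem_Sx] at hβ ⊢
  exact ⟨hβ.1, h β hβ.1 hβ.2⟩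

theorem cntP_congr {n : ℕ} {P P' : List Bool → Prop} (h : ∀ β, β.length = n → (P β ↔ P' β)) :
    cntP n P = cntP n P' :=
  le_antisymm (cntP_mono fun β hβ => (h β hβ).1) (cntP_mono fun β hβ => (h β hβ).2)

theorem cntN_mono {n : ℕ} {P P' : ℕ → Prop} (h : ∀ u < n, P u → P' u) :
    cntN n P ≤ cntN n P' := by
  classical
  rw [cntN_eq, cntN_eq]
  refine Finset.card_le_card fun β hβ => ?_
  rw [Finset.mem_filter, Finset.mem_range] at hβ ⊢
  exact ⟨hβ.1, h β hβ.1 hβ.2⟩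

theorem cntP_le (n : ℕ) (P : List Bool → Prop) : cntP n P ≤ 2 ^ n := by
  classical
  rw [cntP_eq, ← card_Sx]
  exact Finset.card_filter_le _ _

theorem cntP_le_card {n : ℕ} {P : List Bool → Prop} (S : Finset (List Bool))
    (h : ∀ β, β.length = n → P β → β ∈ S) : cntP n P ≤ S.card := by
  classical
  rw [cntP_eq]
  refine Finset.card_le_card fun β hβ => ?_
  rw [Finset.mem_filter, mem_Sx] at hβ
  exact h β hβ.1 hβ.2

theorem cntP_or (n : ℕ) (P P' : List Bool → Prop) :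
    cntP n (fun β => P β ∨ P' β) ≤ cntP n P + cntP n P' := by
  classical
  rw [cntP_eq n P, cntP_eq n P']
  refine (cntP_le_card ((Sx n).filter P ∪ (Sx n).filter P') fun β h1 h2 => ?_).trans
    (Finset.card_union_le _ _)
  rw [Finset.mem_union, Finset.mem_filter, Finset.mem_filter, mem_Sx]
  rcases h2 with h2 | h2
  · exact Or.inl ⟨h1, h2⟩
  · exact Or.inr ⟨h1, h2⟩

theorem cntP_exists (n N : ℕ) (P : ℕ → List Bool → Prop) :
    cntP n (fun β => ∃ x < N, P x β) ≤ ∑ x ∈ Finset.range N, cntP n (P x) := by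
  classical
  have h0 : ∀ x, cntP n (P x) = ((Sx n).filter (P x)).card := fun x => by
    rw [cntP_eq]
  rw [Finset.sum_congr rfl fun x _ => h0 x]
  refine (cntP_le_card ((Finset.range N).biUnion fun x => (Sx n).filter (P x))
    fun β h1 h => ?_).trans Finset.card_biUnion_le
  obtain ⟨x, hx, h2⟩ := h
  rw [Finset.mem_biUnion]
  exact ⟨x, Finset.mem_range.2 hx, Finset.mem_filter.2 ⟨mem_Sx.2 h1, h2⟩⟩

theorem cntP_not (n : ℕ) (P : List Bool → Prop) :
    cntP n P + cntP n (fun β => ¬ P β) = 2 ^ n := by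
  classical
  rw [cntP_eq, cntP_eq, Finset.card_filter_add_card_filter_not, card_Sx]

theorem cntP_take (m r : ℕ) (P : List Bool → Prop) :
    cntP (m + r) (fun β => P (β.take m)) = 2 ^ r * cntP m P := by
  classical
  rw [cntP_eq, cntP_eq, Finset.card_filter, Finset.card_filter, sum_Sx_add, Finset.mul_sum]
  refine Finset.sum_congr rfl fun α hα => ?_
  rw [mem_Sx] at hα
  have h1 : ∀ b : List Bool, (α ++ b).take m = α := fun b => by
    rw [← hα, List.take_left]
  simp only [h1]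
  rw [Finset.sum_const, card_Sx, smul_eq_mul]

theorem pr_cntP {α : Type} [Primcodable α] {P : α → List Bool → Prop} {n : α → ℕ}
    (hP : PrimrecPred fun z : α × List Bool => P z.1 z.2) (hn : Primrec n) :
    Primrec fun a => cntP (n a) (P a) := by
  unfold cntP
  exact pr_count (l := fun a => TA.strs (n a)) hP (TA.primrec_strs.comp hn)

theorem pr_cntN {α : Type} [Primcodable α] {P : α → ℕ → Prop} {n : α → ℕ}
    (hP : PrimrecPred fun z : α × ℕ => P z.1 z.2) (hn : Primrec n) :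
    Primrec fun a => cntN (n a) (P a) := by
  unfold cntN
  exact pr_count (l := fun a => List.range (n a)) hP (Primrec.list_range.comp hn)

attribute [irreducible] cntP cntN

/-! ### definitions -/

/-- the bits of a string, continued by zeros -/
def ev (α : List Bool) (n : ℕ) : Bool := α.getD n false

section defs

variable (Q : List Bool × ℕ → ℕ → Bool)

/-- at stage `t`, the complexity of `β` is seen to be at most `l` -/
def KL (t : ℕ) (β : List Bool) (l : ℕ) : Prop := ∃ l' < l + 1, ∃ k < t + 1, Q (β, l') k = true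

/-- at stage `t`, the level has much mass -/
def MR (t j i r : ℕ) : Prop :=
  ∃ y < lv j i + eh j + 1, 2 ^ (y + r) ≤ cntP (lv j i) (fun β => KL Q t β y) * 2 ^ eh j

/-- `β` is marked at the level, with height `k`, by stage `t` -/
def Mk (t j i k : ℕ) (β : List Bool) : Prop :=
  ∃ t' < t + 1, ∃ r < eh j + 2, ∃ l < lv j i + eh j + 1,
    ¬ MR Q t' j i (r + 1) ∧ KL Q t' (β.take (lv j i)) l ∧ l + r + 4 + k ≤ lv j i + gm j + j + 1

/-- the lucky blocks -/
def Lk (j i k : ℕ) (a : ℕ → Bool) : Prop := ∀ s < 2 * k, a (pS j + i * (2 * pa j) + s) = true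

/-- the constraint at a level -/
def Cn (t j i : ℕ) (a : ℕ → Bool) (β : List Bool) : Prop :=
  ∀ k < pa j + 1, Mk Q t j i k β → Lk j i k a

/-- the number of the marks in the batch -/
noncomputable def Xm (t j : ℕ) (β : List Bool) : ℕ :=
  cntN (2 ^ nw j * (pa j + 1)) fun u => Mk Q t j (u / (pa j + 1)) (u % (pa j + 1) + 1) β

/-- `β` is seen not to be random -/
def NR (t : ℕ) (β : List Bool) : Prop :=
  ∃ n < β.length + 1, ∃ l < n + 1, KL Q t (β.take n) l ∧ l + 4 < n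

/-- the good hosts -/
def Gd (t : ℕ) (β : List Bool) : Prop := ¬ NR Q t β ∧ ∀ j < t, Xm Q t j β ≤ pa j

/-- the digits of a code -/
def dg (m j : ℕ) : ℕ := m / 2 ^ pe j % 2 ^ (nw j + 1)

/-- the hosts for a code -/
def Hc (t j m : ℕ) (a : ℕ → Bool) (β : List Bool) : Prop :=
  Gd Q t β ∧ ∀ j' < j, ∀ i < min (dg m j') (2 ^ nw j'), Cn Q t j' i a β

/-- the hosts for a code and the first levels of the next batch -/
def Hn (t j m i : ℕ) (a : ℕ → Bool) (β : List Bool) : Prop :=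
  Hc Q t j m a β ∧ ∀ i' < i + 1, Cn Q t j i' a β

/-- there are many hosts -/
def Gu (t j m : ℕ) (a : ℕ → Bool) : Prop :=
  2 ^ pS t ≤ cntP (pS t) (Hc Q t j m a) * 2 ^ pm j

/-- there are few hosts -/
def Sm (t j m i : ℕ) (a : ℕ → Bool) : Prop :=
  cntP (pS t) (Hn Q t j m i a) * 2 ^ pm (j + 1) < 2 ^ pS t

/-- the flags -/
def Fl (j i : ℕ) (a : ℕ → Bool) : Prop :=
  ∃ t, j < t ∧ ∃ m < 2 ^ pe j, Gu Q t j m a ∧ Sm Q t j m i a

end defs

attribute [irreducible] dg

/-! ### monotonicity -/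

section mono

variable {Q : List Bool × ℕ → ℕ → Bool}

theorem KL.mono {t t' l l' : ℕ} {β : List Bool} (h : KL Q t β l) (ht : t ≤ t') (hl : l ≤ l') :
    KL Q t' β l' := by
  obtain ⟨x, hx, k, hk, h1⟩ := h
  exact ⟨x, by omega, k, by omega, h1⟩

theorem MR.mono {t t' j i r : ℕ} (h : MR Q t j i r) (ht : t ≤ t') : MR Q t' j i r := by
  obtain ⟨y, hy, h1⟩ := h
  exact ⟨y, hy, h1.trans (Nat.mul_le_mul_right _ (cntP_mono fun β _ h => h.mono ht le_rfl))⟩

theorem MR.anti {t j i r r' : ℕ} (h : MR Q t j i r) (hr : r' ≤ r) : MR Q t j i r' := by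
  obtain ⟨y, hy, h1⟩ := h
  exact ⟨y, hy, (Nat.pow_le_pow_right (by norm_num) (by omega)).trans h1⟩

theorem Mk.mono {t t' j i k : ℕ} {β : List Bool} (h : Mk Q t j i k β) (ht : t ≤ t') :
    Mk Q t' j i k β := by
  obtain ⟨x, hx, r, hr, l, hl, h1⟩ := h
  exact ⟨x, by omega, r, hr, l, hl, h1⟩

theorem Mk.anti {t j i k k' : ℕ} {β : List Bool} (h : Mk Q t j i k β) (hk : k' ≤ k) :
    Mk Q t j i k' β := by
  obtain ⟨x, hx, r, hr, l, hl, h1, h2, h3⟩ := h
  exact ⟨x, hx, r, hr, l, hl, h1, h2, by omega⟩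

theorem Mk_take {t j i k n : ℕ} {β : List Bool} (hn : lv j i ≤ n) :
    Mk Q t j i k (β.take n) ↔ Mk Q t j i k β := by
  unfold Mk
  rw [List.take_take, min_eq_left hn]

theorem Cn.mono {t t' j i : ℕ} {a : ℕ → Bool} {β : List Bool} (h : Cn Q t' j i a β)
    (ht : t ≤ t') : Cn Q t j i a β := fun k hk h1 => h k hk (h1.mono ht)

theorem Cn_take {t j i n : ℕ} {a : ℕ → Bool} {β : List Bool} (hn : lv j i ≤ n) :
    Cn Q t j i a (β.take n) ↔ Cn Q t j i a β := by
  unfold Cn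
  simp only [Mk_take hn]

theorem div_lt {j u : ℕ} (hu : u < 2 ^ nw j * (pa j + 1)) : u / (pa j + 1) < 2 ^ nw j :=
  Nat.div_lt_of_lt_mul (by rwa [mul_comm] at hu)

theorem Xm_mono {t t' j : ℕ} {β : List Bool} (ht : t ≤ t') : Xm Q t j β ≤ Xm Q t' j β :=
  cntN_mono fun _ _ h => h.mono ht

theorem Xm_take {t j n : ℕ} {β : List Bool} (hn : pS (j + 1) ≤ n) :
    Xm Q t j (β.take n) = Xm Q t j β := by
  refine le_antisymm ?_ ?_
  · exact cntN_mono fun u hu h => (Mk_take ((lv_le (div_lt hu)).trans hn)).1 h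
  · exact cntN_mono fun u hu h => (Mk_take ((lv_le (div_lt hu)).trans hn)).2 h

theorem NR.mono {t t' n : ℕ} {β : List Bool} (h : NR Q t (β.take n)) (ht : t ≤ t') :
    NR Q t' β := by
  obtain ⟨x, hx, l, hl, h1, h2⟩ := h
  rw [List.length_take] at hx
  rw [List.take_take, min_eq_left (by omega)] at h1
  exact ⟨x, by omega, l, hl, h1.mono ht le_rfl, h2⟩

theorem Gd.mono {t t' : ℕ} {β : List Bool} (h : Gd Q t' β) (ht : t ≤ t') :
    Gd Q t (β.take (pS t)) := by
  refine ⟨fun h1 => h.1 (h1.mono ht), fun j hj => ?_⟩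
  rw [Xm_take (pS_mono hj)]
  exact (Xm_mono ht).trans (h.2 j (by omega))

theorem Hc.mono {t t' j m : ℕ} {a : ℕ → Bool} {β : List Bool} (h : Hc Q t' j m a β)
    (ht : t ≤ t') (hj : j ≤ t) : Hc Q t j m a (β.take (pS t)) := by
  refine ⟨h.1.mono ht, fun j' hj' i hi => ?_⟩
  rw [Cn_take (lv_le' (lt_of_lt_of_le hi (min_le_right _ _)) (by omega))]
  exact (h.2 j' hj' i hi).mono ht

theorem Hn.mono {t t' j m i : ℕ} {a : ℕ → Bool} {β : List Bool} (h : Hn Q t' j m i a β)
    (ht : t ≤ t') (hj : j < t) (hi : i < 2 ^ nw j) : Hn Q t j m i a (β.take (pS t)) := by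
  refine ⟨h.1.mono ht hj.le, fun i' hi' => ?_⟩
  rw [Cn_take (lv_le' (by omega) hj)]
  exact (h.2 i' hi').mono ht

theorem Gu.mono {t t' j m : ℕ} {a : ℕ → Bool} (h : Gu Q t' j m a) (ht : t ≤ t') (hj : j ≤ t) :
    Gu Q t j m a := by
  obtain ⟨r, hr⟩ := Nat.exists_eq_add_of_le (pS_mono ht)
  unfold Gu at h ⊢
  have h1 : cntP (pS t') (Hc Q t' j m a) ≤ 2 ^ r * cntP (pS t) (Hc Q t j m a) := by
    rw [← cntP_take, hr]
    exact cntP_mono fun β _ hβ => hβ.mono ht hj
  have h2 : 2 ^ r * 2 ^ pS t ≤ 2 ^ r * (cntP (pS t) (Hc Q t j m a) * 2 ^ pm j) := by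
    calc 2 ^ r * 2 ^ pS t = 2 ^ pS t' := by rw [hr, pow_add, mul_comm]
      _ ≤ cntP (pS t') (Hc Q t' j m a) * 2 ^ pm j := h
      _ ≤ (2 ^ r * cntP (pS t) (Hc Q t j m a)) * 2 ^ pm j := Nat.mul_le_mul_right _ h1
      _ = _ := by ring
  exact Nat.le_of_mul_le_mul_left h2 (by positivity)

theorem Sm.mono {t t' j m i : ℕ} {a : ℕ → Bool} (h : Sm Q t j m i a) (ht : t ≤ t') (hj : j < t)
    (hi : i < 2 ^ nw j) : Sm Q t' j m i a := by
  obtain ⟨r, hr⟩ := Nat.exists_eq_add_of_le (pS_mono ht)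
  unfold Sm at h ⊢
  have h1 : cntP (pS t') (Hn Q t' j m i a) ≤ 2 ^ r * cntP (pS t) (Hn Q t j m i a) := by
    rw [← cntP_take, hr]
    exact cntP_mono fun β _ hβ => hβ.mono ht hj hi
  calc cntP (pS t') (Hn Q t' j m i a) * 2 ^ pm (j + 1)
      ≤ (2 ^ r * cntP (pS t) (Hn Q t j m i a)) * 2 ^ pm (j + 1) := Nat.mul_le_mul_right _ h1
    _ = 2 ^ r * (cntP (pS t) (Hn Q t j m i a) * 2 ^ pm (j + 1)) := by ring
    _ < 2 ^ r * 2 ^ pS t := Nat.mul_lt_mul_of_pos_left h (by positivity)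
    _ = 2 ^ pS t' := by rw [hr, pow_add, mul_comm]

theorem Sm.up {t j m i i' : ℕ} {a : ℕ → Bool} (h : Sm Q t j m i a) (hi : i ≤ i') :
    Sm Q t j m i' a := by
  unfold Sm at h ⊢
  refine lt_of_le_of_lt (Nat.mul_le_mul_right _ (cntP_mono fun β _ hβ => ?_)) h
  exact ⟨hβ.1, fun x hx => hβ.2 x (by omega)⟩

/-! ### only the first bits of the set count -/

theorem Lk_congr {j i k N : ℕ} {a a' : ℕ → Bool} (h : ∀ n < N, a n = a' n) (hN : lv j i ≤ N)
    (hk : k < pa j + 1) : Lk j i k a ↔ Lk j i k a' := by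
  unfold Lk
  refine forall_congr' fun s => forall_congr' fun hs => ?_
  rw [h]
  unfold lv at hN
  rw [Nat.add_mul] at hN
  omega

theorem Cn_congr {t j i N : ℕ} {a a' : ℕ → Bool} {β : List Bool} (h : ∀ n < N, a n = a' n)
    (hN : lv j i ≤ N) : Cn Q t j i a β ↔ Cn Q t j i a' β := by
  unfold Cn
  exact forall_congr' fun k => forall_congr' fun hk => imp_congr Iff.rfl (Lk_congr h hN hk)

theorem Hc_congr {t j m N : ℕ} {a a' : ℕ → Bool} {β : List Bool} (h : ∀ n < N, a n = a' n)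
    (hN : pS j ≤ N) : Hc Q t j m a β ↔ Hc Q t j m a' β := by
  unfold Hc
  refine and_congr Iff.rfl ?_
  refine forall_congr' fun j' => forall_congr' fun hj => forall_congr' fun i =>
    forall_congr' fun hi => Cn_congr h ?_
  exact (lv_le' (lt_of_lt_of_le hi (min_le_right _ _)) hj).trans hN

theorem Hn_congr {t j m i N : ℕ} {a a' : ℕ → Bool} {β : List Bool} (h : ∀ n < N, a n = a' n)
    (hN : lv j i ≤ N) : Hn Q t j m i a β ↔ Hn Q t j m i a' β := by
  unfold Hn
  refine and_congr (Hc_congr h ((pS_lt_lv j i).le.trans hN)) ?_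
  refine forall_congr' fun i' => forall_congr' fun hi => Cn_congr h ?_
  exact ((lv_strict j).monotone (by omega)).trans hN

theorem Gu_congr {t j m N : ℕ} {a a' : ℕ → Bool} (h : ∀ n < N, a n = a' n) (hN : pS j ≤ N) :
    Gu Q t j m a ↔ Gu Q t j m a' := by
  unfold Gu
  rw [cntP_congr fun β _ => Hc_congr h hN]

theorem Sm_congr {t j m i N : ℕ} {a a' : ℕ → Bool} (h : ∀ n < N, a n = a' n)
    (hN : lv j i ≤ N) : Sm Q t j m i a ↔ Sm Q t j m i a' := by
  unfold Sm
  rw [cntP_congr fun β _ => Hn_congr h hN]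

end mono

/-! ### computability -/

section comp

variable {Q : List Bool × ℕ → ℕ → Bool} {α : Type} [Primcodable α]

theorem pp_le {f g : α → ℕ} (hf : Primrec f) (hg : Primrec g) : PrimrecPred fun a => f a ≤ g a :=
  Primrec.nat_le.comp hf hg

theorem pp_lt {f g : α → ℕ} (hf : Primrec f) (hg : Primrec g) : PrimrecPred fun a => f a < g a :=
  Primrec.nat_lt.comp hf hg

theorem pp_true {f : α → Bool} (hf : Primrec f) : PrimrecPred fun a => f a = true :=
  Primrec.eq.comp hf (Primrec.const true)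

theorem pp_imp {p q : α → Prop} (hp : PrimrecPred p) (hq : PrimrecPred q) :
    PrimrecPred fun a => p a → q a :=
  (hp.not.or hq).of_eq fun _ => imp_iff_not_or.symm

theorem pp_KL (hQ : Primrec₂ Q) {t l : α → ℕ} {β : α → List Bool} (ht : Primrec t)
    (hβ : Primrec β) (hl : Primrec l) : PrimrecPred fun a => KL Q (t a) (β a) (l a) := by
  unfold KL
  refine pp_exists (f := fun a => l a + 1) (P := fun a l' => ∃ k < t a + 1, Q (β a, l') k = true)
    ?_ (Primrec.succ.comp hl)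
  refine pp_exists (f := fun z : α × ℕ => t z.1 + 1) (P := fun z k => Q (β z.1, z.2) k = true)
    ?_ (Primrec.succ.comp (ht.comp Primrec.fst))
  exact pp_true (hQ.comp (Primrec.pair (hβ.comp (Primrec.fst.comp Primrec.fst))
    (Primrec.snd.comp Primrec.fst)) Primrec.snd)

theorem pp_MR (hQ : Primrec₂ Q) {t j i r : α → ℕ} (ht : Primrec t) (hj : Primrec j)
    (hi : Primrec i) (hr : Primrec r) : PrimrecPred fun a => MR Q (t a) (j a) (i a) (r a) := by
  unfold MR
  refine pp_exists (f := fun a => lv (j a) (i a) + eh (j a) + 1) (P := fun a y =>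
    2 ^ (y + r a) ≤ cntP (lv (j a) (i a)) (fun β => KL Q (t a) β y) * 2 ^ eh (j a)) ?_
    (Primrec.succ.comp (Primrec.nat_add.comp (pr_lv hj hi) (pr_eh.comp hj)))
  refine pp_le (pr_two_pow (Primrec.nat_add.comp Primrec.snd (hr.comp Primrec.fst)))
    (Primrec.nat_mul.comp ?_ (pr_two_pow (pr_eh.comp (hj.comp Primrec.fst))))
  refine pr_cntP (P := fun (z : α × ℕ) (β : List Bool) => KL Q (t z.1) β z.2)
    (n := fun z : α × ℕ => lv (j z.1) (i z.1)) ?_
    (pr_lv (hj.comp Primrec.fst) (hi.comp Primrec.fst))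
  exact pp_KL hQ (ht.comp (Primrec.fst.comp Primrec.fst)) Primrec.snd
    (Primrec.snd.comp Primrec.fst)

theorem pr_take {n : α → ℕ} {β : α → List Bool} (hn : Primrec n) (hβ : Primrec β) :
    Primrec fun a => (β a).take (n a) := Primrec.list_take.comp hn hβ

theorem pp_Mk (hQ : Primrec₂ Q) {t j i k : α → ℕ} {β : α → List Bool} (ht : Primrec t)
    (hj : Primrec j) (hi : Primrec i) (hk : Primrec k) (hβ : Primrec β) :
    PrimrecPred fun a => Mk Q (t a) (j a) (i a) (k a) (β a) := by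
  unfold Mk
  refine pp_exists (f := fun a => t a + 1) (P := fun a t' =>
    ∃ r < eh (j a) + 2, ∃ l < lv (j a) (i a) + eh (j a) + 1,
    ¬ MR Q t' (j a) (i a) (r + 1) ∧ KL Q t' ((β a).take (lv (j a) (i a))) l ∧
      l + r + 4 + k a ≤ lv (j a) (i a) + gm (j a) + j a + 1) ?_ (Primrec.succ.comp ht)
  refine pp_exists (f := fun z : α × ℕ => eh (j z.1) + 2) (P := fun z r =>
    ∃ l < lv (j z.1) (i z.1) + eh (j z.1) + 1,
    ¬ MR Q z.2 (j z.1) (i z.1) (r + 1) ∧ KL Q z.2 ((β z.1).take (lv (j z.1) (i z.1))) l ∧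
      l + r + 4 + k z.1 ≤ lv (j z.1) (i z.1) + gm (j z.1) + j z.1 + 1) ?_
      (Primrec.nat_add.comp (pr_eh.comp (hj.comp Primrec.fst)) (Primrec.const 2))
  refine pp_exists (f := fun z : (α × ℕ) × ℕ => lv (j z.1.1) (i z.1.1) + eh (j z.1.1) + 1)
    (P := fun z l => ¬ MR Q z.1.2 (j z.1.1) (i z.1.1) (z.2 + 1) ∧
      KL Q z.1.2 ((β z.1.1).take (lv (j z.1.1) (i z.1.1))) l ∧
      l + z.2 + 4 + k z.1.1 ≤ lv (j z.1.1) (i z.1.1) + gm (j z.1.1) + j z.1.1 + 1) ?_ ?_
  · have a1 : Primrec fun z : ((α × ℕ) × ℕ) × ℕ => z.1.1.1 :=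
      Primrec.fst.comp (Primrec.fst.comp Primrec.fst)
    have a2 : Primrec fun z : ((α × ℕ) × ℕ) × ℕ => z.1.1.2 :=
      Primrec.snd.comp (Primrec.fst.comp Primrec.fst)
    have a3 : Primrec fun z : ((α × ℕ) × ℕ) × ℕ => z.1.2 := Primrec.snd.comp Primrec.fst
    refine ((pp_MR hQ a2 (hj.comp a1) (hi.comp a1) (Primrec.succ.comp a3)).not).and
      ((pp_KL hQ a2 (pr_take (pr_lv (hj.comp a1) (hi.comp a1)) (hβ.comp a1)) Primrec.snd).and ?_)
    exact pp_le (Primrec.nat_add.comp (Primrec.nat_add.comp (Primrec.nat_add.comp Primrec.snd a3)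
      (Primrec.const 4)) (hk.comp a1)) (Primrec.succ.comp (Primrec.nat_add.comp
      (Primrec.nat_add.comp (pr_lv (hj.comp a1) (hi.comp a1)) (pr_gm.comp (hj.comp a1)))
      (hj.comp a1)))
  · have a1 : Primrec fun z : (α × ℕ) × ℕ => z.1.1 := Primrec.fst.comp Primrec.fst
    exact Primrec.succ.comp (Primrec.nat_add.comp (pr_lv (hj.comp a1) (hi.comp a1))
      (pr_eh.comp (hj.comp a1)))

theorem pp_Lk {j i k : α → ℕ} {γ : α → List Bool} (hj : Primrec j) (hi : Primrec i)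
    (hk : Primrec k) (hγ : Primrec γ) :
    PrimrecPred fun a => Lk (j a) (i a) (k a) (ev (γ a)) := by
  unfold Lk ev
  refine pp_forall (f := fun a => 2 * k a) (P := fun a s =>
    (γ a).getD (pS (j a) + i a * (2 * pa (j a)) + s) false = true) ?_
    (Primrec.nat_mul.comp (Primrec.const 2) hk)
  refine pp_true ?_
  have h1 : Primrec₂ fun (l : List Bool) (n : ℕ) => l.getD n false := Primrec.list_getD false
  refine h1.comp (hγ.comp Primrec.fst) ?_
  have a1 : Primrec fun z : α × ℕ => z.1 := Primrec.fst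
  exact Primrec.nat_add.comp (Primrec.nat_add.comp (pr_pS.comp (hj.comp a1))
    (Primrec.nat_mul.comp (hi.comp a1) (Primrec.nat_mul.comp (Primrec.const 2)
      (pr_pa.comp (hj.comp a1))))) Primrec.snd

theorem pp_Cn (hQ : Primrec₂ Q) {t j i : α → ℕ} {γ β : α → List Bool} (ht : Primrec t)
    (hj : Primrec j) (hi : Primrec i) (hγ : Primrec γ) (hβ : Primrec β) :
    PrimrecPred fun a => Cn Q (t a) (j a) (i a) (ev (γ a)) (β a) := by
  unfold Cn
  refine pp_forall (f := fun a => pa (j a) + 1) (P := fun a k =>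
    Mk Q (t a) (j a) (i a) k (β a) → Lk (j a) (i a) k (ev (γ a))) ?_
    (Primrec.succ.comp (pr_pa.comp hj))
  have a1 : Primrec fun z : α × ℕ => z.1 := Primrec.fst
  exact pp_imp (pp_Mk hQ (ht.comp a1) (hj.comp a1) (hi.comp a1) Primrec.snd (hβ.comp a1))
    (pp_Lk (hj.comp a1) (hi.comp a1) Primrec.snd (hγ.comp a1))

theorem pr_Xm (hQ : Primrec₂ Q) {t j : α → ℕ} {β : α → List Bool} (ht : Primrec t)
    (hj : Primrec j) (hβ : Primrec β) : Primrec fun a => Xm Q (t a) (j a) (β a) := by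
  unfold Xm
  refine pr_cntN (P := fun a u =>
    Mk Q (t a) (j a) (u / (pa (j a) + 1)) (u % (pa (j a) + 1) + 1) (β a)) ?_
    (Primrec.nat_mul.comp (pr_two_pow (pr_nw.comp hj)) (Primrec.succ.comp (pr_pa.comp hj)))
  have a1 : Primrec fun z : α × ℕ => z.1 := Primrec.fst
  have a2 : Primrec fun z : α × ℕ => pa (j z.1) + 1 :=
    Primrec.succ.comp (pr_pa.comp (hj.comp a1))
  exact pp_Mk hQ (ht.comp a1) (hj.comp a1) (Primrec.nat_div.comp Primrec.snd a2)
    (Primrec.succ.comp (Primrec.nat_mod.comp Primrec.snd a2)) (hβ.comp a1)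

theorem pp_NR (hQ : Primrec₂ Q) {t : α → ℕ} {β : α → List Bool} (ht : Primrec t)
    (hβ : Primrec β) : PrimrecPred fun a => NR Q (t a) (β a) := by
  unfold NR
  refine pp_exists (f := fun a => (β a).length + 1) (P := fun a n =>
    ∃ l < n + 1, KL Q (t a) ((β a).take n) l ∧ l + 4 < n) ?_
    (Primrec.succ.comp (Primrec.list_length.comp hβ))
  refine pp_exists (f := fun z : α × ℕ => z.2 + 1) (P := fun z l =>
    KL Q (t z.1) ((β z.1).take z.2) l ∧ l + 4 < z.2) ?_ (Primrec.succ.comp Primrec.snd)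
  have a1 : Primrec fun z : (α × ℕ) × ℕ => z.1.1 := Primrec.fst.comp Primrec.fst
  have a2 : Primrec fun z : (α × ℕ) × ℕ => z.1.2 := Primrec.snd.comp Primrec.fst
  exact (pp_KL hQ (ht.comp a1) (pr_take a2 (hβ.comp a1)) Primrec.snd).and
    (pp_lt (Primrec.nat_add.comp Primrec.snd (Primrec.const 4)) a2)

theorem pp_Gd (hQ : Primrec₂ Q) {t : α → ℕ} {β : α → List Bool} (ht : Primrec t)
    (hβ : Primrec β) : PrimrecPred fun a => Gd Q (t a) (β a) := by
  unfold Gd
  refine (pp_NR hQ ht hβ).not.and ?_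
  refine pp_forall (f := t) (P := fun a j => Xm Q (t a) j (β a) ≤ pa j) ?_ ht
  exact pp_le (pr_Xm hQ (ht.comp Primrec.fst) Primrec.snd (hβ.comp Primrec.fst))
    (pr_pa.comp Primrec.snd)

theorem pr_dg {m j : α → ℕ} (hm : Primrec m) (hj : Primrec j) :
    Primrec fun a => dg (m a) (j a) := by
  unfold dg
  exact Primrec.nat_mod.comp (Primrec.nat_div.comp hm (pr_two_pow (pr_pe.comp hj)))
    (pr_two_pow (Primrec.succ.comp (pr_nw.comp hj)))

theorem pp_Hc (hQ : Primrec₂ Q) {t j m : α → ℕ} {γ β : α → List Bool} (ht : Primrec t)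
    (hj : Primrec j) (hm : Primrec m) (hγ : Primrec γ) (hβ : Primrec β) :
    PrimrecPred fun a => Hc Q (t a) (j a) (m a) (ev (γ a)) (β a) := by
  unfold Hc
  refine (pp_Gd hQ ht hβ).and ?_
  refine pp_forall (f := j) (P := fun a j' => ∀ i < min (dg (m a) j') (2 ^ nw j'),
    Cn Q (t a) j' i (ev (γ a)) (β a)) ?_ hj
  refine pp_forall (f := fun z : α × ℕ => min (dg (m z.1) z.2) (2 ^ nw z.2))
    (P := fun z i => Cn Q (t z.1) z.2 i (ev (γ z.1)) (β z.1)) ?_ ?_
  · have a1 : Primrec fun z : (α × ℕ) × ℕ => z.1.1 := Primrec.fst.comp Primrec.fst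
    have a2 : Primrec fun z : (α × ℕ) × ℕ => z.1.2 := Primrec.snd.comp Primrec.fst
    exact pp_Cn hQ (ht.comp a1) a2 Primrec.snd (hγ.comp a1) (hβ.comp a1)
  · exact Primrec.nat_min.comp (pr_dg (hm.comp Primrec.fst) Primrec.snd)
      (pr_two_pow (pr_nw.comp Primrec.snd))

theorem pp_Hn (hQ : Primrec₂ Q) {t j m i : α → ℕ} {γ β : α → List Bool} (ht : Primrec t)
    (hj : Primrec j) (hm : Primrec m) (hi : Primrec i) (hγ : Primrec γ) (hβ : Primrec β) :
    PrimrecPred fun a => Hn Q (t a) (j a) (m a) (i a) (ev (γ a)) (β a) := by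
  unfold Hn
  refine (pp_Hc hQ ht hj hm hγ hβ).and ?_
  refine pp_forall (f := fun a => i a + 1) (P := fun a i' =>
    Cn Q (t a) (j a) i' (ev (γ a)) (β a)) ?_ (Primrec.succ.comp hi)
  have a1 : Primrec fun z : α × ℕ => z.1 := Primrec.fst
  exact pp_Cn hQ (ht.comp a1) (hj.comp a1) Primrec.snd (hγ.comp a1) (hβ.comp a1)

theorem pp_Gu (hQ : Primrec₂ Q) {t j m : α → ℕ} {γ : α → List Bool} (ht : Primrec t)
    (hj : Primrec j) (hm : Primrec m) (hγ : Primrec γ) :
    PrimrecPred fun a => Gu Q (t a) (j a) (m a) (ev (γ a)) := by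
  unfold Gu
  refine pp_le (pr_two_pow (pr_pS.comp ht)) (Primrec.nat_mul.comp
    (pr_cntP (P := fun a β => Hc Q (t a) (j a) (m a) (ev (γ a)) β) ?_ (pr_pS.comp ht))
    (pr_two_pow (pr_pm.comp hj)))
  have a1 : Primrec fun z : α × List Bool => z.1 := Primrec.fst
  exact pp_Hc hQ (ht.comp a1) (hj.comp a1) (hm.comp a1) (hγ.comp a1) Primrec.snd

theorem pp_Sm (hQ : Primrec₂ Q) {t j m i : α → ℕ} {γ : α → List Bool} (ht : Primrec t)
    (hj : Primrec j) (hm : Primrec m) (hi : Primrec i) (hγ : Primrec γ) :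
    PrimrecPred fun a => Sm Q (t a) (j a) (m a) (i a) (ev (γ a)) := by
  unfold Sm
  refine pp_lt (Primrec.nat_mul.comp
    (pr_cntP (P := fun a β => Hn Q (t a) (j a) (m a) (i a) (ev (γ a)) β) ?_ (pr_pS.comp ht))
    (pr_two_pow (pr_pm.comp (Primrec.succ.comp hj)))) (pr_two_pow (pr_pS.comp ht))
  have a1 : Primrec fun z : α × List Bool => z.1 := Primrec.fst
  exact pp_Hn hQ (ht.comp a1) (hj.comp a1) (hm.comp a1) (hi.comp a1) (hγ.comp a1) Primrec.snd

theorem sig_Fl (hQ : Primrec₂ Q) {j i : α → ℕ} {γ : α → List Bool} (hj : Primrec j)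
    (hi : Primrec i) (hγ : Primrec γ) : Sig1 fun a => Fl Q (j a) (i a) (ev (γ a)) := by
  unfold Fl
  refine sig_of_pp (p := fun a t => j a < t ∧ ∃ m < 2 ^ pe (j a),
    Gu Q t (j a) m (ev (γ a)) ∧ Sm Q t (j a) m (i a) (ev (γ a))) ?_
  refine (pp_lt (hj.comp Primrec.fst) Primrec.snd).and ?_
  refine pp_exists (f := fun z : α × ℕ => 2 ^ pe (j z.1)) (P := fun z m =>
    Gu Q z.2 (j z.1) m (ev (γ z.1)) ∧ Sm Q z.2 (j z.1) m (i z.1) (ev (γ z.1))) ?_
    (pr_two_pow (pr_pe.comp (hj.comp Primrec.fst)))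
  have a1 : Primrec fun z : (α × ℕ) × ℕ => z.1.1 := Primrec.fst.comp Primrec.fst
  have a2 : Primrec fun z : (α × ℕ) × ℕ => z.1.2 := Primrec.snd.comp Primrec.fst
  exact (pp_Gu hQ a2 (hj.comp a1) Primrec.snd (hγ.comp a1)).and
    (pp_Sm hQ a2 (hj.comp a1) Primrec.snd (hi.comp a1) (hγ.comp a1))

end comp

end KDV
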