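import Pool.Agent.KRD.Slow

/-!
# Tools: primitive recursive predicates, and a form of the machine existence theorem
-/

namespace KDV

open AC Low4 Encodable Denumerable

section tools

variable {α β : Type} [Primcodable α] [Primcodable β]

theorem pp_forall {P : α → ℕ → Prop} {f : α → ℕ} (hP : PrimrecPred fun z : α × ℕ => P z.1 z.2)
    (hf : Primrec f) : PrimrecPred fun a => ∀ x < f a, P a x := by
  have hR : PrimrecRel fun (x : ℕ) (a : α) => P a x :=
    PrimrecPred.comp (f := fun y : ℕ × α => (y.2, y.1)) hP (Primrec.pair Primrec.snd Primrec.fst)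
  exact (hR.forall_mem_list.comp (Primrec.list_range.comp hf) Primrec.id).of_eq fun a => by simp

theorem pp_exists {P : α → ℕ → Prop} {f : α → ℕ} (hP : PrimrecPred fun z : α × ℕ => P z.1 z.2)
    (hf : Primrec f) : PrimrecPred fun a => ∃ x < f a, P a x := by
  have hR : PrimrecRel fun (x : ℕ) (a : α) => P a x :=
    PrimrecPred.comp (f := fun y : ℕ × α => (y.2, y.1)) hP (Primrec.pair Primrec.snd Primrec.fst)
  exact (hR.exists_mem_list.comp (Primrec.list_range.comp hf) Primrec.id).of_eq fun a => by simp

open Classical in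
theorem pr_count {P : α → β → Prop} {l : α → List β} (hP : PrimrecPred fun z : α × β => P z.1 z.2)
    (hl : Primrec l) : Primrec fun a => ((l a).filter fun b => decide (P a b)).length := by
  have hR : PrimrecRel fun (b : β) (a : α) => P a b :=
    PrimrecPred.comp (f := fun y : β × α => (y.2, y.1)) hP (Primrec.pair Primrec.snd Primrec.fst)
  exact Primrec.list_length.comp ((hR.listFilter).comp hl Primrec.id)

theorem pr_pow : Primrec₂ fun (a b : ℕ) => a ^ b := by
  have h := Nat.Primrec.pow
  exact Primrec₂.unpaired'.1 h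

theorem sig_of_pp {p : α → ℕ → Prop} (hp : PrimrecPred fun z : α × ℕ => p z.1 z.2) :
    Sig1 fun a => ∃ t, p a t := by
  classical
  refine Sig1.ex_nat (p := p) ?_
  refine (Sig1.of_computable (f := fun z : α × ℕ => decide (p z.1 z.2)) ?_).of_eq fun z => by simp
  exact hp.decide.to_comp

theorem sig_of_pred {p : α → Prop} (hp : PrimrecPred p) : Sig1 p := by
  classical
  exact (Sig1.of_computable (f := fun z : α => decide (p z)) hp.decide.to_comp).of_eq
    fun z => by simp

end tools

/-! ### requests -/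

/-- the request number `u = pair (code, time)`, when it appears for the first time -/
def rq (R : ℕ × List Bool → ℕ → Bool) (u : ℕ) : List (List Bool × ℕ) :=
  ((decode (α := ℕ × List Bool) u.unpair.1).bind fun a =>
    cond (decide (encode a = u.unpair.1) && (R a u.unpair.2 &&
      !(bEx (fun k => R a k) u.unpair.2)))
    (some (List.replicate a.1 false, encode a.2)) none).toList

/-- the list of the requests -/
def RQ (R : ℕ × List Bool → ℕ → Bool) (σ : List Bool) : List (List Bool × ℕ) :=
  (List.range σ.length).flatMap (rq R)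

theorem primrec_replicate : Primrec fun n : ℕ => List.replicate n false := by
  have h1 : Primrec fun x : ℕ => (Nat.rec [] (fun _ (l : List Bool) => false :: l) x :
      List Bool) := by
    refine Primrec.nat_rec' (f := fun x : ℕ => x) (g := fun _ => ([] : List Bool))
      (h := fun (_ : ℕ) (q : ℕ × List Bool) => false :: q.2) Primrec.id (Primrec.const _) ?_
    exact (Primrec.list_cons.comp (Primrec.const false) (Primrec.snd.comp Primrec.snd)).to₂
  refine h1.of_eq fun x => ?_
  induction x with
  | zero => rfl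
  | succ x ih => rw [List.replicate_succ, ← ih]

theorem primrec_rq {R : ℕ × List Bool → ℕ → Bool} (hR : Primrec₂ R) : Primrec (rq R) := by
  unfold rq
  have h0 : Primrec fun u : ℕ => u.unpair.1 := Primrec.fst.comp Primrec.unpair
  have h2 : Primrec fun u : ℕ => u.unpair.2 := Primrec.snd.comp Primrec.unpair
  refine Primrec.optionToList.comp (Primrec.option_bind (Primrec.decode.comp h0) ?_)
  have h3 : Primrec fun z : ℕ × (ℕ × List Bool) => bEx (fun k => R z.2 k) z.1.unpair.2 :=
    KRD.primrec_bEx (R := fun (z : ℕ × (ℕ × List Bool)) k => R z.2 k)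
      (hR.comp (Primrec.snd.comp Primrec.fst) Primrec.snd).to₂ (h2.comp Primrec.fst)
  have h4 : Primrec fun z : ℕ × (ℕ × List Bool) => decide (encode z.2 = z.1.unpair.1) :=
    (Primrec.eq (α := ℕ)).decide.comp (Primrec.encode.comp Primrec.snd) (h0.comp Primrec.fst)
  refine (Primrec.cond (Primrec.and.comp h4 (Primrec.and.comp
    (hR.comp Primrec.snd (h2.comp Primrec.fst)) (Primrec.not.comp h3)))
    (Primrec.option_some.comp (Primrec.pair (primrec_replicate.comp
      (Primrec.fst.comp Primrec.snd)) (Primrec.encode.comp (Primrec.snd.comp Primrec.snd))))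
    (Primrec.const none)).to₂

/-- the request `a` appears at `u` -/
def App (R : ℕ × List Bool → ℕ → Bool) (u : ℕ) (a : ℕ × List Bool) : Prop :=
  encode a = u.unpair.1 ∧ R a u.unpair.2 = true ∧ ∀ k < u.unpair.2, ¬ R a k = true

theorem mem_rq {R : ℕ × List Bool → ℕ → Bool} {u : ℕ} {x : List Bool × ℕ} :
    x ∈ rq R u ↔ ∃ a, App R u a ∧ x = (List.replicate a.1 false, encode a.2) := by
  unfold rq App
  rw [Option.mem_toList, Option.bind_eq_some_iff]
  have key : ∀ (b : Bool) (y : List Bool × ℕ), cond b (some y) none = some x ↔ b = true ∧ x = y := by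
    intro b y
    cases b
    · simp
    · simp only [cond_true, Option.some.injEq, true_and]
      exact eq_comm
  have hb : ∀ a : ℕ × List Bool, (bEx (fun k => R a k) u.unpair.2) = true ↔
      ∃ k < u.unpair.2, R a k = true := fun a => bEx_iff _ _
  constructor
  · rintro ⟨a, h1, h2⟩
    rw [key, Bool.and_eq_true, Bool.and_eq_true, decide_eq_true_iff, Bool.not_eq_true',
      ← Bool.not_eq_true, hb] at h2
    obtain ⟨⟨h3, h4, h5⟩, h6⟩ := h2
    exact ⟨a, ⟨h3, h4, fun k hk hk2 => h5 ⟨k, hk, hk2⟩⟩, h6⟩
  · rintro ⟨a, ⟨h3, h4, h5⟩, h6⟩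
    refine ⟨a, by rw [← h3, encodek], ?_⟩
    rw [key, Bool.and_eq_true, Bool.and_eq_true, decide_eq_true_iff, Bool.not_eq_true',
      ← Bool.not_eq_true, hb]
    exact ⟨⟨h3, h4, fun ⟨k, hk, hk2⟩ => h5 k hk hk2⟩, h6⟩

theorem App_unique {R : ℕ × List Bool → ℕ → Bool} {u : ℕ} {a b : ℕ × List Bool}
    (h : App R u a) (h' : App R u b) : a = b :=
  encode_injective (h.1.trans h'.1.symm)

theorem App_inj {R : ℕ × List Bool → ℕ → Bool} {u v : ℕ} {a : ℕ × List Bool}
    (h : App R u a) (h' : App R v a) : u = v := by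
  have h6 : u.unpair.2 = v.unpair.2 := by
    rcases lt_trichotomy u.unpair.2 v.unpair.2 with h7 | h7 | h7
    · exact absurd h.2.1 (h'.2.2 _ h7)
    · exact h7
    · exact absurd h'.2.1 (h.2.2 _ h7)
  rw [← Nat.pair_unpair u, ← Nat.pair_unpair v, h6, ← h.1, ← h'.1]

/-- **Requests**: a c.e. set of requests of total weight at most one is satisfied up to a
constant. -/
theorem kc_of_sig {U : List Bool →. ℕ} (hU : IsOptimal ∅ U) {W : ℕ × List Bool → Prop}
    (hW : Sig1 W) (hsum : ∀ F : Finset (ℕ × List Bool), (∀ a ∈ F, W a) →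
      ∑ a ∈ F, (1 / 2 : ℚ) ^ a.1 ≤ 1) :
    ∃ c : ℕ, ∀ a, W a → KRD.kc U a.2 ≤ a.1 + c := by
  classical
  obtain ⟨R, hR, hR2⟩ := primrec_nf hW
  have hmono : ∀ σ τ : List Bool, σ <+: τ → RQ R σ <+: RQ R τ := by
    intro σ τ h
    unfold RQ
    obtain ⟨k, hk⟩ := Nat.exists_eq_add_of_le h.length_le
    rw [hk, List.range_add, List.flatMap_append]
    exact List.prefix_append _ _
  have hw : ∀ σ : List Bool, pw (RQ R σ) ≤ 2 := by
    intro σ
    have h1 : ∀ l : List ℕ, pw (l.flatMap (rq R)) = (l.map fun u => pw (rq R u)).sum := by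
      intro l
      induction l with
      | nil => simp [pw]
      | cons u l ih => rw [List.flatMap_cons, pw_append, ih, List.map_cons, List.sum_cons]
    unfold RQ
    rw [h1, KRD.list_sum_range]
    set P : ℕ → Prop := fun u => ∃ a, App R u a with hP
    have hch : ∀ u, ∃ a : ℕ × List Bool, P u → App R u a := by
      intro u
      by_cases hu : P u
      · obtain ⟨a, ha⟩ := hu
        exact ⟨a, fun _ => ha⟩
      · exact ⟨(0, []), fun h => absurd h hu⟩
    choose A hA using hch
    have h2 : ∀ u, pw (rq R u) = if P u then (1 / 2 : ℚ) ^ (A u).1 else 0 := by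
      intro u
      by_cases hu : P u
      · rw [if_pos hu]
        have h3 : rq R u = [(List.replicate (A u).1 false, encode (A u).2)] := by
          have h4 := (mem_rq (R := R) (u := u)).2 ⟨A u, hA u hu, rfl⟩
          unfold rq at h4 ⊢
          rw [Option.mem_toList] at h4
          rw [h4]
          rfl
        rw [h3]
        simp [pw]
      · rw [if_neg hu]
        have h3 : rq R u = [] := by
          rw [List.eq_nil_iff_forall_not_mem]
          intro a ha
          obtain ⟨b, hb, -⟩ := mem_rq.1 ha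
          exact hu ⟨b, hb⟩
        rw [h3]
        simp [pw]
    rw [Finset.sum_congr rfl fun u _ => h2 u, ← Finset.sum_filter]
    have h3 : ∑ u ∈ (Finset.range σ.length).filter P, (1 / 2 : ℚ) ^ (A u).1 =
        ∑ a ∈ ((Finset.range σ.length).filter P).image A, (1 / 2 : ℚ) ^ a.1 := by
      rw [Finset.sum_image]
      intro u hu v hv h
      have h4 := hA u (Finset.mem_filter.1 hu).2
      have h5 := hA v (Finset.mem_filter.1 hv).2
      rw [h] at h4
      exact App_inj h4 h5
    rw [h3]
    refine (hsum _ ?_).trans (by norm_num)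
    intro a ha
    obtain ⟨u, hu, rfl⟩ := Finset.mem_image.1 ha
    exact (hR2 _).2 ⟨_, (hA u (Finset.mem_filter.1 hu).2).2.1⟩
  have hc : Computable (RQ R) := by
    refine Primrec.to_comp ?_
    unfold RQ
    exact Primrec.list_flatMap (f := fun σ : List Bool => List.range σ.length)
      (g := fun _ u => rq R u) (Primrec.list_range.comp Primrec.list_length)
      ((primrec_rq hR).comp Primrec.snd).to₂
  obtain ⟨M, hM, hM2⟩ := exists_machine (RQ R) hc hmono hw ∅
  obtain ⟨d, hd⟩ := hU.simulates M hM
  refine ⟨d + 2, fun a ha => ?_⟩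
  have hex := (hR2 a).1 ha
  set k := Nat.find hex with hk
  have h1 : (List.replicate a.1 false, encode a.2) ∈ RQ R (pre ∅ (Nat.pair (encode a) k + 1)) := by
    unfold RQ
    rw [List.mem_flatMap]
    refine ⟨Nat.pair (encode a) k, by rw [pre_length, List.mem_range]; omega, ?_⟩
    rw [mem_rq]
    refine ⟨a, ⟨?_, ?_, ?_⟩, rfl⟩
    · rw [Nat.unpair_pair]
    · rw [Nat.unpair_pair]
      exact Nat.find_spec hex
    · rw [Nat.unpair_pair]
      exact fun j hj => Nat.find_min hex hj
  obtain ⟨τ, h2, h3⟩ := hM2 _ _ h1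
  obtain ⟨ρ, h4, h5⟩ := hd τ _ h2
  have h6 : KRD.kc U a.2 ≤ ρ.length := KC_le h4
  rw [List.length_replicate] at h3
  omega

end KDV
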