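import Pool.Agent.KDV.Flag

/-!
# The weight of the requests
-/

namespace KDV

open AC Low4 Encodable Denumerable

theorem cover {ι κ : Type*} (F : Finset ι) (T : Finset κ) (w : ι → ℝ) (hw : ∀ x, 0 ≤ w x)
    (R : κ → ι → Prop) (h : ∀ x ∈ F, ∃ y ∈ T, R y x) (B : κ → ℝ)
    (hB : ∀ y ∈ T, ∀ G : Finset ι, (∀ x ∈ G, R y x) → ∑ x ∈ G, w x ≤ B y) :
    ∑ x ∈ F, w x ≤ ∑ y ∈ T, B y := by
  classical
  have h1 : ∑ y ∈ T, ∑ x ∈ F.filter (R y), w x =
      ∑ x ∈ F, ∑ y ∈ T, if R y x then w x else 0 := by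
    rw [Finset.sum_comm]
    exact Finset.sum_congr rfl fun y _ => Finset.sum_filter _ _
  have h2 : ∑ x ∈ F, w x ≤ ∑ y ∈ T, ∑ x ∈ F.filter (R y), w x := by
    rw [h1]
    refine Finset.sum_le_sum fun x hx => ?_
    obtain ⟨y, hy, h2⟩ := h x hx
    refine le_trans (le_of_eq ?_) (Finset.single_le_sum (f := fun y => if R y x then w x else 0)
      (fun y _ => ?_) hy)
    · simp only [if_pos h2]
    · split_ifs
      · exact hw x
      · exact le_rfl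
  refine h2.trans (Finset.sum_le_sum fun y hy => hB y hy _ fun x hx => ?_)
  exact (Finset.mem_filter.1 hx).2

theorem card_le_cntP {n : ℕ} {P : List Bool → Prop} (S : Finset (List Bool))
    (h : ∀ β ∈ S, β.length = n ∧ P β) : S.card ≤ cntP n P := by
  classical
  rw [cntP_eq]
  exact Finset.card_le_card fun β hβ => Finset.mem_filter.2 ⟨mem_Sx.2 (h β hβ).1, (h β hβ).2⟩

theorem Lk_count {j i k : ℕ} (hk : k < pa j + 1) :
    (cntP (lv j i) (fun α => Lk j i k (ev α)) : ℝ) = 2 ^ lv j i / 4 ^ k := by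
  have h0 : lv j i = (pS j + i * (2 * pa j)) + 2 * pa j := by
    unfold lv
    ring
  rw [h0, cntP_append]
  push_cast
  have h1 : ∀ α ∈ Sx (pS j + i * (2 * pa j)),
      (cntP (2 * pa j) (fun b => Lk j i k (ev (α ++ b))) : ℝ) = 2 ^ (2 * pa j) / 4 ^ k := by
    intro α hα
    rw [mem_Sx] at hα
    have h2 : ∀ b, Lk j i k (ev (α ++ b)) ↔ ∀ s < 2 * k, b.getD s false = true := by
      intro b
      unfold Lk
      refine forall_congr' fun s => forall_congr' fun hs => ?_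
      rw [← hα, ev_append]
    simp only [h2]
    have h3 := count_ones (2 * k) (2 * pa j) (by omega)
    have h4 : (2 : ℝ) ^ (2 * k) = 4 ^ k := by
      rw [pow_mul]
      norm_num
    rw [h4] at h3
    rw [← h3, cntP_eq, Finset.card_filter]
    push_cast
    rfl
  rw [Finset.sum_congr rfl h1, Finset.sum_const, card_Sx, nsmul_eq_mul]
  push_cast
  rw [pow_add (2 : ℝ) (pS j + i * (2 * pa j))]
  ring

/-- the requests of a level -/
def LR (Q : List Bool × ℕ → ℕ → Bool) (j i r k : ℕ) (x : ℕ × List Bool) : Prop :=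
  x.2.length = lv j i ∧ x.1 + r + k = lv j i + eh j + 6 ∧
    (Lk j i k (ev x.2) ∨ Fl Q j i (ev x.2))

/-- all the requests -/
def Wr (Q : List Bool × ℕ → ℕ → Bool) (x : ℕ × List Bool) : Prop :=
  ∃ j i r k, i < 2 ^ nw j ∧ k < pa j + 1 ∧ (r = 0 ∨ ∃ t, MR Q t j i r) ∧ LR Q j i r k x

section wt

variable {U : List Bool →. ℕ} {Q : List Bool × ℕ → ℕ → Bool}

theorem leaf (hU : IsOptimal ∅ U) (hQ : ∀ β l, KRD.kc U β ≤ l ↔ ∃ k, Q (β, l) k = true)
    {j i r k : ℕ} (hi : i < 2 ^ nw j) (hk : k < pa j + 1) (F : Finset (ℕ × List Bool))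
    (h : ∀ x ∈ F, LR Q j i r k x) :
    ∑ x ∈ F, (1 / 2 : ℝ) ^ x.1 ≤
      2 ^ r / 2 ^ (eh j + 6) * ((1 / 2) ^ k + 2 ^ k / 2 ^ (pa j + 1)) := by
  classical
  have h1 : ∀ x ∈ F, (1 / 2 : ℝ) ^ x.1 = 2 ^ (r + k) / 2 ^ (lv j i + eh j + 6) := by
    intro x hx
    rw [← (h x hx).2.1, add_assoc, pow_add (2 : ℝ) x.1, one_div, inv_pow]
    field_simp
  rw [Finset.sum_congr rfl h1, Finset.sum_const, nsmul_eq_mul]
  have h2 : F.card ≤ cntP (lv j i) (fun α => Lk j i k (ev α)) +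
      cntP (lv j i) (fun α => Fl Q j i (ev α)) := by
    refine le_trans ?_ (cntP_or (lv j i) (fun α => Lk j i k (ev α)) fun α => Fl Q j i (ev α))
    rw [← Finset.card_image_of_injOn (s := F) (f := Prod.snd)]
    · refine card_le_cntP _ fun α hα => ?_
      obtain ⟨x, hx, rfl⟩ := Finset.mem_image.1 hα
      exact ⟨(h x hx).1, (h x hx).2.2⟩
    · intro x hx y hy hxy
      have h3 := (h x hx).2.1
      have h4 := (h y hy).2.1
      exact Prod.ext (by omega) hxy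
  have h3 : (F.card : ℝ) ≤ 2 ^ lv j i / 4 ^ k + 2 ^ lv j i / 2 ^ (pa j + 1) := by
    have h4 : (F.card : ℝ) ≤ cntP (lv j i) (fun α => Lk j i k (ev α)) +
      cntP (lv j i) (fun α => Fl Q j i (ev α)) := by exact_mod_cast h2
    have h5 : (cntP (lv j i) (fun α => Fl Q j i (ev α)) : ℝ) ≤ 2 ^ lv j i / 2 ^ (pa j + 1) := by
      rw [le_div_iff₀ (by positivity)]
      exact_mod_cast flag_bound hU hQ hi
    rw [Lk_count hk] at h4
    linarith
  calc (F.card : ℝ) * (2 ^ (r + k) / 2 ^ (lv j i + eh j + 6))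
      ≤ (2 ^ lv j i / 4 ^ k + 2 ^ lv j i / 2 ^ (pa j + 1)) *
        (2 ^ (r + k) / 2 ^ (lv j i + eh j + 6)) :=
        mul_le_mul_of_nonneg_right h3 (by positivity)
    _ = _ := by
        have e : (4 : ℝ) ^ k = 2 ^ k * 2 ^ k := by rw [← mul_pow]; norm_num
        rw [e, add_assoc (lv j i), pow_add (2 : ℝ) (lv j i), pow_add (2 : ℝ) r, one_div, inv_pow]
        field_simp

theorem sum_leaf (a : ℕ) : ∑ k ∈ Finset.range (a + 1),
    ((1 / 2 : ℝ) ^ k + 2 ^ k / 2 ^ (a + 1)) ≤ 3 := by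
  rw [Finset.sum_add_distrib, ← Finset.sum_div]
  have h1 : ∑ k ∈ Finset.range (a + 1), (1 / 2 : ℝ) ^ k ≤ 2 := by
    have h2 := half_sum (a + 1)
    have h3 : ∑ k ∈ Finset.range (a + 1), (1 / 2 : ℝ) ^ (k + 1) =
        (1 / 2) * ∑ k ∈ Finset.range (a + 1), (1 / 2 : ℝ) ^ k := by
      rw [Finset.mul_sum]
      exact Finset.sum_congr rfl fun k _ => by rw [pow_succ]; ring
    rw [h3] at h2
    linarith
  have h2 : (∑ k ∈ Finset.range (a + 1), (2 : ℝ) ^ k) / 2 ^ (a + 1) ≤ 1 := by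
    rw [div_le_one (by positivity)]
    have h3 : ∑ k ∈ Finset.range (a + 1), (2 : ℝ) ^ k = 2 ^ (a + 1) - 1 := by
      generalize a + 1 = n
      induction n with
      | zero => simp
      | succ n ih => rw [Finset.sum_range_succ, ih, pow_succ]; ring
    rw [h3]
    linarith
  linarith

theorem sum_two (n : ℕ) : ∑ r ∈ Finset.range (n + 1), (2 : ℝ) ^ r ≤ 2 * 2 ^ n := by
  have h3 : ∑ k ∈ Finset.range (n + 1), (2 : ℝ) ^ k = 2 * 2 ^ n - 1 := by
    induction n with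
    | zero => norm_num
    | succ n ih => rw [Finset.sum_range_succ, ih, pow_succ]; ring
  rw [h3]
  linarith

theorem level (hU : IsOptimal ∅ U) (hQ : ∀ β l, KRD.kc U β ≤ l ↔ ∃ k, Q (β, l) k = true)
    {j i : ℕ} (hi : i < 2 ^ nw j) (F : Finset (ℕ × List Bool))
    (h : ∀ x ∈ F, ∃ r < rs Q j i + 1, ∃ k < pa j + 1, LR Q j i r k x) :
    ∑ x ∈ F, (1 / 2 : ℝ) ^ x.1 ≤ 6 / 64 * (1 / 2 ^ eh j + mass U (lv j i)) := by
  have h1 := cover F (Finset.range (rs Q j i + 1)) (fun x => (1 / 2 : ℝ) ^ x.1)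
    (fun x => by positivity) (fun r x => ∃ k < pa j + 1, LR Q j i r k x) (fun x hx => by
      obtain ⟨r, hr, h2⟩ := h x hx
      exact ⟨r, Finset.mem_range.2 hr, h2⟩) (fun r => 2 ^ r * (3 / 2 ^ (eh j + 6))) (by
    intro r _ G hG
    have h3 := cover G (Finset.range (pa j + 1)) (fun x => (1 / 2 : ℝ) ^ x.1)
      (fun x => by positivity) (fun k x => LR Q j i r k x) (fun x hx => by
        obtain ⟨k, hk, h2⟩ := hG x hx
        exact ⟨k, Finset.mem_range.2 hk, h2⟩)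
      (fun k => 2 ^ r / 2 ^ (eh j + 6) * ((1 / 2) ^ k + 2 ^ k / 2 ^ (pa j + 1)))
      (fun k hk G' hG' => leaf hU hQ hi (Finset.mem_range.1 hk) G' hG')
    refine h3.trans ?_
    rw [← Finset.mul_sum]
    refine (mul_le_mul_of_nonneg_left (sum_leaf _) (by positivity)).trans (le_of_eq ?_)
    ring)
  refine h1.trans ?_
  rw [← Finset.sum_mul]
  calc (∑ r ∈ Finset.range (rs Q j i + 1), (2 : ℝ) ^ r) * (3 / 2 ^ (eh j + 6))
      ≤ (2 * 2 ^ rs Q j i) * (3 / 2 ^ (eh j + 6)) :=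
        mul_le_mul_of_nonneg_right (sum_two _) (by positivity)
    _ ≤ (2 * (1 + 2 ^ eh j * mass U (lv j i))) * (3 / 2 ^ (eh j + 6)) :=
        mul_le_mul_of_nonneg_right (mul_le_mul_of_nonneg_left (rs_pow hQ j i) (by norm_num))
          (by positivity)
    _ = _ := by
        rw [pow_add]
        field_simp
        norm_num
        ring

theorem sum_mass2 (hU : IsOptimal ∅ U) (J : ℕ) :
    ∑ j ∈ Finset.range J, ∑ i ∈ Finset.range (2 ^ nw j), mass U (lv j i) ≤ 1 := by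
  classical
  rw [Finset.sum_sigma' (Finset.range J) (fun j => Finset.range (2 ^ nw j))
    (fun j i => mass U (lv j i))]
  have h1 : ∑ p ∈ (Finset.range J).sigma (fun j => Finset.range (2 ^ nw j)),
      mass U (lv p.1 p.2) = ∑ n ∈ ((Finset.range J).sigma
        (fun j => Finset.range (2 ^ nw j))).image (fun p => lv p.1 p.2), mass U n := by
    rw [Finset.sum_image]
    rintro ⟨j, i⟩ h ⟨j', i'⟩ h' he
    simp only [Finset.coe_sigma, Set.mem_sigma_iff, Finset.mem_coe, Finset.mem_range] at h h'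
    obtain ⟨h2, h3⟩ := lv_inj h.2 h'.2 he
    subst h2
    subst h3
    rfl
  rw [h1]
  exact mass_sum hU _

/-- the total weight is at most one -/
theorem weight (hU : IsOptimal ∅ U) (hQ : ∀ β l, KRD.kc U β ≤ l ↔ ∃ k, Q (β, l) k = true)
    (F : Finset (ℕ × List Bool)) (h : ∀ x ∈ F, Wr Q x) : ∑ x ∈ F, (1 / 2 : ℚ) ^ x.1 ≤ 1 := by
  classical
  set J := F.sup (fun x => x.2.length) with hJ
  set P : ℕ → ℕ → ℕ × List Bool → Prop := fun j i x =>
    ∃ r < rs Q j i + 1, ∃ k < pa j + 1, LR Q j i r k x with hP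
  have h0 : ∀ x ∈ F, ∃ j ∈ Finset.range J, ∃ i < 2 ^ nw j, P j i x := by
    intro x hx
    obtain ⟨j, i, r, k, h1, h2, h3, h4⟩ := h x hx
    have h5 : x.2.length ≤ J := Finset.le_sup (f := fun x : ℕ × List Bool => x.2.length) hx
    have h6 := lt_lv' j i
    rw [h4.1] at h5
    refine ⟨j, Finset.mem_range.2 (by omega), i, h1, r, ?_, k, h2, h4⟩
    rcases h3 with h3 | ⟨t, h3⟩
    · omega
    · by_contra h7
      exact not_MR hU hQ (by omega) h3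
  have h1 := cover F (Finset.range J) (fun x => (1 / 2 : ℝ) ^ x.1)
    (fun x => by positivity) (fun j x => ∃ i < 2 ^ nw j, P j i x) h0
    (fun j => 6 / 64 * ((1 / 2) ^ (j + 1) +
        ∑ i ∈ Finset.range (2 ^ nw j), mass U (lv j i))) (by
    intro j _ G hG
    have h3 := cover G (Finset.range (2 ^ nw j)) (fun x => (1 / 2 : ℝ) ^ x.1)
      (fun x => by positivity) (fun i x => P j i x) (fun x hx => by
        obtain ⟨i, hi, h2⟩ := hG x hx
        exact ⟨i, Finset.mem_range.2 hi, h2⟩)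
      (fun i => 6 / 64 * (1 / 2 ^ eh j + mass U (lv j i)))
      (fun i hi G' hG' => level hU hQ (Finset.mem_range.1 hi) G' hG')
    refine h3.trans (le_of_eq ?_)
    rw [← Finset.mul_sum, Finset.sum_add_distrib, Finset.sum_const, Finset.card_range,
      nsmul_eq_mul]
    have e : (2 : ℝ) ^ eh j = 2 ^ nw j * 2 ^ (j + 1) := by
      rw [← pow_add]
      rfl
    have e2 : ((2 ^ nw j : ℕ) : ℝ) * (1 / 2 ^ eh j) = (1 / 2) ^ (j + 1) := by
      rw [e, one_div, one_div, inv_pow]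
      push_cast
      field_simp
    rw [e2])
  have h3 : ∑ x ∈ F, (1 / 2 : ℝ) ^ x.1 ≤ 1 := by
    refine h1.trans ?_
    rw [← Finset.mul_sum, Finset.sum_add_distrib]
    have h4 := half_sum J
    have h5 := sum_mass2 (U := U) hU J
    linarith
  have h4 : ((∑ x ∈ F, (1 / 2 : ℚ) ^ x.1 : ℚ) : ℝ) ≤ 1 := by
    push_cast
    exact h3
  exact_mod_cast h4

/-- the requests are c.e. -/
theorem sig_Wr (hQ : Primrec₂ Q) : Sig1 (Wr Q) := by
  unfold Wr LR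
  refine Sig1.ex_nat (p := fun (x : ℕ × List Bool) j => ∃ i r k, i < 2 ^ nw j ∧ k < pa j + 1 ∧
    (r = 0 ∨ ∃ t, MR Q t j i r) ∧ x.2.length = lv j i ∧ x.1 + r + k = lv j i + eh j + 6 ∧
    (Lk j i k (ev x.2) ∨ Fl Q j i (ev x.2))) ?_
  refine Sig1.ex_nat (p := fun (x : (ℕ × List Bool) × ℕ) i => ∃ r k, i < 2 ^ nw x.2 ∧
    k < pa x.2 + 1 ∧ (r = 0 ∨ ∃ t, MR Q t x.2 i r) ∧ x.1.2.length = lv x.2 i ∧
    x.1.1 + r + k = lv x.2 i + eh x.2 + 6 ∧
    (Lk x.2 i k (ev x.1.2) ∨ Fl Q x.2 i (ev x.1.2))) ?_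
  refine Sig1.ex_nat (p := fun (x : ((ℕ × List Bool) × ℕ) × ℕ) r => ∃ k, x.2 < 2 ^ nw x.1.2 ∧
    k < pa x.1.2 + 1 ∧ (r = 0 ∨ ∃ t, MR Q t x.1.2 x.2 r) ∧ x.1.1.2.length = lv x.1.2 x.2 ∧
    x.1.1.1 + r + k = lv x.1.2 x.2 + eh x.1.2 + 6 ∧
    (Lk x.1.2 x.2 k (ev x.1.1.2) ∨ Fl Q x.1.2 x.2 (ev x.1.1.2))) ?_
  refine Sig1.ex_nat (p := fun (x : (((ℕ × List Bool) × ℕ) × ℕ) × ℕ) k =>
    x.1.2 < 2 ^ nw x.1.1.2 ∧ k < pa x.1.1.2 + 1 ∧ (x.2 = 0 ∨ ∃ t, MR Q t x.1.1.2 x.1.2 x.2) ∧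
    x.1.1.1.2.length = lv x.1.1.2 x.1.2 ∧
    x.1.1.1.1 + x.2 + k = lv x.1.1.2 x.1.2 + eh x.1.1.2 + 6 ∧
    (Lk x.1.1.2 x.1.2 k (ev x.1.1.1.2) ∨ Fl Q x.1.1.2 x.1.2 (ev x.1.1.1.2))) ?_
  have ak : Primrec fun x : ((((ℕ × List Bool) × ℕ) × ℕ) × ℕ) × ℕ => x.2 := Primrec.snd
  have ar : Primrec fun x : ((((ℕ × List Bool) × ℕ) × ℕ) × ℕ) × ℕ => x.1.2 :=
    Primrec.snd.comp Primrec.fst
  have ai : Primrec fun x : ((((ℕ × List Bool) × ℕ) × ℕ) × ℕ) × ℕ => x.1.1.2 :=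
    Primrec.snd.comp (Primrec.fst.comp Primrec.fst)
  have aj : Primrec fun x : ((((ℕ × List Bool) × ℕ) × ℕ) × ℕ) × ℕ => x.1.1.1.2 :=
    Primrec.snd.comp (Primrec.fst.comp (Primrec.fst.comp Primrec.fst))
  have aa : Primrec fun x : ((((ℕ × List Bool) × ℕ) × ℕ) × ℕ) × ℕ => x.1.1.1.1.2 :=
    Primrec.snd.comp (Primrec.fst.comp (Primrec.fst.comp (Primrec.fst.comp Primrec.fst)))
  have al : Primrec fun x : ((((ℕ × List Bool) × ℕ) × ℕ) × ℕ) × ℕ => x.1.1.1.1.1 :=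
    Primrec.fst.comp (Primrec.fst.comp (Primrec.fst.comp (Primrec.fst.comp Primrec.fst)))
  refine Sig1.and (sig_of_pred (pp_lt ai (pr_two_pow (pr_nw.comp aj)))) ?_
  refine Sig1.and (sig_of_pred (pp_lt ak (Primrec.succ.comp (pr_pa.comp aj)))) ?_
  refine Sig1.and ?_ ?_
  · refine Sig1.or (sig_of_pred (Primrec.eq.comp ar (Primrec.const 0))) ?_
    exact sig_of_pp (p := fun (x : ((((ℕ × List Bool) × ℕ) × ℕ) × ℕ) × ℕ) t =>
      MR Q t x.1.1.1.2 x.1.1.2 x.1.2) (pp_MR hQ Primrec.snd (aj.comp Primrec.fst)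
      (ai.comp Primrec.fst) (ar.comp Primrec.fst))
  refine Sig1.and (sig_of_pred (Primrec.eq.comp (Primrec.list_length.comp aa) (pr_lv aj ai))) ?_
  refine Sig1.and (sig_of_pred (Primrec.eq.comp (Primrec.nat_add.comp (Primrec.nat_add.comp al ar)
    ak) (Primrec.nat_add.comp (Primrec.nat_add.comp (pr_lv aj ai) (pr_eh.comp aj))
    (Primrec.const 6)))) ?_
  exact Sig1.or (sig_of_pred (pp_Lk aj ai ak aa)) (sig_Fl hQ aj ai aa)

/-- the complexity bounds obtained from the requests -/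
theorem kc_Wr (hU : IsOptimal ∅ U) (hQ1 : Primrec₂ Q)
    (hQ : ∀ β l, KRD.kc U β ≤ l ↔ ∃ k, Q (β, l) k = true) :
    ∃ c : ℕ, ∀ x, Wr Q x → KRD.kc U x.2 ≤ x.1 + c :=
  kc_of_sig hU (sig_Wr hQ1) (weight hU hQ)

end wt

end KDV
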